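import Pool.Agent.Helper93.Fin.Work

/-!
# MP_f09395 (helper93): Module D, calculus of `D1 … D4`
-/

noncomputable section

namespace Pool.Agent.Helper93.Fin

open scoped ContDiff

section moduleD

variable {E : Type*} [NormedAddCommGroup E] [NormedSpace ℝ E] {f : E → ℝ}
variable {F : Type*} [NormedAddCommGroup F] [NormedSpace ℝ F] {g : E → F}

theorem contDiffAt_of_ne (hg : ContDiffOn ℝ ∞ g {0}ᶜ) {u : E} (hu : u ≠ 0) :
    ContDiffAt ℝ ∞ g u :=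
  hg.contDiffAt (isOpen_compl_singleton.mem_nhds hu)

theorem differentiableAt_of_ne (hg : ContDiffOn ℝ ∞ g {0}ᶜ) {u : E} (hu : u ≠ 0) :
    DifferentiableAt ℝ g u :=
  (contDiffAt_of_ne hg hu).differentiableAt (by simp)

theorem continuousAt_of_ne (hg : ContDiffOn ℝ ∞ g {0}ᶜ) {u : E} (hu : u ≠ 0) :
    ContinuousAt g u :=
  (contDiffAt_of_ne hg hu).continuousAt

theorem smooth_fderiv (hg : ContDiffOn ℝ ∞ g {0}ᶜ) : ContDiffOn ℝ ∞ (fderiv ℝ g) {0}ᶜ :=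
  hg.fderiv_of_isOpen isOpen_compl_singleton (by simp)

theorem smooth_fderiv_apply (hg : ContDiffOn ℝ ∞ g {0}ᶜ) (a : E) :
    ContDiffOn ℝ ∞ (fun z => fderiv ℝ g z a) {0}ᶜ :=
  (smooth_fderiv hg).clm_apply contDiffOn_const

theorem D1_smooth (hf : ContDiffOn ℝ ∞ f {0}ᶜ) (a : E) :
    ContDiffOn ℝ ∞ (fun z => D1 f z a) {0}ᶜ := smooth_fderiv_apply hf a
theorem D2_smooth (hf : ContDiffOn ℝ ∞ f {0}ᶜ) (a b : E) :
    ContDiffOn ℝ ∞ (fun z => D2 f z a b) {0}ᶜ := smooth_fderiv_apply (D1_smooth hf a) b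
theorem D3_smooth (hf : ContDiffOn ℝ ∞ f {0}ᶜ) (a b c : E) :
    ContDiffOn ℝ ∞ (fun z => D3 f z a b c) {0}ᶜ := smooth_fderiv_apply (D2_smooth hf a b) c
theorem D4_smooth (hf : ContDiffOn ℝ ∞ f {0}ᶜ) (a b c d : E) :
    ContDiffOn ℝ ∞ (fun z => D4 f z a b c d) {0}ᶜ := smooth_fderiv_apply (D3_smooth hf a b c) d

/-- derivative of `z ↦ g z a` for a smooth family of continuous linear maps -/
theorem fderiv_apply_const {G : E → (E →L[ℝ] F)} (hG : ContDiffOn ℝ ∞ G {0}ᶜ) {u : E}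
    (hu : u ≠ 0) (a b : E) : fderiv ℝ (fun z => G z a) u b = fderiv ℝ G u b a := by
  rw [fderiv_clm_apply (differentiableAt_of_ne hG hu) (differentiableAt_const a)]
  simp

theorem D2_eq' (hf : ContDiffOn ℝ ∞ f {0}ᶜ) {u : E} (hu : u ≠ 0) (a b : E) :
    D2 f u a b = fderiv ℝ (fderiv ℝ f) u b a :=
  fderiv_apply_const (smooth_fderiv hf) hu a b

theorem eventually_ne' {u : E} (hu : u ≠ 0) : ∀ᶠ z in nhds u, z ≠ 0 :=
  isOpen_compl_singleton.mem_nhds hu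

theorem D3_eq' (hf : ContDiffOn ℝ ∞ f {0}ᶜ) {u : E} (hu : u ≠ 0) (a b c : E) :
    D3 f u a b c = fderiv ℝ (fderiv ℝ (fderiv ℝ f)) u c b a := by
  have h1 : (fun z => D2 f z a b) =ᶠ[nhds u] fun z => fderiv ℝ (fderiv ℝ f) z b a :=
    (eventually_ne' hu).mono fun z hz => D2_eq' hf hz a b
  rw [D3, h1.fderiv_eq]
  rw [fderiv_apply_const (G := fun z => fderiv ℝ (fderiv ℝ f) z b)
    (smooth_fderiv_apply (smooth_fderiv hf) b) hu a c,
    fderiv_apply_const (smooth_fderiv (smooth_fderiv hf)) hu b c]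

theorem D4_eq' (hf : ContDiffOn ℝ ∞ f {0}ᶜ) {u : E} (hu : u ≠ 0) (a b c d : E) :
    D4 f u a b c d = fderiv ℝ (fderiv ℝ (fderiv ℝ (fderiv ℝ f))) u d c b a := by
  have h1 : (fun z => D3 f z a b c) =ᶠ[nhds u]
      fun z => fderiv ℝ (fderiv ℝ (fderiv ℝ f)) z c b a :=
    (eventually_ne' hu).mono fun z hz => D3_eq' hf hz a b c
  rw [D4, h1.fderiv_eq]
  have s3 := smooth_fderiv (smooth_fderiv (smooth_fderiv hf))
  have s3' := smooth_fderiv_apply (smooth_fderiv (smooth_fderiv hf)) c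
  rw [fderiv_apply_const (G := fun z => fderiv ℝ (fderiv ℝ (fderiv ℝ f)) z c b)
    (s3'.clm_apply contDiffOn_const) hu a d,
    fderiv_apply_const (G := fun z => fderiv ℝ (fderiv ℝ (fderiv ℝ f)) z c) s3' hu b d,
    fderiv_apply_const s3 hu c d]

/-! ### relation with `iteratedFDeriv` -/

theorem iteratedFDeriv_smooth (hf : ContDiffOn ℝ ∞ f {0}ᶜ) (k : ℕ) {u : E} (hu : u ≠ 0) :
    DifferentiableAt ℝ (iteratedFDeriv ℝ k f) u := by
  have h1 : ContDiffAt ℝ 1 (iteratedFDeriv ℝ k f) u :=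
    (contDiffAt_of_ne hf hu).iteratedFDeriv_right (i := k) (m := 1) (by
      norm_cast
      exact le_top)
  exact h1.differentiableAt one_ne_zero

theorem iter_step (hf : ContDiffOn ℝ ∞ f {0}ᶜ) (k : ℕ) {u : E} (hu : u ≠ 0) {G : E → ℝ}
    {m : Fin k → E} (hG : ∀ z, z ≠ 0 → G z = iteratedFDeriv ℝ k f z m) (b : E)
    {m' : Fin (k + 1) → E} (hm : m' = Fin.cons b m) :
    fderiv ℝ G u b = iteratedFDeriv ℝ (k + 1) f u m' := by
  have h1 : G =ᶠ[nhds u] fun z => iteratedFDeriv ℝ k f z m :=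
    (eventually_ne' hu).mono fun z hz => hG z hz
  rw [h1.fderiv_eq, iteratedFDeriv_succ_apply_left, hm]
  have h2 := (iteratedFDeriv_smooth hf k hu).hasFDerivAt
  have h3 : HasFDerivAt (fun z => iteratedFDeriv ℝ k f z m)
      ((ContinuousMultilinearMap.apply ℝ (fun _ : Fin k => E) ℝ m).comp
        (fderiv ℝ (iteratedFDeriv ℝ k f) u)) u :=
    (ContinuousMultilinearMap.apply ℝ (fun _ : Fin k => E) ℝ m).hasFDerivAt.comp u h2
  rw [h3.fderiv]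
  simp [Fin.tail_def]

theorem D1_eq (_hf : ContDiffOn ℝ ∞ f {0}ᶜ) {u : E} (_hu : u ≠ 0) (a : E) :
    D1 f u a = iteratedFDeriv ℝ 1 f u ![a] := by
  rw [iteratedFDeriv_one_apply]; rfl

theorem D2_eq (hf : ContDiffOn ℝ ∞ f {0}ᶜ) {u : E} (hu : u ≠ 0) (a b : E) :
    D2 f u a b = iteratedFDeriv ℝ 2 f u ![b, a] :=
  iter_step hf 1 hu (fun z hz => D1_eq hf hz a) b rfl

theorem D3_eq (hf : ContDiffOn ℝ ∞ f {0}ᶜ) {u : E} (hu : u ≠ 0) (a b c : E) :
    D3 f u a b c = iteratedFDeriv ℝ 3 f u ![c, b, a] :=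
  iter_step hf 2 hu (fun z hz => D2_eq hf hz a b) c rfl

theorem D4_eq (hf : ContDiffOn ℝ ∞ f {0}ᶜ) {u : E} (hu : u ≠ 0) (a b c d : E) :
    D4 f u a b c d = iteratedFDeriv ℝ 4 f u ![d, c, b, a] :=
  iter_step hf 3 hu (fun z hz => D3_eq hf hz a b c) d rfl

/-! ### linearity -/

theorem D1_add (_hf : ContDiffOn ℝ ∞ f {0}ᶜ) {u : E} (_hu : u ≠ 0) (a a' : E) :
    D1 f u (a + a') = D1 f u a + D1 f u a' := map_add _ a a'
theorem D1_smul (_hf : ContDiffOn ℝ ∞ f {0}ᶜ) {u : E} (_hu : u ≠ 0) (r : ℝ) (a : E) :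
    D1 f u (r • a) = r * D1 f u a := map_smul _ r a
theorem D2_add (hf : ContDiffOn ℝ ∞ f {0}ᶜ) {u : E} (hu : u ≠ 0) (a a' b : E) :
    D2 f u (a + a') b = D2 f u a b + D2 f u a' b := by
  simp [D2_eq' hf hu]
theorem D2_smul (hf : ContDiffOn ℝ ∞ f {0}ᶜ) {u : E} (hu : u ≠ 0) (r : ℝ) (a b : E) :
    D2 f u (r • a) b = r * D2 f u a b := by
  simp [D2_eq' hf hu]
theorem D3_add (hf : ContDiffOn ℝ ∞ f {0}ᶜ) {u : E} (hu : u ≠ 0) (a a' b c : E) :
    D3 f u (a + a') b c = D3 f u a b c + D3 f u a' b c := by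
  simp [D3_eq' hf hu]
theorem D3_smul (hf : ContDiffOn ℝ ∞ f {0}ᶜ) {u : E} (hu : u ≠ 0) (r : ℝ) (a b c : E) :
    D3 f u (r • a) b c = r * D3 f u a b c := by
  simp [D3_eq' hf hu]
theorem D4_add (hf : ContDiffOn ℝ ∞ f {0}ᶜ) {u : E} (hu : u ≠ 0) (a a' b c d : E) :
    D4 f u (a + a') b c d = D4 f u a b c d + D4 f u a' b c d := by
  simp [D4_eq' hf hu]
theorem D4_smul (hf : ContDiffOn ℝ ∞ f {0}ᶜ) {u : E} (hu : u ≠ 0) (r : ℝ) (a b c d : E) :
    D4 f u (r • a) b c d = r * D4 f u a b c d := by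
  simp [D4_eq' hf hu]

/-! ### linearity in the other slots (no symmetry needed) -/

theorem D2_add_right (hf : ContDiffOn ℝ ∞ f {0}ᶜ) {u : E} (hu : u ≠ 0) (a b b' : E) :
    D2 f u a (b + b') = D2 f u a b + D2 f u a b' := by
  simp [D2_eq' hf hu]
theorem D2_smul_right (hf : ContDiffOn ℝ ∞ f {0}ᶜ) {u : E} (hu : u ≠ 0) (r : ℝ) (a b : E) :
    D2 f u a (r • b) = r * D2 f u a b := by
  simp [D2_eq' hf hu]
theorem D3_add_mid (hf : ContDiffOn ℝ ∞ f {0}ᶜ) {u : E} (hu : u ≠ 0) (a b b' c : E) :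
    D3 f u a (b + b') c = D3 f u a b c + D3 f u a b' c := by
  simp [D3_eq' hf hu]
theorem D3_smul_mid (hf : ContDiffOn ℝ ∞ f {0}ᶜ) {u : E} (hu : u ≠ 0) (r : ℝ) (a b c : E) :
    D3 f u a (r • b) c = r * D3 f u a b c := by
  simp [D3_eq' hf hu]
theorem D3_add_right (hf : ContDiffOn ℝ ∞ f {0}ᶜ) {u : E} (hu : u ≠ 0) (a b c c' : E) :
    D3 f u a b (c + c') = D3 f u a b c + D3 f u a b c' := by
  simp [D3_eq' hf hu]
theorem D3_smul_right (hf : ContDiffOn ℝ ∞ f {0}ᶜ) {u : E} (hu : u ≠ 0) (r : ℝ) (a b c : E) :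
    D3 f u a b (r • c) = r * D3 f u a b c := by
  simp [D3_eq' hf hu]
theorem D4_add_2 (hf : ContDiffOn ℝ ∞ f {0}ᶜ) {u : E} (hu : u ≠ 0) (a b b' c d : E) :
    D4 f u a (b + b') c d = D4 f u a b c d + D4 f u a b' c d := by
  simp [D4_eq' hf hu]
theorem D4_smul_2 (hf : ContDiffOn ℝ ∞ f {0}ᶜ) {u : E} (hu : u ≠ 0) (r : ℝ) (a b c d : E) :
    D4 f u a (r • b) c d = r * D4 f u a b c d := by
  simp [D4_eq' hf hu]
theorem D4_add_3 (hf : ContDiffOn ℝ ∞ f {0}ᶜ) {u : E} (hu : u ≠ 0) (a b c c' d : E) :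
    D4 f u a b (c + c') d = D4 f u a b c d + D4 f u a b c' d := by
  simp [D4_eq' hf hu]
theorem D4_smul_3 (hf : ContDiffOn ℝ ∞ f {0}ᶜ) {u : E} (hu : u ≠ 0) (r : ℝ) (a b c d : E) :
    D4 f u a b (r • c) d = r * D4 f u a b c d := by
  simp [D4_eq' hf hu]
theorem D4_add_4 (hf : ContDiffOn ℝ ∞ f {0}ᶜ) {u : E} (hu : u ≠ 0) (a b c d d' : E) :
    D4 f u a b c (d + d') = D4 f u a b c d + D4 f u a b c d' := by
  simp [D4_eq' hf hu]
theorem D4_smul_4 (hf : ContDiffOn ℝ ∞ f {0}ᶜ) {u : E} (hu : u ≠ 0) (r : ℝ) (a b c d : E) :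
    D4 f u a b c (r • d) = r * D4 f u a b c d := by
  simp [D4_eq' hf hu]

/-! ### symmetry -/

theorem D2_symm (hf : ContDiffOn ℝ ∞ f {0}ᶜ) {u : E} (hu : u ≠ 0) (a b : E) :
    D2 f u a b = D2 f u b a := by
  rw [D2_eq' hf hu, D2_eq' hf hu]
  have := (contDiffAt_of_ne hf hu).isSymmSndFDerivAt (by
    rw [minSmoothness_of_isRCLikeNormedField]
    exact WithTop.coe_le_coe.2 le_top)
  exact this.eq b a

theorem D3_symm12 (hf : ContDiffOn ℝ ∞ f {0}ᶜ) {u : E} (hu : u ≠ 0) (a b c : E) :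
    D3 f u a b c = D3 f u b a c := by
  have h1 : (fun z => D2 f z a b) =ᶠ[nhds u] fun z => D2 f z b a :=
    (eventually_ne' hu).mono fun z hz => D2_symm hf hz a b
  rw [D3, h1.fderiv_eq]; rfl

theorem D3_symm23 (hf : ContDiffOn ℝ ∞ f {0}ᶜ) {u : E} (hu : u ≠ 0) (a b c : E) :
    D3 f u a b c = D3 f u a c b :=
  D2_symm (f := fun z => D1 f z a) (D1_smooth hf a) hu b c

theorem D3_symm13 (hf : ContDiffOn ℝ ∞ f {0}ᶜ) {u : E} (hu : u ≠ 0) (a b c : E) :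
    D3 f u a b c = D3 f u c b a := by
  rw [D3_symm12 hf hu a b c, D3_symm23 hf hu b a c, D3_symm12 hf hu b c a]

theorem D4_symm12 (hf : ContDiffOn ℝ ∞ f {0}ᶜ) {u : E} (hu : u ≠ 0) (a b c d : E) :
    D4 f u a b c d = D4 f u b a c d := by
  have h1 : (fun z => D3 f z a b c) =ᶠ[nhds u] fun z => D3 f z b a c :=
    (eventually_ne' hu).mono fun z hz => D3_symm12 hf hz a b c
  rw [D4, h1.fderiv_eq]; rfl

theorem D4_symm23 (hf : ContDiffOn ℝ ∞ f {0}ᶜ) {u : E} (hu : u ≠ 0) (a b c d : E) :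
    D4 f u a b c d = D4 f u a c b d :=
  D3_symm12 (f := fun z => D1 f z a) (D1_smooth hf a) hu b c d

theorem D4_symm34 (hf : ContDiffOn ℝ ∞ f {0}ᶜ) {u : E} (hu : u ≠ 0) (a b c d : E) :
    D4 f u a b c d = D4 f u a b d c :=
  D3_symm23 (f := fun z => D1 f z a) (D1_smooth hf a) hu b c d

/-! ### joint continuity -/

theorem tendsto_of_ne {ι : Type*} {l : Filter ι} (hg : ContDiffOn ℝ ∞ g {0}ᶜ) {u : ι → E}
    {u₀ : E} (hu₀ : u₀ ≠ 0) (hu : Filter.Tendsto u l (nhds u₀)) :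
    Filter.Tendsto (fun n => g (u n)) l (nhds (g u₀)) :=
  (continuousAt_of_ne hg hu₀).tendsto.comp hu

theorem clm_tendsto {F' : Type*} [NormedAddCommGroup F'] [NormedSpace ℝ F'] {ι : Type*}
    {l : Filter ι} {A : ι → (F →L[ℝ] F')} {a : ι → F} {A₀ : F →L[ℝ] F'} {a₀ : F}
    (hA : Filter.Tendsto A l (nhds A₀)) (ha : Filter.Tendsto a l (nhds a₀)) :
    Filter.Tendsto (fun n => A n (a n)) l (nhds (A₀ a₀)) :=
  (isBoundedBilinearMap_apply.continuous.tendsto (A₀, a₀)).comp (hA.prodMk_nhds ha)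

theorem D1_tendsto (hf : ContDiffOn ℝ ∞ f {0}ᶜ) {ι : Type*}
    {l : Filter ι} {u a : ι → E} {u₀ a₀ : E} (hu₀ : u₀ ≠ 0)
    (hu : Filter.Tendsto u l (nhds u₀)) (ha : Filter.Tendsto a l (nhds a₀)) :
    Filter.Tendsto (fun n => D1 f (u n) (a n)) l (nhds (D1 f u₀ a₀)) :=
  clm_tendsto (tendsto_of_ne (smooth_fderiv hf) hu₀ hu) ha

theorem D2_tendsto (hf : ContDiffOn ℝ ∞ f {0}ᶜ) {ι : Type*}
    {l : Filter ι} {u a b : ι → E} {u₀ a₀ b₀ : E} (hu₀ : u₀ ≠ 0)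
    (hu : Filter.Tendsto u l (nhds u₀)) (ha : Filter.Tendsto a l (nhds a₀))
    (hb : Filter.Tendsto b l (nhds b₀)) :
    Filter.Tendsto (fun n => D2 f (u n) (a n) (b n)) l (nhds (D2 f u₀ a₀ b₀)) := by
  rw [D2_eq' hf hu₀]
  refine Filter.Tendsto.congr' ?_
    (clm_tendsto (clm_tendsto (tendsto_of_ne (smooth_fderiv (smooth_fderiv hf)) hu₀ hu) hb) ha)
  exact (hu.eventually (eventually_ne' hu₀)).mono fun n hn => (D2_eq' hf hn _ _).symm

theorem D3_tendsto (hf : ContDiffOn ℝ ∞ f {0}ᶜ) {ι : Type*}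
    {l : Filter ι} {u a b c : ι → E} {u₀ a₀ b₀ c₀ : E} (hu₀ : u₀ ≠ 0)
    (hu : Filter.Tendsto u l (nhds u₀)) (ha : Filter.Tendsto a l (nhds a₀))
    (hb : Filter.Tendsto b l (nhds b₀)) (hc : Filter.Tendsto c l (nhds c₀)) :
    Filter.Tendsto (fun n => D3 f (u n) (a n) (b n) (c n)) l (nhds (D3 f u₀ a₀ b₀ c₀)) := by
  rw [D3_eq' hf hu₀]
  refine Filter.Tendsto.congr' ?_
    (clm_tendsto (clm_tendsto (clm_tendsto
      (tendsto_of_ne (smooth_fderiv (smooth_fderiv (smooth_fderiv hf))) hu₀ hu) hc) hb) ha)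
  exact (hu.eventually (eventually_ne' hu₀)).mono fun n hn => (D3_eq' hf hn _ _ _).symm

theorem D4_tendsto (hf : ContDiffOn ℝ ∞ f {0}ᶜ) {ι : Type*}
    {l : Filter ι} {u a b c d : ι → E} {u₀ a₀ b₀ c₀ d₀ : E} (hu₀ : u₀ ≠ 0)
    (hu : Filter.Tendsto u l (nhds u₀)) (ha : Filter.Tendsto a l (nhds a₀))
    (hb : Filter.Tendsto b l (nhds b₀)) (hc : Filter.Tendsto c l (nhds c₀))
    (hd : Filter.Tendsto d l (nhds d₀)) :
    Filter.Tendsto (fun n => D4 f (u n) (a n) (b n) (c n) (d n)) l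
      (nhds (D4 f u₀ a₀ b₀ c₀ d₀)) := by
  rw [D4_eq' hf hu₀]
  refine Filter.Tendsto.congr' ?_
    (clm_tendsto (clm_tendsto (clm_tendsto (clm_tendsto
      (tendsto_of_ne (smooth_fderiv (smooth_fderiv (smooth_fderiv (smooth_fderiv hf)))) hu₀ hu)
      hd) hc) hb) ha)
  exact (hu.eventually (eventually_ne' hu₀)).mono fun n hn => (D4_eq' hf hn _ _ _ _).symm

/-! ### chain rules -/

/-- differentiate a homogeneous function of degree `j`: scaling of the derivative -/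
theorem fderiv_scale {G : E → ℝ} {c k : ℝ} (hc : c ≠ 0)
    (h : ∀ z, z ≠ 0 → G (c • z) = k * G z) (hG : ContDiffOn ℝ ∞ G {0}ᶜ) {u : E} (hu : u ≠ 0)
    (a : E) : c * fderiv ℝ G (c • u) a = k * fderiv ℝ G u a := by
  have hcu : c • u ≠ 0 := smul_ne_zero hc hu
  have h1 : HasFDerivAt (fun z : E => G (c • z)) ((fderiv ℝ G (c • u)).comp
      (c • ContinuousLinearMap.id ℝ E)) u := by
    have h0 : HasFDerivAt (fun z : E => c • z) (c • ContinuousLinearMap.id ℝ E) u :=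
      (hasFDerivAt_id u).const_smul c
    exact HasFDerivAt.comp u (differentiableAt_of_ne hG hcu).hasFDerivAt h0
  have h2 : HasFDerivAt (fun z : E => k * G z) (k • fderiv ℝ G u) u :=
    (differentiableAt_of_ne hG hu).hasFDerivAt.const_mul k
  have h3 : (fun z : E => G (c • z)) =ᶠ[nhds u] fun z => k * G z :=
    (eventually_ne' hu).mono fun z hz => h z hz
  have h4 := (h1.congr_of_eventuallyEq h3.symm).unique h2
  have h5 := DFunLike.congr_fun h4 a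
  simpa [smul_eq_mul] using h5

/-- radial derivative of a homogeneous function -/
theorem fderiv_radial {G : E → ℝ} {φ : ℝ → ℝ} {φ' : ℝ} (hφ : HasDerivAt φ φ' 1) {u : E}
    (hG : ContDiffOn ℝ ∞ G {0}ᶜ) (hu : u ≠ 0)
    (h : ∀ c : ℝ, c ≠ 0 → G (c • u) = φ c * G u) : fderiv ℝ G u u = φ' * G u := by
  have h0 : HasDerivAt (fun c : ℝ => c • u) u 1 := by
    simpa using (hasDerivAt_id (1 : ℝ)).smul_const u
  have h1' : HasFDerivAt G (fderiv ℝ G ((1 : ℝ) • u)) ((1 : ℝ) • u) := by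
    rw [one_smul]
    exact (differentiableAt_of_ne hG hu).hasFDerivAt
  have h1 : HasDerivAt (fun c : ℝ => G (c • u)) (fderiv ℝ G ((1 : ℝ) • u) u) 1 :=
    h1'.comp_hasDerivAt (1 : ℝ) h0
  rw [one_smul] at h1
  have h2 : HasDerivAt (fun c : ℝ => φ c * G u) (φ' * G u) 1 := hφ.mul_const _
  have h3 : (fun c : ℝ => G (c • u)) =ᶠ[nhds 1] fun c => φ c * G u := by
    filter_upwards [isOpen_compl_singleton.mem_nhds (one_ne_zero : (1 : ℝ) ≠ 0)] with c hc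
    exact h c hc
  exact (h1.congr_of_eventuallyEq h3.symm).unique h2

section hom
variable (hf : ContDiffOn ℝ ∞ f {0}ᶜ) (hh : ∀ (c : ℝ) (u : E), f (c • u) = c ^ 2 * f u)
include hf hh

theorem D1_scale {c : ℝ} (hc : c ≠ 0) {u : E} (hu : u ≠ 0) (a : E) :
    D1 f (c • u) a = c * D1 f u a := by
  have h1 := fderiv_scale hc (fun z _ => hh c z) hf hu a
  have : c * D1 f (c • u) a = c * (c * D1 f u a) := by
    rw [D1, D1]; linarith
  exact mul_left_cancel₀ hc this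

theorem D2_scale {c : ℝ} (hc : c ≠ 0) {u : E} (hu : u ≠ 0) (a b : E) :
    D2 f (c • u) a b = D2 f u a b := by
  have h1 := fderiv_scale hc (fun z hz => D1_scale hf hh hc hz a) (D1_smooth hf a) hu b
  exact mul_left_cancel₀ hc h1

theorem D3_scale {c : ℝ} (hc : c ≠ 0) {u : E} (hu : u ≠ 0) (a b d : E) :
    D3 f (c • u) a b d = c⁻¹ * D3 f u a b d := by
  have h1 := fderiv_scale (k := 1) hc (fun z hz => by
    rw [D2_scale hf hh hc hz a b, one_mul]) (D2_smooth hf a b) hu d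
  rw [one_mul] at h1
  rw [D3, D3, ← h1]
  field_simp

theorem D4_scale {c : ℝ} (hc : c ≠ 0) {u : E} (hu : u ≠ 0) (a b d e : E) :
    D4 f (c • u) a b d e = c⁻¹ ^ 2 * D4 f u a b d e := by
  have h1 := fderiv_scale (k := c⁻¹) hc (fun z hz => D3_scale hf hh hc hz a b d)
    (D3_smooth hf a b d) hu e
  have h2 : D4 f (c • u) a b d e = c⁻¹ * (c * fderiv ℝ (fun z => D3 f z a b d) (c • u) e) := by
    rw [D4]; field_simp
  rw [h2, h1, D4]; ring

/-- Euler: `f(cu) = c² f(u)` -/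
theorem euler1 {u : E} (hu : u ≠ 0) : D1 f u u = 2 * f u := by
  have h0 : HasDerivAt (fun c : ℝ => c ^ 2) 2 1 := by
    simpa using hasDerivAt_pow 2 (1 : ℝ)
  exact fderiv_radial h0 hf hu fun c _ => hh c u

theorem euler2 {u : E} (hu : u ≠ 0) (a : E) : D2 f u u a = D1 f u a := by
  rw [D2_symm hf hu u a]
  have := fderiv_radial (hasDerivAt_id (1 : ℝ)) (D1_smooth hf a) hu
    fun c hc => D1_scale hf hh hc hu a
  rw [one_mul] at this
  exact this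

theorem euler3 {u : E} (hu : u ≠ 0) (a b : E) : D3 f u u a b = 0 := by
  rw [D3_symm12 hf hu u a b, D3_symm23 hf hu a u b]
  have := fderiv_radial (φ := fun _ => 1) (hasDerivAt_const (1 : ℝ) (1 : ℝ)) (D2_smooth hf a b)
    hu fun c hc => by rw [D2_scale hf hh hc hu a b, one_mul]
  rw [zero_mul] at this
  exact this

theorem euler4 {u : E} (hu : u ≠ 0) (a b c : E) : D4 f u u a b c = - D3 f u a b c := by
  rw [D4_symm12 hf hu u a b c, D4_symm23 hf hu a u b c, D4_symm34 hf hu a b u c]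
  have h0 : HasDerivAt (fun c : ℝ => c⁻¹) (-1) 1 := by
    simpa using hasDerivAt_inv (one_ne_zero : (1 : ℝ) ≠ 0)
  have := fderiv_radial h0 (D3_smooth hf a b c) hu fun d hd => D3_scale hf hh hd hu a b c
  rw [neg_one_mul] at this
  exact this

end hom

end moduleD

end Pool.Agent.Helper93.Fin
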