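import Pool.Agent.helper77.FinQuo
import Pool.Agent.helper26.Fin.G2s
import Pool.Agent.helper18.FinAdj
import Pool.Agent.helper17.FinG2e

/-!
# MP_f09395 (helper93): Module G2f, the quartic perturbation `phi` on `G₂/SU(2)`
-/

noncomputable section

namespace Pool.Agent.Helper93.Fin

open scoped ContDiff Quaternion Matrix

namespace G2

/-- Gram matrix `G s t = ⟨P s, P t⟩` -/
def gram (P : Fin 3 → ℍ[ℝ]) (s t : Fin 3) : ℝ := (P s * star (P t)).re
/-- quartic invariant -/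
def fG (P : Fin 3 → ℍ[ℝ]) : ℝ :=
  (1 / 2) * (gram P 0 0 - gram P 1 1) ^ 2 + (1 / 2) * (gram P 0 0 + gram P 1 1 - 2 * gram P 2 2
    + 2 * gram P 0 2 + 4 * gram P 1 2) ^ 2
/-- `P s` from an endomorphism: `X (e s, 0) = (…, P s)` -/
def comp (X : End) (s : Fin 3) : ℍ[ℝ] := (X (e s, 0)).2
/-- `φ = f(G(P)) / (|P|² + 6 |q|²)` -/
def phi (X : m) : ℝ := fG (comp X) / QQ X X

namespace G2f

theorem comp_add (X Y : End) (s : Fin 3) : comp (X + Y) s = comp X s + comp Y s := rfl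
theorem comp_smul (c : ℝ) (X : End) (s : Fin 3) : comp (c • X) s = c • comp X s := rfl

theorem comp_kel (b : ℍ[ℝ]) (s : Fin 3) : comp (kel b) s = 0 := by
  rw [comp, kel_apply]; simp

theorem comp_pel (P : Fin 3 → ℍ[ℝ]) (s : Fin 3) : comp (pel P) s = P s := by
  rw [comp, pel_apply]
  fin_cases s <;> simp [act, e]

theorem comp_lie_hel (b : ℍ[ℝ]) (X : End) (s : Fin 3) : comp ⁅hel b, X⁆ s = b * comp X s := by
  have h1 : (⁅hel b, X⁆ : End) (e s, 0) = hel b (X (e s, 0)) - X (hel b (e s, 0)) := rfl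
  rw [comp, h1, hel_apply, hel_apply]
  have h2 : ((0 : ℍ[ℝ]), b * ((e s, (0 : ℍ[ℝ])) : Oct).2) = (0 : Oct) := by simp
  rw [h2, map_zero]
  simp [comp]

theorem comp_lie_kel (b : ℍ[ℝ]) (P : Fin 3 → ℍ[ℝ]) (s : Fin 3) :
    comp ⁅kel b, pel P⁆ s = -(P s * b) - ((b * e s - e s * b).imI • P 0
      + (b * e s - e s * b).imJ • P 1 + (b * e s - e s * b).imK • P 2) := by
  have h1 : (⁅kel b, pel P⁆ : End) (e s, 0) = kel b (pel P (e s, 0)) - pel P (kel b (e s, 0)) :=
    rfl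
  rw [comp, h1, kel_apply, kel_apply, Prod.snd_sub]
  have h2 : (pel P (e s, 0)).2 = P s := comp_pel P s
  have h3 : ∀ w : ℍ[ℝ], (pel P (w, -((0 : ℍ[ℝ]) * b))).2
      = w.imI • P 0 + w.imJ • P 1 + w.imK • P 2 := by
    intro w
    rw [pel_apply]
    simp [act]
  rw [h2]
  exact congrArg (fun z => -(P s * b) - z) (h3 _)

theorem re_mul_star_comm (x y : ℍ[ℝ]) : (x * star y).re = (y * star x).re := by
  simp [Quaternion.re_mul]; ring

/-- bilinear form `∑ C s t ⟨comp X s, comp Y t⟩` -/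
def BE (C : Matrix (Fin 3) (Fin 3) ℝ) : End →ₗ[ℝ] End →ₗ[ℝ] ℝ :=
  LinearMap.mk₂ ℝ (fun X Y => ∑ s, ∑ t, C s t * (comp X s * star (comp Y t)).re)
    (by
      intro X Y Z
      simp only [comp_add, add_mul, Quaternion.re_add, mul_add, Finset.sum_add_distrib])
    (by
      intro c X Y
      simp only [comp_smul, smul_mul_assoc, Quaternion.re_smul, smul_eq_mul, Finset.mul_sum]
      exact Finset.sum_congr rfl fun s _ => Finset.sum_congr rfl fun t _ => by ring)
    (by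
      intro X Y Z
      simp only [comp_add, star_add, Quaternion.re_add, mul_add, Finset.sum_add_distrib])
    (by
      intro c X Y
      simp only [comp_smul, Quaternion.star_smul, mul_smul_comm, Quaternion.re_smul, smul_eq_mul,
        Finset.mul_sum]
      exact Finset.sum_congr rfl fun s _ => Finset.sum_congr rfl fun t _ => by ring)

theorem BE_apply (C : Matrix (Fin 3) (Fin 3) ℝ) (X Y : End) :
    BE C X Y = ∑ s, ∑ t, C s t * (comp X s * star (comp Y t)).re := rfl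

theorem BE_symm {C : Matrix (Fin 3) (Fin 3) ℝ} (hC : C.IsSymm) (X Y : End) :
    BE C X Y = BE C Y X := by
  rw [BE_apply, BE_apply, Finset.sum_comm]
  refine Finset.sum_congr rfl fun s _ => Finset.sum_congr rfl fun t _ => ?_
  rw [re_mul_star_comm, hC.apply]

theorem C1_symm : C1.IsSymm := by
  ext i j; fin_cases i <;> fin_cases j <;> rfl
theorem C2_symm : C2.IsSymm := by
  ext i j; fin_cases i <;> fin_cases j <;> rfl

theorem BE_C1 (X : End) : BE C1 X X = gram (comp X) 0 0 - gram (comp X) 1 1 := by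
  rw [BE_apply]
  simp [C1, Fin.sum_univ_three, gram]
  ring

theorem BE_C2 (X : End) : BE C2 X X = gram (comp X) 0 0 + gram (comp X) 1 1
    - 2 * gram (comp X) 2 2 + 2 * gram (comp X) 0 2 + 4 * gram (comp X) 1 2 := by
  rw [BE_apply]
  have h1 : gram (comp X) 2 0 = gram (comp X) 0 2 := re_mul_star_comm _ _
  have h2 : gram (comp X) 2 1 = gram (comp X) 1 2 := re_mul_star_comm _ _
  simp only [Fin.sum_univ_three]
  simp only [gram] at *
  rw [h1, h2]
  simp [C2]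
  ring

theorem exists_comp {u : End} (hu : u ∈ m) : ∃ (b : ℍ[ℝ]) (P : Fin 3 → ℍ[ℝ]),
    b.re = 0 ∧ ∑ s, P s * e s = 0 ∧ u = kel b + pel P := by
  rw [m_eq, Submodule.mem_sup] at hu
  obtain ⟨y, hy, z, hz, rfl⟩ := hu
  obtain ⟨b, hb, rfl⟩ := (mem_sk y).1 hy
  obtain ⟨P, hP, rfl⟩ := (mem_sp z).1 hz
  exact ⟨b, P, hb, hP, rfl⟩

theorem comp_mk (b : ℍ[ℝ]) (P : Fin 3 → ℍ[ℝ]) (s : Fin 3) :
    comp (kel b + pel P) s = P s := by
  rw [comp_add, comp_kel, comp_pel, zero_add]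

theorem BE_lie_hel {C : Matrix (Fin 3) (Fin 3) ℝ} (hC : C.IsSymm) {b : ℍ[ℝ]} (hb : b.re = 0)
    (X : End) : BE C X ⁅hel b, X⁆ = 0 := by
  have h1 : ∀ s t, (comp X s * star (b * comp X t)).re = -(comp X t * star (b * comp X s)).re := by
    intro s t
    simp [Quaternion.re_mul, hb]
    ring
  have h2 : BE C X ⁅hel b, X⁆ = -BE C X ⁅hel b, X⁆ := by
    conv_lhs => rw [BE_apply, Finset.sum_comm]
    rw [BE_apply, ← Finset.sum_neg_distrib]
    refine Finset.sum_congr rfl fun s _ => ?_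
    rw [← Finset.sum_neg_distrib]
    refine Finset.sum_congr rfl fun t _ => ?_
    rw [comp_lie_hel, comp_lie_hel, h1, hC.apply]
    ring
  linarith

theorem qData {P : End →L[ℝ] m} {Ph Pk Pp : End →L[ℝ] End}
    (hS : SymData (𝔸 := End) sh sk sp QQ Ph Pk Pp) (hP : ∀ X, (P X : End) = Pk X + Pp X) :
    QData (𝔸 := End) sh sk sp m P QQ (BE C1) (BE C2) Ph Pk Pp phi where
  sym := hS
  m_eq := m_eq
  P_eq := hP
  s1 := BE_symm C1_symm
  s2 := BE_symm C2_symm
  i1 X hX Y _ := by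
    obtain ⟨b, hb, rfl⟩ := (mem_sh X).1 hX
    exact BE_lie_hel C1_symm hb Y
  i2 X hX Y _ := by
    obtain ⟨b, hb, rfl⟩ := (mem_sh X).1 hX
    exact BE_lie_hel C2_symm hb Y
  k1 X hX Y := by
    obtain ⟨b, hb, rfl⟩ := (mem_sk X).1 hX
    rw [BE_apply]; simp [comp_kel]
  k2 X hX Y := by
    obtain ⟨b, hb, rfl⟩ := (mem_sk X).1 hX
    rw [BE_apply]; simp [comp_kel]
  φ_eq u := by
    rw [phi, fG, BE_C1, BE_C2]

theorem re_mul_comm' (x y : ℍ[ℝ]) : (x * y).re = (y * x).re := by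
  simp [Quaternion.re_mul]; ring

theorem re_conj {g : ℍ[ℝ]} (hg : ‖g‖ = 1) (x y : ℍ[ℝ]) :
    ((g * x) * star (g * y)).re = (x * star y).re := by
  have h1 : star g * g = 1 := by
    rw [Quaternion.star_mul_self, Quaternion.normSq_eq_norm_mul_self, hg]; simp
  rw [star_mul, mul_assoc, re_mul_comm', mul_assoc, mul_assoc, h1, mul_one]

theorem H_apply {k : Endˣ} (hk : k ∈ H) : ∃ p : ℍ[ℝ], ‖p‖ = 1 ∧
    (∀ x : Oct, (k : End) x = (x.1, p * x.2)) ∧ ∀ a : ℍ[ℝ], ((k⁻¹ : Endˣ) : End) (a, 0) = (a, 0) := by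
  obtain ⟨p, hp, h⟩ := hk
  refine ⟨p, hp, h, fun a => ?_⟩
  have h2 : ∀ z, ((k⁻¹ : Endˣ) : End) ((k : End) z) = z := by
    intro z
    have : (((k⁻¹ : Endˣ) : End) * (k : End)) z = (1 : End) z := by rw [k.inv_mul]
    exact this
  have h3 : (k : End) ((a, 0) : Oct) = (a, 0) := by rw [h]; simp
  conv_lhs => rw [← h3]
  exact h2 _

theorem phi_Ad' : ∀ k ∈ H, ∀ u v : m, (v : End) = Adj (𝔸 := End) k u → phi v = phi u := by
  intro k hk u v huv
  obtain ⟨p, hp, h1, h2⟩ := H_apply hk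
  have h3 : ∀ s, comp (v : End) s = p * comp (u : End) s := by
    intro s
    rw [huv]
    have h4 : (Adj (𝔸 := End) k u) (e s, 0) = (k : End) ((u : End) (((k⁻¹ : Endˣ) : End) (e s, 0))) :=
      rfl
    rw [comp, h4, h2, h1]
    rfl
  have h5 : ∀ s t, gram (comp (v : End)) s t = gram (comp (u : End)) s t := by
    intro s t
    rw [gram, gram, h3, h3, re_conj hp]
  have h6 : QQ (v : End) (v : End) = QQ (u : End) (u : End) := by
    rw [QQ_apply, QQ_apply]
    congr 1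
    have h7 : ((v : End) * (v : End) : End) = (k : End) * ((u : End) * (u : End))
        * ((k⁻¹ : Endˣ) : End) := by
      rw [huv]
      simp only [Adj, mul_assoc]
      rw [← mul_assoc ((k⁻¹ : Endˣ) : End) (k : End), k.inv_mul, one_mul]
    rw [h7]
    have h8 : (((k : End) * ((u : End) * (u : End)) * ((k⁻¹ : Endˣ) : End) : End) :
        Oct →ₗ[ℝ] Oct) = ((k : End) : Oct →ₗ[ℝ] Oct) *
        (((u : End) * (u : End) : End) : Oct →ₗ[ℝ] Oct) * (((k⁻¹ : Endˣ) : End) : Oct →ₗ[ℝ] Oct) :=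
      rfl
    rw [h8, LinearMap.trace_mul_comm, ← mul_assoc]
    have h9 : (((k⁻¹ : Endˣ) : End) : Oct →ₗ[ℝ] Oct) * ((k : End) : Oct →ₗ[ℝ] Oct) = 1 := by
      have : (((k⁻¹ : Endˣ) : End) * (k : End) : End) = 1 := k.inv_mul
      have := congrArg (fun X : End => (X : Oct →ₗ[ℝ] Oct)) this
      exact this
    rw [h9, one_mul]
  rw [phi, phi, h6, fG, fG, h5, h5, h5, h5, h5]

/-! ### formulas in normal form -/

/-- `vec q s = ∑ r, q s r e_r` -/
def vec (q : Matrix (Fin 3) (Fin 3) ℝ) (s : Fin 3) : ℍ[ℝ] := ∑ r, q s r • e r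

theorem e_re (i : Fin 3) : (e i).re = 0 := by fin_cases i <;> rfl

theorem vec_re (q : Matrix (Fin 3) (Fin 3) ℝ) (s : Fin 3) : (vec q s).re = 0 := by
  simp only [vec, Fin.sum_univ_three, Quaternion.re_add, Quaternion.re_smul, e_re]
  simp
theorem vec_imI (q : Matrix (Fin 3) (Fin 3) ℝ) (s : Fin 3) : (vec q s).imI = q s 0 := by
  simp only [vec, Fin.sum_univ_three, Quaternion.imI_add, Quaternion.imI_smul, e0_imI, e1_imI,
    e2_imI]
  simp
theorem vec_imJ (q : Matrix (Fin 3) (Fin 3) ℝ) (s : Fin 3) : (vec q s).imJ = q s 1 := by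
  simp only [vec, Fin.sum_univ_three, Quaternion.imJ_add, Quaternion.imJ_smul, e0_imJ, e1_imJ,
    e2_imJ]
  simp
theorem vec_imK (q : Matrix (Fin 3) (Fin 3) ℝ) (s : Fin 3) : (vec q s).imK = q s 2 := by
  simp only [vec, Fin.sum_univ_three, Quaternion.imK_add, Quaternion.imK_smul, e0_imK, e1_imK,
    e2_imK]
  simp

/-- axial vector -/
def ax (X : Matrix (Fin 3) (Fin 3) ℝ) : Fin 3 → ℝ := ![X 1 2 - X 2 1, X 2 0 - X 0 2, X 0 1 - X 1 0]

theorem isSymm_of_ax {X : Matrix (Fin 3) (Fin 3) ℝ} (h : ∀ i, ax X i = 0) : X.IsSymm := by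
  have h0 := h 0
  have h1 := h 1
  have h2 := h 2
  simp [ax] at h0 h1 h2
  ext i j
  fin_cases i <;> fin_cases j <;> simp [Matrix.transpose_apply] <;> linarith

theorem ax_of_isSymm {X : Matrix (Fin 3) (Fin 3) ℝ} (h : X.IsSymm) (i : Fin 3) : ax X i = 0 := by
  have h0 := h.apply 1 2
  have h1 := h.apply 2 0
  have h2 := h.apply 0 1
  fin_cases i <;> simp [ax] <;> linarith

theorem BE_hel {g : ℍ[ℝ]} (hg : ‖g‖ = 1) (C p p' : Matrix (Fin 3) (Fin 3) ℝ)
    {U W : End} (hU : ∀ s, comp U s = g * vec p s) (hW : ∀ s, comp W s = g * vec p' s)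
    (i : Fin 3) : BE C U ⁅hel (g * e i * star g), W⁆ = - ax (pᵀ * C * p') i := by
  have h1 : star g * g = 1 := by
    rw [Quaternion.star_mul_self, Quaternion.normSq_eq_norm_mul_self, hg]; simp
  have h2 : ∀ t, comp ⁅hel (g * e i * star g), W⁆ t = g * (e i * vec p' t) := by
    intro t
    rw [comp_lie_hel, hW]
    rw [mul_assoc (g * e i), ← mul_assoc (star g), h1, one_mul, mul_assoc]
  rw [BE_apply]
  simp only [h2, hU, re_conj hg]
  fin_cases i <;>
    simp [vec_re, vec_imI, vec_imJ, vec_imK, e_re, e0_imI, e0_imJ, e0_imK, e1_imI, e1_imJ, e1_imK,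
      e2_imI, e2_imJ, e2_imK, Fin.sum_univ_three, ax, Matrix.mul_apply] <;> ring

theorem BE_kel {g : ℍ[ℝ]} (hg : ‖g‖ = 1) (C p p' : Matrix (Fin 3) (Fin 3) ℝ)
    {U W : End} (hU : ∀ s, comp U s = g * vec p s) {P' : Fin 3 → ℍ[ℝ]} (hW : W = pel P')
    (hW' : ∀ s, P' s = g * vec p' s)
    (i : Fin 3) : BE C U ⁅kel (e i), W⁆ = - ax (pᵀ * C * p') i - 2 * ax (Cᵀ * (p * p'ᵀ)) i := by
  have h2 : ∀ t, comp ⁅kel (e i), W⁆ t = g * (-(vec p' t * e i)
      - ((e i * e t - e t * e i).imI • vec p' 0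
      + (e i * e t - e t * e i).imJ • vec p' 1 + (e i * e t - e t * e i).imK • vec p' 2)) := by
    intro t
    rw [hW, comp_lie_kel, hW', hW', hW', hW']
    simp only [mul_sub, mul_add, mul_neg, mul_assoc, mul_smul_comm]
  rw [BE_apply]
  simp only [h2, hU, re_conj hg]
  fin_cases i <;>
    simp [vec_re, vec_imI, vec_imJ, vec_imK, e_re, e0_imI, e0_imJ, e0_imK, e1_imI, e1_imJ, e1_imK,
      e2_imI, e2_imJ, e2_imK, Fin.sum_univ_three, ax, Matrix.mul_apply] <;> ring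

theorem BE_eq {g : ℍ[ℝ]} (hg : ‖g‖ = 1) {C p p' : Matrix (Fin 3) (Fin 3) ℝ}
    {U W : End} (hU : ∀ s, comp U s = g * vec p s) (hW : ∀ s, comp W s = g * vec p' s) :
    BE C U W = (Cᵀ * (p * p'ᵀ)).trace := by
  rw [BE_apply]
  simp only [hU, hW, re_conj hg]
  simp [vec_re, vec_imI, vec_imJ, vec_imK, Fin.sum_univ_three, Matrix.mul_apply,
    Matrix.trace_fin_three]
  ring

theorem BE_lin (a b : ℝ) (C C' : Matrix (Fin 3) (Fin 3) ℝ) (X Y : End) :
    BE (a • C + b • C') X Y = a * BE C X Y + b * BE C' X Y := by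
  simp only [BE_apply, Matrix.add_apply, Matrix.smul_apply, smul_eq_mul, Finset.mul_sum,
    ← Finset.sum_add_distrib]
  exact Finset.sum_congr rfl fun s _ => Finset.sum_congr rfl fun t _ => by ring

theorem opS_symm (X : Matrix (Fin 3) (Fin 3) ℝ) : (opS X).IsSymm := by
  rw [opS, Matrix.IsSymm, Matrix.transpose_add, Matrix.transpose_smul, Matrix.transpose_smul,
    C1_symm.eq, C2_symm.eq]

theorem opS_smul (a : ℝ) (X : Matrix (Fin 3) (Fin 3) ℝ) : opS (a • X) = a • opS X := by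
  simp only [opS, Matrix.mul_smul, Matrix.trace_smul, smul_add, smul_smul, smul_eq_mul]

theorem opS_sub (X Y : Matrix (Fin 3) (Fin 3) ℝ) : opS (X - Y) = opS X - opS Y := by
  simp only [opS, Matrix.mul_sub, Matrix.trace_sub, sub_smul]
  abel

theorem opS_one : opS 1 = 0 := by
  have h1 : C1.trace = 0 := by simp [C1, Matrix.trace_fin_three]
  have h2 : C2.trace = 0 := by simp [C2, Matrix.trace_fin_three]; norm_num
  rw [opS, Matrix.mul_one, Matrix.mul_one, h1, h2]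
  simp

/-- a traceless symmetric matrix in coordinates -/
theorem coords {q : Matrix (Fin 3) (Fin 3) ℝ} (hq : q.IsSymm) (tq : q.trace = 0) :
    ∃ a b c d f : ℝ, q = !![a, b, c; b, d, f; c, f, -a - d] := by
  refine ⟨q 0 0, q 0 1, q 0 2, q 1 1, q 1 2, ?_⟩
  have h1 := hq.apply 0 1
  have h2 := hq.apply 0 2
  have h3 := hq.apply 1 2
  rw [Matrix.trace_fin_three] at tq
  ext i j
  fin_cases i <;> fin_cases j <;> simp <;> linarith

theorem tr4 {q q' : Matrix (Fin 3) (Fin 3) ℝ} (hq : q.IsSymm) (tq : q.trace = 0)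
    (hq' : q'.IsSymm) (tq' : q'.trace = 0) :
    (q * q * (q * q')).trace = (1 / 2) * (q * q).trace * (q * q').trace := by
  obtain ⟨a, b, c, d, f, rfl⟩ := coords hq tq
  obtain ⟨a', b', c', d', f', rfl⟩ := coords hq' tq'
  simp [Matrix.trace_fin_three, Matrix.mul_apply, Fin.sum_univ_three]
  ring

theorem tr22 {q q' : Matrix (Fin 3) (Fin 3) ℝ} (hq : q.IsSymm) (tq : q.trace = 0)
    (hq' : q'.IsSymm) (tq' : q'.trace = 0) :
    4 * (q * q * (q' * q')).trace + 2 * (q * q' * (q * q')).trace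
      = (q * q).trace * (q' * q').trace + 2 * (q * q').trace ^ 2 := by
  obtain ⟨a, b, c, d, f, rfl⟩ := coords hq tq
  obtain ⟨a', b', c', d', f', rfl⟩ := coords hq' tq'
  simp [Matrix.trace_fin_three, Matrix.mul_apply, Fin.sum_univ_three]
  ring

theorem trace_sq_pos {q : Matrix (Fin 3) (Fin 3) ℝ} (hq : q.IsSymm) (h0 : q ≠ 0) :
    0 < (q * q).trace := by
  have h1 := hq.apply 0 1
  have h2 := hq.apply 0 2
  have h3 := hq.apply 1 2
  have e1 : (q * q).trace = q 0 0 ^ 2 + q 1 1 ^ 2 + q 2 2 ^ 2 + 2 * q 0 1 ^ 2 + 2 * q 0 2 ^ 2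
      + 2 * q 1 2 ^ 2 := by
    simp only [Matrix.trace_fin_three, Matrix.mul_apply, Fin.sum_univ_three, h1, h2, h3]
    ring
  rw [e1]
  by_contra hcon
  apply h0
  have k1 : q 0 0 = 0 := by
    apply pow_eq_zero_iff (two_ne_zero) |>.1
    nlinarith [sq_nonneg (q 0 0), sq_nonneg (q 1 1), sq_nonneg (q 2 2), sq_nonneg (q 0 1),
      sq_nonneg (q 0 2), sq_nonneg (q 1 2)]
  have k2 : q 1 1 = 0 := by
    apply pow_eq_zero_iff (two_ne_zero) |>.1
    nlinarith [sq_nonneg (q 0 0), sq_nonneg (q 1 1), sq_nonneg (q 2 2), sq_nonneg (q 0 1),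
      sq_nonneg (q 0 2), sq_nonneg (q 1 2)]
  have k3 : q 2 2 = 0 := by
    apply pow_eq_zero_iff (two_ne_zero) |>.1
    nlinarith [sq_nonneg (q 0 0), sq_nonneg (q 1 1), sq_nonneg (q 2 2), sq_nonneg (q 0 1),
      sq_nonneg (q 0 2), sq_nonneg (q 1 2)]
  have k4 : q 0 1 = 0 := by
    apply pow_eq_zero_iff (two_ne_zero) |>.1
    nlinarith [sq_nonneg (q 0 0), sq_nonneg (q 1 1), sq_nonneg (q 2 2), sq_nonneg (q 0 1),
      sq_nonneg (q 0 2), sq_nonneg (q 1 2)]
  have k5 : q 0 2 = 0 := by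
    apply pow_eq_zero_iff (two_ne_zero) |>.1
    nlinarith [sq_nonneg (q 0 0), sq_nonneg (q 1 1), sq_nonneg (q 2 2), sq_nonneg (q 0 1),
      sq_nonneg (q 0 2), sq_nonneg (q 1 2)]
  have k6 : q 1 2 = 0 := by
    apply pow_eq_zero_iff (two_ne_zero) |>.1
    nlinarith [sq_nonneg (q 0 0), sq_nonneg (q 1 1), sq_nonneg (q 2 2), sq_nonneg (q 0 1),
      sq_nonneg (q 0 2), sq_nonneg (q 1 2)]
  ext i j
  fin_cases i <;> fin_cases j <;> simp [k1, k2, k3, k4, k5, k6, h1, h2, h3]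

theorem no_pair_normalised {q q' : Matrix (Fin 3) (Fin 3) ℝ} (hq : q.IsSymm) (hq' : q'.IsSymm)
    (tq : q.trace = 0) (tq' : q'.trace = 0) (hqq : Commute q q')
    (nq : (q * q).trace = 1) (nq' : (q' * q').trace = 1) (nqq : (q * q').trace = 0)
    (c1 : Commute (opS (q * q)) (q * q)) (c2 : Commute (opS (q * q)) (q * q'))
    (c3 : Commute (opS (q * q')) (q * q)) : False := by
  have h6 : Real.sqrt 6 * Real.sqrt 6 = 6 := Real.mul_self_sqrt (by norm_num)
  have t1 := tr4 hq tq hq tq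
  have t2 := tr4 hq tq hq' tq'
  have t3 := tr22 hq tq hq' tq'
  rw [nq] at t1 t2 t3
  rw [nq', nqq] at t3
  rw [nqq] at t2
  have t4 : (q * q' * (q * q')).trace = (q * q * (q' * q')).trace := by
    congr 1
    rw [mul_assoc, ← mul_assoc q', ← hqq.eq, mul_assoc, mul_assoc]
  have hsq : (q * q).IsSymm := by rw [Matrix.IsSymm, Matrix.transpose_mul, hq.eq]
  have hsqq : (q * q').IsSymm := by
    rw [Matrix.IsSymm, Matrix.transpose_mul, hq.eq, hq'.eq, hqq.eq]
  have comm1 : Commute (q * q) (q * q') :=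
    ((Commute.refl q).mul_left (Commute.refl q)).mul_right (hqq.mul_left hqq)
  refine no_pair (Real.sqrt 6 • (q * q - (1 / 3 : ℝ) • 1)) (Real.sqrt 6 • (q * q'))
    ?_ ?_ ?_ ?_ ?_ ?_ ?_ ?_ ?_ ?_ ?_
  · rw [Matrix.IsSymm, Matrix.transpose_smul, Matrix.transpose_sub, hsq.eq,
      Matrix.transpose_smul, Matrix.transpose_one]
  · rw [Matrix.IsSymm, Matrix.transpose_smul, hsqq.eq]
  · rw [Matrix.trace_smul, Matrix.trace_sub, nq, Matrix.trace_smul, Matrix.trace_one]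
    simp
  · rw [Matrix.trace_smul, nqq]; simp
  · have : Commute (q * q - (1 / 3 : ℝ) • (1 : Matrix (Fin 3) (Fin 3) ℝ)) (q * q') :=
      comm1.sub_left ((Commute.one_left _).smul_left _)
    exact ((this.smul_left _).smul_right _).eq
  · rw [Matrix.smul_mul, Matrix.mul_smul, smul_smul, h6, Matrix.trace_smul]
    have : (q * q - (1 / 3 : ℝ) • (1 : Matrix (Fin 3) (Fin 3) ℝ)) * (q * q - (1 / 3 : ℝ) • 1)
        = q * q * (q * q) - (2 / 3 : ℝ) • (q * q) + (1 / 9 : ℝ) • 1 := by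
      simp only [sub_mul, mul_sub, Matrix.smul_mul, Matrix.mul_smul, one_mul, mul_one, smul_smul]
      module
    rw [this, Matrix.trace_add, Matrix.trace_sub, Matrix.trace_smul, Matrix.trace_smul,
      t1, nq, Matrix.trace_one]
    simp
    norm_num
  · rw [Matrix.smul_mul, Matrix.mul_smul, smul_smul, h6, Matrix.trace_smul, t4]
    rw [t4] at t3
    simp only [smul_eq_mul]
    linarith
  · rw [Matrix.smul_mul, Matrix.mul_smul, smul_smul, h6, Matrix.trace_smul]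
    have : (q * q - (1 / 3 : ℝ) • (1 : Matrix (Fin 3) (Fin 3) ℝ)) * (q * q')
        = q * q * (q * q') - (1 / 3 : ℝ) • (q * q') := by
      simp only [sub_mul, Matrix.smul_mul, one_mul]
    rw [this, Matrix.trace_sub, t2, Matrix.trace_smul, nqq]
    simp
  · rw [opS_smul, opS_sub, opS_smul (1 / 3), opS_one, smul_zero, sub_zero]
    have : Commute (q * q - (1 / 3 : ℝ) • (1 : Matrix (Fin 3) (Fin 3) ℝ)) (opS (q * q)) :=
      c1.symm.sub_left ((Commute.one_left _).smul_left _)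
    exact ((this.smul_left _).smul_right _).eq
  · rw [opS_smul, opS_sub, opS_smul (1 / 3), opS_one, smul_zero, sub_zero]
    exact ((c2.symm.smul_left _).smul_right _).eq
  · rw [opS_smul]
    have : Commute (q * q - (1 / 3 : ℝ) • (1 : Matrix (Fin 3) (Fin 3) ℝ)) (opS (q * q')) :=
      c3.symm.sub_left ((Commute.one_left _).smul_left _)
    exact ((this.smul_left _).smul_right _).eq

theorem no_pair_general {q q' : Matrix (Fin 3) (Fin 3) ℝ} (hq : q.IsSymm) (hq' : q'.IsSymm)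
    (tq : q.trace = 0) (tq' : q'.trace = 0) (hqq : Commute q q') (h0 : q ≠ 0)
    (hli : ∀ c : ℝ, q' - c • q ≠ 0)
    (c1 : Commute (opS (q * q)) (q * q)) (c2 : Commute (opS (q * q)) (q * q'))
    (c3 : Commute (opS (q * q')) (q * q)) : False := by
  have hN1 := trace_sq_pos hq h0
  set N1 := (q * q).trace with hN1def
  set c := (q * q').trace / N1 with hc
  have hs : (q' - c • q).IsSymm := by
    rw [Matrix.IsSymm, Matrix.transpose_sub, Matrix.transpose_smul, hq.eq, hq'.eq]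
  have hN2 := trace_sq_pos hs (hli c)
  set q'' := q' - c • q with hq''
  set N2 := (q'' * q'').trace with hN2def
  have e1 : (Real.sqrt N1)⁻¹ * (Real.sqrt N1)⁻¹ = N1⁻¹ := by
    rw [← mul_inv, Real.mul_self_sqrt hN1.le]
  have e2 : (Real.sqrt N2)⁻¹ * (Real.sqrt N2)⁻¹ = N2⁻¹ := by
    rw [← mul_inv, Real.mul_self_sqrt hN2.le]
  have hcomm : Commute q q'' := hqq.sub_right ((Commute.refl q).smul_right _)
  have hqq'' : q * q'' = q * q' - c • (q * q) := by
    rw [hq'', Matrix.mul_sub, Matrix.mul_smul]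
  refine no_pair_normalised (q := (Real.sqrt N1)⁻¹ • q) (q' := (Real.sqrt N2)⁻¹ • q'')
    ?_ ?_ ?_ ?_ ?_ ?_ ?_ ?_ ?_ ?_ ?_
  · rw [Matrix.IsSymm, Matrix.transpose_smul, hq.eq]
  · rw [Matrix.IsSymm, Matrix.transpose_smul, hs.eq]
  · rw [Matrix.trace_smul, tq, smul_zero]
  · rw [Matrix.trace_smul, hq'', Matrix.trace_sub, Matrix.trace_smul, tq, tq']; simp
  · exact (hcomm.smul_left _).smul_right _
  · rw [Matrix.smul_mul, Matrix.mul_smul, smul_smul, e1, Matrix.trace_smul, ← hN1def,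
      smul_eq_mul, inv_mul_cancel₀ hN1.ne']
  · rw [Matrix.smul_mul, Matrix.mul_smul, smul_smul, e2, Matrix.trace_smul, ← hN2def,
      smul_eq_mul, inv_mul_cancel₀ hN2.ne']
  · rw [Matrix.smul_mul, Matrix.mul_smul, smul_smul, Matrix.trace_smul, hqq'',
      Matrix.trace_sub, Matrix.trace_smul, ← hN1def, smul_eq_mul, smul_eq_mul, hc,
      div_mul_cancel₀ _ hN1.ne']
    simp
  · rw [Matrix.smul_mul, Matrix.mul_smul, smul_smul, e1, opS_smul]
    exact (c1.smul_left _).smul_right _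
  · rw [Matrix.smul_mul, Matrix.mul_smul, smul_smul, e1, opS_smul, Matrix.smul_mul,
      Matrix.mul_smul, smul_smul, hqq'']
    exact ((c2.sub_right (c1.smul_right _)).smul_right _).smul_left _
  · rw [Matrix.smul_mul, Matrix.mul_smul, smul_smul, Matrix.smul_mul, Matrix.mul_smul, smul_smul,
      e1, opS_smul, hqq'', opS_sub, opS_smul c]
    exact ((c3.sub_left (c1.smul_left _)).smul_left _).smul_right _

end G2f

open G2f

theorem phi_data {P : End →L[ℝ] m} {Ph Pk Pp : End →L[ℝ] End}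
    (hS : SymData (𝔸 := End) sh sk sp QQ Ph Pk Pp) (hP : ∀ X, (P X : End) = Pk X + Pp X) :
    PhiData (𝔸 := End) sh m P Pk Pp phi := (qData hS hP).phiData

theorem phi_Ad : ∀ k ∈ H, ∀ u v : m, (v : End) = Adj (𝔸 := End) k u → phi v = phi u :=
  phi_Ad'

end G2

end Pool.Agent.Helper93.Fin
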