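import Pool.Agent.helper77.FinG2f
import Pool.Agent.helper86.FinG2n

/-!
# MP_f09395 (helper93): Module G2f, the nondegeneracy condition `n2`
-/

noncomputable section

namespace Pool.Agent.Helper93.Fin

open scoped ContDiff Quaternion Matrix

namespace G2

open G2f

namespace G2f

theorem symm_of_mul {M X : Matrix (Fin 3) (Fin 3) ℝ} (hM : M.IsSymm) (hX : X.IsSymm)
    (h : (M * X).IsSymm) : Commute M X := by
  have := h.eq
  rw [Matrix.transpose_mul, hM.eq, hX.eq] at this
  exact this.symm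

theorem kel_mem (i : Fin 3) : kel (e i) ∈ sk := (mem_sk _).2 ⟨e i, e_re i, rfl⟩

theorem hel_mem {g : ℍ[ℝ]} (hg : ‖g‖ = 1) (i : Fin 3) : hel (g * e i * star g) ∈ sh := by
  refine (mem_sh _).2 ⟨_, ?_, rfl⟩
  have h1 : star g * g = 1 := by
    rw [Quaternion.star_mul_self, Quaternion.normSq_eq_norm_mul_self, hg]; simp
  rw [mul_assoc, re_mul_comm', mul_assoc, h1, mul_one, e_re]

end G2f

theorem n2 {P : End →L[ℝ] m} {Ph Pk Pp : End →L[ℝ] End}
    (hS : SymData (𝔸 := End) sh sk sp QQ Ph Pk Pp) (hP : ∀ X, (P X : End) = Pk X + Pp X) :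
    N2Prop (𝔸 := End) sh sk sp m P phi := by
  rintro u v hu hv hli huv ⟨c1, c2, c3⟩
  have D := qData hS hP
  have hu0 : u ≠ 0 := hli.ne_zero 0
  obtain ⟨Pu, hPu, hu'⟩ := (mem_sp _).1 hu
  obtain ⟨Pv, hPv, hv'⟩ := (mem_sp _).1 hv
  have hli' : LinearIndependent ℝ ![pel Pu, pel Pv] := by
    rw [LinearIndependent.pair_iff]
    intro a b hab
    refine LinearIndependent.pair_iff.1 hli a b (Subtype.ext ?_)
    rw [← hu', ← hv'] at hab
    exact hab
  have huv' : ⁅pel Pu, pel Pv⁆ = 0 := by rw [← hu', ← hv']; exact huv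
  obtain ⟨g, q, q', hg, hq, hq', tq, tq', hqq, hU, hV⟩ := normal_form hPu hPv hli' huv'
  have hUc : ∀ s, comp (u : End) s = g * vec q s := fun s => by rw [hu', comp_pel]; exact hU s
  have hVc : ∀ s, comp (v : End) s = g * vec q' s := fun s => by rw [hv', comp_pel]; exact hV s
  have b1 : BE C1 (u : End) (u : End) = (C1 * (q * q)).trace := by
    rw [BE_eq hg hUc hUc, C1_symm.eq, hq.eq]
  have b2 : BE C2 (u : End) (u : End) = (C2 * (q * q)).trace := by
    rw [BE_eq hg hUc hUc, C2_symm.eq, hq.eq]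
  have b3 : BE C1 (u : End) (v : End) = (C1 * (q * q')).trace := by
    rw [BE_eq hg hUc hVc, C1_symm.eq, hq'.eq]
  have b4 : BE C2 (u : End) (v : End) = (C2 * (q * q')).trace := by
    rw [BE_eq hg hUc hVc, C2_symm.eq, hq'.eq]
  have hM := opS_symm (q * q)
  have hM' := opS_symm (q * q')
  have hsq : (q * q).IsSymm := by rw [Matrix.IsSymm, Matrix.transpose_mul, hq.eq]
  have hsqq : (q * q').IsSymm := by
    rw [Matrix.IsSymm, Matrix.transpose_mul, hq.eq, hq'.eq, hqq]
  -- condition (c2) for `h`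
  have k1 : ∀ i, ax (q * opS (q * q) * q') i = 0 := by
    intro i
    have hmem : hel (g * e i * star g) ∈ sh ⊔ sk := Submodule.mem_sup_left (hel_mem hg i)
    have h0 := D.D1_zero hu0 hv huv hmem (c2 _ hmem)
    rw [b1, b2, ← BE_lin] at h0
    have h1 : BE (opS (q * q)) (u : End) ⁅hel (g * e i * star g), (v : End)⁆ = 0 := h0
    rw [BE_hel hg _ _ _ hUc hVc, hq.eq] at h1
    linarith
  -- condition (c2) for `k`
  have k2 : ∀ i, ax (opS (q * q) * (q * q')) i = 0 := by
    intro i
    have hmem : kel (e i) ∈ sh ⊔ sk := Submodule.mem_sup_right (kel_mem i)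
    have h0 := D.D1_zero hu0 hv huv hmem (c2 _ hmem)
    rw [b1, b2, ← BE_lin] at h0
    have h1 : BE (opS (q * q)) (u : End) ⁅kel (e i), (v : End)⁆ = 0 := h0
    rw [BE_kel hg _ _ _ hUc hv' hV, hq.eq, hq'.eq, hM.eq, k1 i] at h1
    linarith
  -- condition (c1)
  have k3 : ∀ i, ax (opS (q * q) * (q * q)) i = 0 := by
    intro i
    have hmem : kel (e i) ∈ sh ⊔ sk := Submodule.mem_sup_right (kel_mem i)
    have h0 := D.D1_zero hu0 hu (qbr_self _) hmem (c1 _ (kel_mem i))
    rw [b1, b2, ← BE_lin] at h0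
    have h1 : BE (opS (q * q)) (u : End) ⁅kel (e i), (u : End)⁆ = 0 := h0
    have h2 : (q * opS (q * q) * q).IsSymm := by
      rw [Matrix.IsSymm, Matrix.transpose_mul, Matrix.transpose_mul, hq.eq, hM.eq, mul_assoc]
    rw [BE_kel hg _ _ _ hUc hu' hU, hq.eq, hM.eq, ax_of_isSymm h2] at h1
    linarith
  -- condition (c3)
  have k4 : ∀ i, ax (opS (q * q') * (q * q)) i = 0 := by
    intro i
    have hmem : kel (e i) ∈ sh ⊔ sk := Submodule.mem_sup_right (kel_mem i)
    have h0 := D.D2_zero hu0 hu huv hmem (c1 _ (kel_mem i)) (c3 _ (kel_mem i))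
    rw [b1, b2, b3, b4, ← BE_lin, ← BE_lin] at h0
    have h1 : 2 * BE (opS (q * q')) (u : End) ⁅kel (e i), (u : End)⁆
        + BE (opS (q * q)) (v : End) ⁅kel (e i), (u : End)⁆ = 0 := h0
    have h2 : (q * opS (q * q') * q).IsSymm := by
      rw [Matrix.IsSymm, Matrix.transpose_mul, Matrix.transpose_mul, hq.eq, hM'.eq, mul_assoc]
    have h3 : (q' * opS (q * q) * q).IsSymm := by
      have := isSymm_of_ax k1
      rw [Matrix.IsSymm, Matrix.transpose_mul, Matrix.transpose_mul, hq.eq, hq'.eq, hM.eq] at this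
      rw [Matrix.IsSymm, Matrix.transpose_mul, Matrix.transpose_mul, hq.eq, hq'.eq, hM.eq,
        ← mul_assoc, ← this, mul_assoc]
    have h4 : (opS (q * q) * (q' * q)).IsSymm := by
      rw [← hqq]; exact isSymm_of_ax k2
    rw [BE_kel hg _ _ _ hUc hu' hU, BE_kel hg _ _ _ hVc hu' hU, hq.eq, hq'.eq, hM'.eq, hM.eq,
      ax_of_isSymm h2, ax_of_isSymm h3, ax_of_isSymm h4] at h1
    linarith
  have hq0 : q ≠ 0 := by
    intro h0
    apply hu0
    have : (u : End) = 0 := by
      by_contra hne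
      have h1 := hS.Qpos (u : End) (Submodule.mem_sup_right hu) hne
      have h2 : QQ (u : End) (u : End) = 0 := by
        rw [hu', QQ_pel]
        refine Finset.sum_eq_zero fun s _ => ?_
        rw [hU s, h0]
        simp
      rw [h2] at h1
      exact lt_irrefl _ h1
    exact Subtype.ext this
  refine no_pair_general hq hq' tq tq' hqq hq0 ?_ (symm_of_mul hM hsq (isSymm_of_ax k3))
    (symm_of_mul hM hsqq (isSymm_of_ax k2)) (symm_of_mul hM' hsq (isSymm_of_ax k4))
  intro c hc
  have hc' : q' = c • q := sub_eq_zero.1 hc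
  have hVU : ∀ s, Pv s = c • Pu s := by
    intro s
    rw [hU s, hV s, hc', ← mul_smul_comm, Finset.smul_sum]
    simp only [Matrix.smul_apply, smul_eq_mul, smul_smul]
  have hmem : (v : End) - c • (u : End) ∈ sp := sp.sub_mem hv (sp.smul_mem c hu)
  obtain ⟨P'', -, hP''⟩ := (mem_sp _).1 hmem
  have hz : ∀ s, P'' s = 0 := by
    intro s
    have h1 : comp ((v : End) - c • (u : End)) s = comp (v : End) s - c • comp (u : End) s := rfl
    rw [hP'', comp_pel, hu', hv', comp_pel, comp_pel, hVU, sub_self] at h1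
    exact h1
  have hzero : (v : End) - c • (u : End) = 0 := by
    by_contra hne
    have h1 := hS.Qpos _ (Submodule.mem_sup_right hmem) hne
    have h2 : QQ ((v : End) - c • (u : End)) ((v : End) - c • (u : End)) = 0 := by
      rw [hP'', QQ_pel]
      refine Finset.sum_eq_zero fun s _ => ?_
      rw [hz s]
      simp
    rw [h2] at h1
    exact lt_irrefl _ h1
  have h2 : v = c • u := Subtype.ext (sub_eq_zero.1 hzero)
  have h3 := LinearIndependent.pair_iff.1 hli (-c) 1 (by rw [h2, one_smul, neg_smul,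
    neg_add_cancel])
  exact one_ne_zero h3.2

end G2

end Pool.Agent.Helper93.Fin
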