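import Mathlib

set_option autoImplicit false

namespace Pool.Agent.helper77

open Set Topology Filter TopologicalSpace InnerProductSpace

/-- A separable Hilbert space of infinite dimension has a Hilbert basis indexed by the natural
numbers. -/
theorem exists_hilbertBasis_nat (H : Type*) [NormedAddCommGroup H] [InnerProductSpace ℂ H]
    [CompleteSpace H] [SeparableSpace H] (hH : ¬ FiniteDimensional ℂ H) :
    Nonempty (HilbertBasis ℕ ℂ H) := by
  classical
  obtain ⟨w, b, hb⟩ := exists_hilbertBasis ℂ H
  have ho : Orthonormal ℂ (fun x : w => (x : H)) := hb ▸ b.orthonormal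
  have hdist : ∀ x y : w, x ≠ y → Real.sqrt 2 ≤ dist (x : H) y := by
    intro x y hxy
    have h1 : ‖(x : H) - y‖ ^ 2 = 2 := by
      have := norm_sub_sq (𝕜 := ℂ) (x : H) (y : H)
      rw [this, ho.1 x, ho.1 y, ho.2 hxy]
      norm_num
    rw [dist_eq_norm]
    exact le_of_eq ((Real.sqrt_eq_iff_mul_self_eq (by norm_num) (norm_nonneg _)).2
      (by rw [← sq, h1]))
  have hc : Countable w := by
    have hdisj : (univ : Set w).PairwiseDisjoint fun x => Metric.ball (x : H) (Real.sqrt 2 / 2) := by
      intro x _ y _ hxy
      refine Metric.ball_disjoint_ball ?_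
      rw [add_halves]
      exact hdist x y hxy
    have := hdisj.countable_of_isOpen (fun x _ => Metric.isOpen_ball) fun x _ =>
      ⟨(x : H), Metric.mem_ball_self (by positivity)⟩
    exact countable_univ_iff.1 this
  have hi : Infinite w := by
    by_contra hfin
    rw [not_infinite_iff_finite] at hfin
    apply hH
    have h1 := b.dense_span
    have h2 : FiniteDimensional ℂ (Submodule.span ℂ (range b)) :=
      FiniteDimensional.span_of_finite ℂ (finite_range _)
    have h3 : (Submodule.span ℂ (range b)).topologicalClosure = Submodule.span ℂ (range b) :=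
      (Submodule.closed_of_finiteDimensional _).submodule_topologicalClosure_eq
    rw [h3] at h1
    rw [h1] at h2
    exact Module.Finite.equiv (Submodule.topEquiv : (⊤ : Submodule ℂ H) ≃ₗ[ℂ] H)
  obtain ⟨e⟩ := nonempty_equiv_of_countable (α := ℕ) (β := w)
  refine ⟨HilbertBasis.mk (v := fun n => b (e n)) (b.orthonormal.comp _ e.injective) ?_⟩
  have h1 : range (fun n => b (e n)) = range b := e.surjective.range_comp b
  rw [h1, b.dense_span]

end Pool.Agent.helper77
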