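import Mathlib

/-!
# The parameter space of separable C*-algebras and the maximal tensor product

* `wotMeasurableSpace` is the Borel structure of the weak operator topology.
* `Gam H` is the space of sequences of bounded operators, each factor carrying the sigma-algebra
  generated by the weak operator topology.
* `cstar γ` is the C*-algebra generated by the sequence `γ`.
* `IsCStarNorm p` says that `p` is a C*-norm.
* `IsMaxTensorProduct A B D` says that `D` is the completion of the algebraic tensor product
  of `A` and `B` in the largest C*-norm.
-/

set_option autoImplicit false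

namespace Pool.Agent.helper77

open Set Topology TopologicalSpace
open scoped TensorProduct

/-- The bounded operators carry the Borel structure generated by the weakly (weak operator
topology) open sets. -/
noncomputable instance wotMeasurableSpace {H : Type*} [NormedAddCommGroup H]
    [InnerProductSpace ℂ H] [CompleteSpace H] : MeasurableSpace (H →WOT[ℂ] H) := borel _

instance wotBorelSpace {H : Type*} [NormedAddCommGroup H] [InnerProductSpace ℂ H]
    [CompleteSpace H] : BorelSpace (H →WOT[ℂ] H) := ⟨rfl⟩

/-- Sequences of bounded operators on `H`; the space of bounded operators carries the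
Borel structure of the weak operator topology and `Gam H` the product Borel structure. -/
abbrev Gam (H : Type*) [NormedAddCommGroup H] [InnerProductSpace ℂ H] [CompleteSpace H] :=
  ℕ → (H →WOT[ℂ] H)

variable {H : Type*} [NormedAddCommGroup H] [InnerProductSpace ℂ H] [CompleteSpace H]

/-- The C*-algebra generated by the operators `γ n`: the norm closure of the (non-unital)
star-subalgebra generated by them. -/
noncomputable def cstar (γ : Gam H) : NonUnitalStarSubalgebra ℂ (H →L[ℂ] H) :=
  (NonUnitalStarAlgebra.adjoin ℂ (range fun n => (γ n).toCLM)).topologicalClosure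

instance isClosed_cstar (γ : Gam H) : IsClosed (cstar γ : Set (H →L[ℂ] H)) :=
  NonUnitalStarSubalgebra.isClosed_topologicalClosure _

/-- `p` is a C*-norm on the complex star-algebra `T`. -/
structure IsCStarNorm {T : Type*} [NonUnitalRing T] [StarRing T] [Module ℂ T] (p : T → ℝ) :
    Prop where
  add_le : ∀ x y, p (x + y) ≤ p x + p y
  smul_eq : ∀ (c : ℂ) x, p (c • x) = ‖c‖ * p x
  mul_le : ∀ x y, p (x * y) ≤ p x * p y
  star_mul_self_eq : ∀ x, p (star x * x) = p x ^ 2
  eq_zero : ∀ x, p x = 0 → x = 0

/-- `D` is the maximal tensor product of `A` and `B`: there is a star-homomorphism from the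
algebraic tensor product onto a dense subalgebra of `D` such that the norm of `D` restricts to
the largest C*-norm of the algebraic tensor product. -/
def IsMaxTensorProduct (A B D : Type*) [NonUnitalCStarAlgebra A] [NonUnitalCStarAlgebra B]
    [NonUnitalCStarAlgebra D] : Prop :=
  ∃ ι : (A ⊗[ℂ] B) →⋆ₙₐ[ℂ] D, DenseRange ι ∧ IsCStarNorm (fun x => ‖ι x‖) ∧
    ∀ p : A ⊗[ℂ] B → ℝ, IsCStarNorm p → ∀ x, p x ≤ ‖ι x‖

end Pool.Agent.helper77
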