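import Mathlib

set_option autoImplicit false

namespace Pool.Agent.helper77

open Set Topology Filter TopologicalSpace InnerProductSpace
open scoped ComplexOrder

section Comb

variable {Ω : Type*} [MeasurableSpace Ω] {V : Ω → Type*} [∀ ω, NormedAddCommGroup (V ω)]
  [∀ ω, InnerProductSpace ℂ (V ω)]

/-- `x` is a combination of the first few vectors `v ω j` with coefficients that are measurable
in `ω` -/
def MeasComb (v : ∀ ω, ℕ → V ω) (x : ∀ ω, V ω) : Prop :=
  ∃ (n : ℕ) (d : ℕ → Ω → ℂ), (∀ j, Measurable (d j)) ∧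
    ∀ ω, x ω = ∑ j ∈ Finset.range n, d j ω • v ω j

lemma MeasComb.base (v : ∀ ω, ℕ → V ω) (i : ℕ) : MeasComb v fun ω => v ω i := by
  classical
  refine ⟨i + 1, fun j _ => if j = i then 1 else 0, fun j => measurable_const, fun ω => ?_⟩
  rw [Finset.sum_eq_single i]
  · simp
  · intro j _ hj
    simp [hj]
  · intro h
    simp at h

lemma MeasComb.enlarge {v : ∀ ω, ℕ → V ω} {x : ∀ ω, V ω} (h : MeasComb v x) :
    ∃ n₀ : ℕ, ∀ n, n₀ ≤ n → ∃ (d : ℕ → Ω → ℂ), (∀ j, Measurable (d j)) ∧
    ∀ ω, x ω = ∑ j ∈ Finset.range n, d j ω • v ω j := by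
  classical
  obtain ⟨n₀, d, hd, h⟩ := h
  refine ⟨n₀, fun n hn => ⟨fun j ω => if j < n₀ then d j ω else 0, fun j => ?_, fun ω => ?_⟩⟩
  · by_cases hj : j < n₀
    · simpa [hj] using hd j
    · simp [hj]
  · rw [h ω]
    rw [← Finset.sum_subset (Finset.range_mono hn)]
    · refine Finset.sum_congr rfl fun j hj => ?_
      simp only [if_pos (Finset.mem_range.1 hj)]
    · intro j _ hj
      rw [Finset.mem_range, not_lt] at hj
      simp only [if_neg (not_lt.2 hj), zero_smul]

lemma MeasComb.add {v : ∀ ω, ℕ → V ω} {x y : ∀ ω, V ω} (hx : MeasComb v x) (hy : MeasComb v y) :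
    MeasComb v fun ω => x ω + y ω := by
  obtain ⟨n, hn⟩ := hx.enlarge
  obtain ⟨m, hm⟩ := hy.enlarge
  obtain ⟨d, hd, hx'⟩ := hn (max n m) (le_max_left _ _)
  obtain ⟨e, he, hy'⟩ := hm (max n m) (le_max_right _ _)
  refine ⟨max n m, fun j ω => d j ω + e j ω, fun j => (hd j).add (he j), fun ω => ?_⟩
  simp only [add_smul, Finset.sum_add_distrib]
  rw [hx' ω, hy' ω]

lemma MeasComb.smul {v : ∀ ω, ℕ → V ω} {x : ∀ ω, V ω} (hx : MeasComb v x) {c : Ω → ℂ}
    (hc : Measurable c) : MeasComb v fun ω => c ω • x ω := by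
  obtain ⟨n, d, hd, hx⟩ := hx
  refine ⟨n, fun j ω => c ω * d j ω, fun j => hc.mul (hd j), fun ω => ?_⟩
  simp only [mul_smul]
  rw [hx ω, Finset.smul_sum]

lemma MeasComb.zero (v : ∀ ω, ℕ → V ω) : MeasComb v fun _ => 0 :=
  ⟨0, fun _ _ => 0, fun _ => measurable_const, fun ω => by simp⟩

lemma MeasComb.sub {v : ∀ ω, ℕ → V ω} {x y : ∀ ω, V ω} (hx : MeasComb v x) (hy : MeasComb v y) :
    MeasComb v fun ω => x ω - y ω := by
  have := hx.add (hy.smul (c := fun _ => -1) measurable_const)
  simpa [sub_eq_add_neg] using this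

lemma MeasComb.sum {v : ∀ ω, ℕ → V ω} {ι : Type*} (s : Finset ι) {x : ι → ∀ ω, V ω}
    (hx : ∀ i ∈ s, MeasComb v (x i)) : MeasComb v fun ω => ∑ i ∈ s, x i ω := by
  classical
  induction s using Finset.induction_on with
  | empty => simpa using MeasComb.zero v
  | insert a s ha ih =>
    simp only [Finset.sum_insert ha]
    exact (hx a (Finset.mem_insert_self _ _)).add
      (ih fun i hi => hx i (Finset.mem_insert_of_mem hi))

/-- a family of operators with measurable matrix entries has measurable matrix entries with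
respect to measurable combinations -/
lemma MeasComb.inner_op {v : ∀ ω, ℕ → V ω} (S : ∀ ω, V ω →L[ℂ] V ω)
    (hS : ∀ i j, Measurable fun ω => ⟪v ω i, S ω (v ω j)⟫_ℂ) {x y : ∀ ω, V ω}
    (hx : MeasComb v x) (hy : MeasComb v y) : Measurable fun ω => ⟪x ω, S ω (y ω)⟫_ℂ := by
  obtain ⟨n, d, hd, hx⟩ := hx
  obtain ⟨m, e, he, hy⟩ := hy
  have : (fun ω => ⟪x ω, S ω (y ω)⟫_ℂ) = fun ω => ∑ i ∈ Finset.range n, ∑ j ∈ Finset.range m,
      (starRingEnd ℂ) (d i ω) * (e j ω * ⟪v ω i, S ω (v ω j)⟫_ℂ) := by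
    ext ω
    rw [hx ω, hy ω, map_sum, sum_inner]
    refine Finset.sum_congr rfl fun i _ => ?_
    rw [inner_sum]
    refine Finset.sum_congr rfl fun j _ => ?_
    rw [map_smul, inner_smul_left, inner_smul_right]
  rw [this]
  refine Finset.measurable_fun_sum _ fun i _ => Finset.measurable_fun_sum _ fun j _ => ?_
  exact (Complex.continuous_conj.measurable.comp (hd i)).mul ((he j).mul (hS i j))

lemma MeasComb.inner {v : ∀ ω, ℕ → V ω} (hv : ∀ i j, Measurable fun ω => ⟪v ω i, v ω j⟫_ℂ)
    {x y : ∀ ω, V ω} (hx : MeasComb v x) (hy : MeasComb v y) :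
    Measurable fun ω => ⟪x ω, y ω⟫_ℂ :=
  MeasComb.inner_op (fun ω => ContinuousLinearMap.id ℂ (V ω)) hv hx hy

lemma MeasComb.gramSchmidt {v : ∀ ω, ℕ → V ω}
    (hv : ∀ i j, Measurable fun ω => ⟪v ω i, v ω j⟫_ℂ) (n : ℕ) :
    MeasComb v fun ω => gramSchmidt ℂ (v ω) n := by
  induction n using Nat.strong_induction_on with
  | _ n ih =>
    have e : (fun ω => InnerProductSpace.gramSchmidt ℂ (v ω) n) = fun ω => v ω n -
        ∑ i ∈ Finset.Iio n, (⟪InnerProductSpace.gramSchmidt ℂ (v ω) i, v ω n⟫_ℂ /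
          ⟪InnerProductSpace.gramSchmidt ℂ (v ω) i, InnerProductSpace.gramSchmidt ℂ (v ω) i⟫_ℂ) •
          InnerProductSpace.gramSchmidt ℂ (v ω) i := by
      ext ω
      rw [gramSchmidt_def]
      congr 1
      refine Finset.sum_congr rfl fun i _ => ?_
      rw [Submodule.starProjection_singleton, inner_self_eq_norm_sq_to_K]
      simp
    rw [e]
    refine (MeasComb.base v n).sub (MeasComb.sum _ fun i hi => ?_)
    have hi' := ih i (Finset.mem_Iio.1 hi)
    exact hi'.smul ((hi'.inner hv (MeasComb.base v n)).div (hi'.inner hv hi'))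

lemma MeasComb.gramSchmidtNormed {v : ∀ ω, ℕ → V ω}
    (hv : ∀ i j, Measurable fun ω => ⟪v ω i, v ω j⟫_ℂ) (n : ℕ) :
    MeasComb v fun ω => gramSchmidtNormed ℂ (v ω) n := by
  have h := MeasComb.gramSchmidt hv n
  have e : (fun ω => InnerProductSpace.gramSchmidtNormed ℂ (v ω) n) = fun ω =>
      (((Real.sqrt (⟪InnerProductSpace.gramSchmidt ℂ (v ω) n,
        InnerProductSpace.gramSchmidt ℂ (v ω) n⟫_ℂ).re : ℝ) : ℂ))⁻¹ •
        InnerProductSpace.gramSchmidt ℂ (v ω) n := by
    ext ω
    rw [InnerProductSpace.gramSchmidtNormed]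
    congr 3
    rw [norm_eq_sqrt_re_inner (𝕜 := ℂ)]
    rfl
  rw [e]
  refine h.smul (Measurable.inv ?_)
  exact Complex.measurable_ofReal.comp (Real.continuous_sqrt.measurable.comp
    (Complex.measurable_re.comp (h.inner hv h)))

end Comb

section Isom

variable {V : Type*} [NormedAddCommGroup V] [InnerProductSpace ℂ V] [CompleteSpace V]
variable {H : Type*} [NormedAddCommGroup H] [InnerProductSpace ℂ H] [CompleteSpace H]

/-- A Hilbert space spanned by a sequence embeds isometrically in a Hilbert space with a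
countable basis, with explicit adjoint on the basis. -/
theorem exists_isometry (b : HilbertBasis ℕ ℂ H) (v : ℕ → V)
    (hv : ⊤ ≤ (Submodule.span ℂ (range v)).topologicalClosure) :
    ∃ U : V →ₗᵢ[ℂ] H, ∀ n,
      (ContinuousLinearMap.adjoint U.toContinuousLinearMap) (b n) = gramSchmidtNormed ℂ v n := by
  classical
  set w : ℕ → V := gramSchmidtNormed ℂ v with hw
  have ho : Orthonormal ℂ (fun i : {i | w i ≠ 0} => w i) := gramSchmidtNormed_orthonormal' v
  have hspan : ⊤ ≤ (Submodule.span ℂ (range fun i : {i | w i ≠ 0} => w i)).topologicalClosure := by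
    refine hv.trans (Submodule.topologicalClosure_mono ?_)
    rw [← span_gramSchmidt ℂ v, ← span_gramSchmidtNormed_range, Submodule.span_le]
    rintro _ ⟨i, rfl⟩
    by_cases hi : w i = 0
    · change w i ∈ _
      rw [hi]
      exact Submodule.zero_mem _
    · exact Submodule.subset_span ⟨⟨i, hi⟩, rfl⟩
  let hb : HilbertBasis {i | w i ≠ 0} ℂ V := HilbertBasis.mk ho hspan
  have hbw : ∀ i, hb i = w i := fun i => by
    simp [hb]
  have hob : Orthonormal ℂ (fun i : {i | w i ≠ 0} => b i) :=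
    b.orthonormal.comp _ Subtype.val_injective
  let U : V →ₗᵢ[ℂ] H := hob.orthogonalFamily.linearIsometry.comp hb.repr.toLinearIsometry
  have hU : ∀ i : {i | w i ≠ 0}, U (w i) = b i := by
    intro i
    rw [← hbw i]
    change hob.orthogonalFamily.linearIsometry (hb.repr (hb i)) = b i
    rw [hb.repr_self, OrthogonalFamily.linearIsometry_apply_single]
    simp
  refine ⟨U, fun n => ?_⟩
  by_cases hn : w n = 0
  · rw [hn]
    refine hb.repr.injective ?_
    ext i
    rw [hb.repr_apply_apply, ContinuousLinearMap.adjoint_inner_right, map_zero, hbw]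
    change ⟪U (w i), b n⟫_ℂ = 0
    rw [hU i]
    refine b.orthonormal.2 fun h => ?_
    have := i.2
    rw [mem_setOf_eq, h] at this
    exact this hn
  · have h1 := hU ⟨n, hn⟩
    simp only at h1
    rw [← h1]
    have h2 : (ContinuousLinearMap.adjoint U.toContinuousLinearMap) (U.toContinuousLinearMap (w n))
        = w n := by
      refine ext_inner_left ℂ fun z => ?_
      rw [ContinuousLinearMap.adjoint_inner_right]
      exact U.inner_map_map z (w n)
    exact h2

lemma adjoint_isometry_apply (U : V →ₗᵢ[ℂ] H) (x : V) :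
    (ContinuousLinearMap.adjoint U.toContinuousLinearMap) (U x) = x := by
  refine ext_inner_left ℂ fun z => ?_
  rw [ContinuousLinearMap.adjoint_inner_right]
  exact U.inner_map_map z x

/-- conjugation by an isometry -/
noncomputable def conjU (U : V →ₗᵢ[ℂ] H) : (V →L[ℂ] V) →⋆ₙₐ[ℂ] (H →L[ℂ] H) where
  toFun S := U.toContinuousLinearMap ∘L S ∘L ContinuousLinearMap.adjoint U.toContinuousLinearMap
  map_smul' c S := by ext x; simp
  map_zero' := by ext x; simp
  map_add' S S' := by ext x; simp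
  map_mul' S S' := by
    ext x
    simp only [ContinuousLinearMap.comp_apply, ContinuousLinearMap.mul_apply]
    have := adjoint_isometry_apply U
      (S' ((ContinuousLinearMap.adjoint U.toContinuousLinearMap) x))
    rw [show (U.toContinuousLinearMap (S' ((ContinuousLinearMap.adjoint
      U.toContinuousLinearMap) x))) = U (S' ((ContinuousLinearMap.adjoint
      U.toContinuousLinearMap) x)) from rfl, this]
  map_star' S := by
    rw [ContinuousLinearMap.star_eq_adjoint, ContinuousLinearMap.star_eq_adjoint,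
      ContinuousLinearMap.adjoint_comp, ContinuousLinearMap.adjoint_comp,
      ContinuousLinearMap.adjoint_adjoint]
    rfl

lemma conjU_apply (U : V →ₗᵢ[ℂ] H) (S : V →L[ℂ] V) (x : H) :
    conjU U S x = U (S ((ContinuousLinearMap.adjoint U.toContinuousLinearMap) x)) := rfl

lemma norm_conjU (U : V →ₗᵢ[ℂ] H) (S : V →L[ℂ] V) : ‖conjU U S‖ = ‖S‖ := by
  refine le_antisymm ?_ ?_
  · refine ContinuousLinearMap.opNorm_le_bound _ (norm_nonneg _) fun x => ?_
    rw [conjU_apply, U.norm_map]
    refine (S.le_opNorm _).trans ?_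
    gcongr
    refine (ContinuousLinearMap.le_opNorm _ _).trans ?_
    rw [ContinuousLinearMap.adjoint.norm_map]
    exact mul_le_of_le_one_left (norm_nonneg _) U.norm_toContinuousLinearMap_le
  · refine ContinuousLinearMap.opNorm_le_bound _ (norm_nonneg _) fun x => ?_
    have h : conjU U S (U x) = U (S x) := by
      rw [conjU_apply, adjoint_isometry_apply]
    rw [← U.norm_map (S x), ← h, ← U.norm_map x]
    exact ContinuousLinearMap.le_opNorm _ _

lemma inner_conjU (U : V →ₗᵢ[ℂ] H) (S : V →L[ℂ] V) (x y : H) :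
    ⟪x, conjU U S y⟫_ℂ = ⟪(ContinuousLinearMap.adjoint U.toContinuousLinearMap) x,
      S ((ContinuousLinearMap.adjoint U.toContinuousLinearMap) y)⟫_ℂ := by
  rw [ContinuousLinearMap.adjoint_inner_left]
  rfl

end Isom

end Pool.Agent.helper77
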