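import Mathlib
import Pool.Agent.helper77.Defs

set_option autoImplicit false

namespace Pool.Agent.helper77

open Set Topology Filter TopologicalSpace
open scoped InnerProductSpace ComplexInnerProductSpace

variable {H : Type*} [NormedAddCommGroup H] [InnerProductSpace ℂ H] [CompleteSpace H]

lemma measurable_inner_wot (x y : H) :
    Measurable (fun T : H →WOT[ℂ] H => ⟪x, T y⟫_ℂ) := by
  have h : Continuous (fun T : H →WOT[ℂ] H => ⟪x, T y⟫_ℂ) :=
    (ContinuousLinearMapWOT.continuous_iff (f := fun T : H →WOT[ℂ] H => T)).1 continuous_id y x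
  exact h.measurable

lemma norm_toCLM_le_iff (T : H →WOT[ℂ] H) {r : ℝ} (hr : 0 ≤ r) :
    ‖T.toCLM‖ ≤ r ↔ ∀ x y : H, ‖⟪x, T y⟫_ℂ‖ ≤ r * ‖x‖ * ‖y‖ := by
  constructor
  · intro h x y
    calc ‖⟪x, T y⟫_ℂ‖ ≤ ‖x‖ * ‖T.toCLM y‖ := norm_inner_le_norm x (T y)
      _ ≤ ‖x‖ * (r * ‖y‖) := by gcongr; exact T.toCLM.le_of_opNorm_le h y
      _ = r * ‖x‖ * ‖y‖ := by ring
  · intro h
    refine ContinuousLinearMap.opNorm_le_bound _ hr fun y => ?_
    have h1 := h (T y) y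
    have h2 : ‖⟪T y, T y⟫_ℂ‖ = ‖T y‖ * ‖T y‖ := by
      rw [inner_self_eq_norm_sq_to_K]; simp [sq]
    rw [h2] at h1
    rcases eq_or_lt_of_le (norm_nonneg (T y)) with h0 | h0
    · change ‖T y‖ ≤ _
      rw [← h0]; positivity
    · have : ‖T y‖ * ‖T y‖ ≤ ‖T y‖ * (r * ‖y‖) := by linarith
      exact le_of_mul_le_mul_left this h0

variable [SeparableSpace H]

lemma norm_toCLM_le_iff_dense (T : H →WOT[ℂ] H) {r : ℝ} (hr : 0 ≤ r) :
    ‖T.toCLM‖ ≤ r ↔ ∀ i j : ℕ,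
      ‖⟪denseSeq H i, T (denseSeq H j)⟫_ℂ‖ ≤ r * ‖denseSeq H i‖ * ‖denseSeq H j‖ := by
  rw [norm_toCLM_le_iff T hr]
  constructor
  · intro h i j
    exact h _ _
  · intro h x y
    have hd := denseRange_denseSeq H
    have hc : ∀ (z : H), Continuous (fun x : H => ⟪x, T z⟫_ℂ) := fun z => by fun_prop
    have hT : Continuous (fun z => T z) := T.toCLM.continuous
    have h1 : ∀ (x : H) (j : ℕ),
        ‖⟪x, T (denseSeq H j)⟫_ℂ‖ ≤ r * ‖x‖ * ‖denseSeq H j‖ := by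
      intro x j
      refine hd.induction_on (p := fun x => ‖⟪x, T (denseSeq H j)⟫_ℂ‖ ≤
        r * ‖x‖ * ‖denseSeq H j‖) x ?_ (fun i => h i j)
      exact isClosed_le (by fun_prop) (by fun_prop)
    refine hd.induction_on (p := fun y => ‖⟪x, T y⟫_ℂ‖ ≤ r * ‖x‖ * ‖y‖) y ?_ (fun j => h1 x j)
    exact isClosed_le (by fun_prop) (by fun_prop)

/-- matrix coefficients along a dense sequence -/
noncomputable def coef (T : H →WOT[ℂ] H) : ℕ × ℕ → ℂ :=
  fun p => ⟪denseSeq H p.1, T (denseSeq H p.2)⟫_ℂ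

lemma isInducing_coef (r : ℝ) :
    IsInducing (fun T : {T : H →WOT[ℂ] H // ‖T.toCLM‖ ≤ r} => coef T.1) := by
  rw [isInducing_iff_nhds]
  intro T
  apply le_antisymm
  · refine (Tendsto.le_comap ?_)
    have : Continuous (fun T : {T : H →WOT[ℂ] H // ‖T.toCLM‖ ≤ r} => coef T.1) := by
      refine continuous_pi fun p => ?_
      have h : Continuous (fun T : H →WOT[ℂ] H => ⟪denseSeq H p.1, T (denseSeq H p.2)⟫_ℂ) :=
        (ContinuousLinearMapWOT.continuous_iff (f := fun T : H →WOT[ℂ] H => T)).1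
          continuous_id _ _
      exact h.comp continuous_subtype_val
    exact this.continuousAt
  · rw [nhds_subtype_eq_comap, ← tendsto_iff_comap,
      ContinuousLinearMapWOT.tendsto_iff_forall_inner_apply_tendsto]
    intro x y
    have hr : 0 ≤ r := (norm_nonneg _).trans T.2
    rw [Metric.tendsto_nhds]
    intro ε hε
    -- approximate
    set δ : ℝ := ε / (4 * (r + 1) * (‖x‖ + ‖y‖ + 1)) with hδ
    have hpos : 0 < 4 * (r + 1) * (‖x‖ + ‖y‖ + 1) := by positivity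
    have hδpos : 0 < δ := by positivity
    have hd := denseRange_denseSeq H
    obtain ⟨i, hi⟩ := hd.exists_dist_lt y (lt_min hδpos one_pos)
    obtain ⟨j, hj⟩ := hd.exists_dist_lt x (lt_min hδpos one_pos)
    rw [lt_min_iff, dist_eq_norm] at hi hj
    have key : ∀ S : {T : H →WOT[ℂ] H // ‖T.toCLM‖ ≤ r},
        ‖⟪y, S.1 x⟫_ℂ - ⟪denseSeq H i, S.1 (denseSeq H j)⟫_ℂ‖ ≤ ε / 4 := by
      intro S
      have hS : ∀ z : H, ‖S.1 z‖ ≤ r * ‖z‖ := fun z => S.1.toCLM.le_of_opNorm_le S.2 z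
      have e1 : ⟪y, S.1 x⟫_ℂ - ⟪denseSeq H i, S.1 (denseSeq H j)⟫_ℂ =
          ⟪y - denseSeq H i, S.1 x⟫_ℂ + ⟪denseSeq H i, S.1 (x - denseSeq H j)⟫_ℂ := by
        rw [inner_sub_left]
        have : S.1 (x - denseSeq H j) = S.1 x - S.1 (denseSeq H j) := S.1.toCLM.map_sub _ _
        rw [this, inner_sub_right]
        ring
      rw [e1]
      have h1 : ‖⟪y - denseSeq H i, S.1 x⟫_ℂ‖ ≤ δ * (r * ‖x‖) := by
        refine (norm_inner_le_norm _ _).trans ?_
        exact mul_le_mul hi.1.le (hS x) (norm_nonneg _) hδpos.le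
      have hn : ‖denseSeq H i‖ ≤ ‖y‖ + 1 := by
        have := norm_sub_norm_le (denseSeq H i) y
        rw [norm_sub_rev] at this
        linarith [hi.2]
      have h2 : ‖⟪denseSeq H i, S.1 (x - denseSeq H j)⟫_ℂ‖ ≤ (‖y‖ + 1) * (r * δ) := by
        refine (norm_inner_le_norm _ _).trans ?_
        refine mul_le_mul hn ((hS _).trans ?_) (norm_nonneg _) (by positivity)
        exact mul_le_mul_of_nonneg_left hj.1.le hr
      calc _ ≤ δ * (r * ‖x‖) + (‖y‖ + 1) * (r * δ) := (norm_add_le _ _).trans (add_le_add h1 h2)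
        _ = δ * (r * (‖x‖ + ‖y‖ + 1)) := by ring
        _ ≤ δ * ((r + 1) * (‖x‖ + ‖y‖ + 1)) := by gcongr; linarith
        _ = ε / 4 := by rw [hδ]; field_simp
    have hev : ∀ᶠ S in comap (fun T : {T : H →WOT[ℂ] H // ‖T.toCLM‖ ≤ r} => coef T.1)
        (𝓝 (coef T.1)), dist (coef S.1 (i, j)) (coef T.1 (i, j)) < ε / 4 := by
      have : Tendsto (fun S : {T : H →WOT[ℂ] H // ‖T.toCLM‖ ≤ r} => coef S.1 (i, j))
          (comap (fun T : {T : H →WOT[ℂ] H // ‖T.toCLM‖ ≤ r} => coef T.1) (𝓝 (coef T.1)))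
          (𝓝 (coef T.1 (i, j))) :=
        ((continuous_apply (i, j)).tendsto (coef T.1)).comp tendsto_comap
      exact Metric.tendsto_nhds.1 this (ε / 4) (by positivity)
    filter_upwards [hev] with S hS
    have h1 := key S
    have h2 := key T
    rw [dist_eq_norm] at hS ⊢
    simp only [coef] at hS
    have e : ⟪y, S.1 x⟫_ℂ - ⟪y, T.1 x⟫_ℂ =
        (⟪y, S.1 x⟫_ℂ - ⟪denseSeq H i, S.1 (denseSeq H j)⟫_ℂ) +
        (⟪denseSeq H i, S.1 (denseSeq H j)⟫_ℂ - ⟪denseSeq H i, T.1 (denseSeq H j)⟫_ℂ) -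
        (⟪y, T.1 x⟫_ℂ - ⟪denseSeq H i, T.1 (denseSeq H j)⟫_ℂ) := by ring
    rw [e]
    refine lt_of_le_of_lt (norm_sub_le _ _) ?_
    have := norm_add_le (⟪y, S.1 x⟫_ℂ - ⟪denseSeq H i, S.1 (denseSeq H j)⟫_ℂ)
      (⟪denseSeq H i, S.1 (denseSeq H j)⟫_ℂ - ⟪denseSeq H i, T.1 (denseSeq H j)⟫_ℂ)
    linarith

/-- A map into `B(H)` is Borel as soon as its matrix coefficients along a dense sequence are. -/
lemma measurable_wot_of_dense {Ω : Type*} [MeasurableSpace Ω] (f : Ω → (H →WOT[ℂ] H))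
    (h : ∀ i j, Measurable fun ω => ⟪denseSeq H i, f ω (denseSeq H j)⟫_ℂ) : Measurable f := by
  have hN : ∀ N : ℕ, MeasurableSet {ω | ‖(f ω).toCLM‖ ≤ N} := by
    intro N
    have : {ω | ‖(f ω).toCLM‖ ≤ N} = ⋂ i : ℕ, ⋂ j : ℕ, {ω |
      ‖⟪denseSeq H i, f ω (denseSeq H j)⟫_ℂ‖ ≤ N * ‖denseSeq H i‖ * ‖denseSeq H j‖} := by
      ext ω
      simp only [mem_iInter]
      exact norm_toCLM_le_iff_dense (f ω) (Nat.cast_nonneg N)
    rw [this]
    exact MeasurableSet.iInter fun i => MeasurableSet.iInter fun j =>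
      measurableSet_le (h i j).norm measurable_const
  refine measurable_of_isOpen fun O hO => ?_
  have hunion : f ⁻¹' O = ⋃ N : ℕ, ({ω | ‖(f ω).toCLM‖ ≤ N} ∩ f ⁻¹' O) := by
    ext ω
    simp only [mem_iUnion, mem_inter_iff, mem_preimage]
    constructor
    · intro hω
      obtain ⟨N, hN⟩ := exists_nat_ge ‖(f ω).toCLM‖
      exact ⟨N, hN, hω⟩
    · rintro ⟨N, _, hω⟩
      exact hω
  rw [hunion]
  refine MeasurableSet.iUnion fun N => ?_
  have hO' : IsOpen ((Subtype.val : {T : H →WOT[ℂ] H // ‖T.toCLM‖ ≤ (N : ℝ)} → _) ⁻¹' O) :=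
    hO.preimage continuous_subtype_val
  rw [(isInducing_coef (H := H) (N : ℝ)).isOpen_iff] at hO'
  obtain ⟨V, hV, hVO⟩ := hO'
  have : ({ω | ‖(f ω).toCLM‖ ≤ N} ∩ f ⁻¹' O) =
      {ω | ‖(f ω).toCLM‖ ≤ N} ∩ (fun ω => coef (f ω)) ⁻¹' V := by
    ext ω
    simp only [mem_inter_iff, mem_preimage]
    refine and_congr_right fun hω => ?_
    have := congrArg (fun s => (⟨f ω, hω⟩ : {T : H →WOT[ℂ] H // ‖T.toCLM‖ ≤ (N : ℝ)}) ∈ s) hVO
    simp only [mem_preimage, eq_iff_iff] at this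
    exact this.symm
  rw [this]
  have hm : Measurable (fun ω => coef (f ω)) := by
    rw [measurable_pi_iff]
    rintro ⟨i, j⟩
    exact h i j
  exact (hN N).inter (hm hV.measurableSet)

omit [SeparableSpace H] in
/-- All matrix coefficients are measurable as soon as those along a Hilbert basis are. -/
lemma measurable_inner_of_basis {Ω : Type*} [MeasurableSpace Ω] (b : HilbertBasis ℕ ℂ H)
    (f : Ω → (H →WOT[ℂ] H)) (h : ∀ m n, Measurable fun ω => ⟪b m, f ω (b n)⟫_ℂ) (x y : H) :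
    Measurable fun ω => ⟪x, f ω y⟫_ℂ := by
  have h1 : ∀ n, Measurable fun ω => ⟪x, f ω (b n)⟫_ℂ := by
    intro n
    refine measurable_of_tendsto_metrizable (f := fun k ω => ∑ m ∈ Finset.range k,
      ⟪x, b m⟫_ℂ * ⟪b m, f ω (b n)⟫_ℂ) ?_ ?_
    · intro k
      exact Finset.measurable_fun_sum _ fun m _ => (h m n).const_mul _
    · rw [tendsto_pi_nhds]
      intro ω
      exact (b.hasSum_inner_mul_inner x (f ω (b n))).tendsto_sum_nat
  refine measurable_of_tendsto_metrizable (f := fun k ω => ∑ n ∈ Finset.range k,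
      ⟪b n, y⟫_ℂ * ⟪x, f ω (b n)⟫_ℂ) ?_ ?_
  · intro k
    exact Finset.measurable_fun_sum _ fun n _ => (h1 n).const_mul _
  · rw [tendsto_pi_nhds]
    intro ω
    have h2 := (b.hasSum_repr y)
    have h3 : HasSum (fun n => ⟪x, f ω (b.repr y n • b n)⟫_ℂ) ⟪x, f ω y⟫_ℂ :=
      h2.mapL ((innerSL ℂ x).comp (f ω).toCLM)
    have h4 := h3.tendsto_sum_nat
    refine h4.congr fun k => ?_
    refine Finset.sum_congr rfl fun n _ => ?_
    have : f ω (b.repr y n • b n) = b.repr y n • f ω (b n) := (f ω).toCLM.map_smul _ _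
    rw [this, inner_smul_right, b.repr_apply_apply]

/-- A map into `B(H)` is Borel as soon as its matrix coefficients for a Hilbert basis are. -/
lemma measurable_wot_of_basis {Ω : Type*} [MeasurableSpace Ω] (b : HilbertBasis ℕ ℂ H)
    (f : Ω → (H →WOT[ℂ] H)) (h : ∀ m n, Measurable fun ω => ⟪b m, f ω (b n)⟫_ℂ) :
    Measurable f :=
  measurable_wot_of_dense f fun _ _ => measurable_inner_of_basis b f h _ _

omit [SeparableSpace H] in
lemma measurable_norm_wot : Measurable (fun T : H →WOT[ℂ] H => ‖T.toCLM‖) := by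
  refine measurable_of_Iic fun r => ?_
  rcases lt_or_ge r 0 with hr | hr
  · have : (fun T : H →WOT[ℂ] H => ‖T.toCLM‖) ⁻¹' Iic r = ∅ := by
      ext T
      simp only [mem_preimage, mem_Iic, mem_empty_iff_false, iff_false, not_le]
      exact hr.trans_le (norm_nonneg _)
    rw [this]; exact MeasurableSet.empty
  · have : (fun T : H →WOT[ℂ] H => ‖T.toCLM‖) ⁻¹' Iic r =
        ⋂ x : H, ⋂ y : H, {T : H →WOT[ℂ] H | ‖⟪x, T y⟫_ℂ‖ ≤ r * ‖x‖ * ‖y‖} := by
      ext T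
      simp only [mem_preimage, mem_Iic, mem_iInter]
      exact norm_toCLM_le_iff T hr
    rw [this]
    refine IsClosed.measurableSet ?_
    refine isClosed_iInter fun x => isClosed_iInter fun y => ?_
    have h : Continuous (fun T : H →WOT[ℂ] H => ⟪x, T y⟫_ℂ) :=
      (ContinuousLinearMapWOT.continuous_iff (f := fun T : H →WOT[ℂ] H => T)).1 continuous_id y x
    exact isClosed_le h.norm continuous_const

end Pool.Agent.helper77
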