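import Mathlib
import Pool.Agent.helper77.Wot

set_option autoImplicit false

namespace Pool.Agent.helper77

open Set Topology Filter TopologicalSpace
open scoped InnerProductSpace ComplexInnerProductSpace

/-- Non-commutative star-polynomial expressions without constant term and with coefficients in
`ℚ(i)` in countably many variables. -/
inductive Tm
| var (n : ℕ)
| st (t : Tm)
| mul (s t : Tm)
| add (s t : Tm)
| smul (c : ℚ × ℚ) (t : Tm)
deriving Countable

/-- the complex number `p + q i` -/
noncomputable def qc (c : ℚ × ℚ) : ℂ := (c.1 : ℂ) + (c.2 : ℂ) * Complex.I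

/-- evaluation of an expression -/
noncomputable def Tm.eval {R : Type*} [NonUnitalRing R] [Star R] [Module ℂ R] (g : ℕ → R) :
    Tm → R
| .var n => g n
| .st t => star (t.eval g)
| .mul s t => s.eval g * t.eval g
| .add s t => s.eval g + t.eval g
| .smul c t => qc c • t.eval g

lemma exists_qc_near (z : ℂ) {ε : ℝ} (hε : 0 < ε) : ∃ c : ℚ × ℚ, ‖z - qc c‖ < ε := by
  obtain ⟨p, hp⟩ := Rat.denseRange_cast.exists_dist_lt z.re (half_pos hε)
  obtain ⟨q, hq⟩ := Rat.denseRange_cast.exists_dist_lt z.im (half_pos hε)
  refine ⟨(p, q), ?_⟩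
  have h1 : z - qc (p, q) = ((z.re - p : ℝ) : ℂ) + ((z.im - q : ℝ) : ℂ) * Complex.I := by
    conv_lhs => rw [← Complex.re_add_im z]
    simp only [qc]
    push_cast
    ring
  rw [h1]
  refine (norm_add_le _ _).trans_lt ?_
  rw [norm_mul, Complex.norm_I, mul_one, Complex.norm_real, Complex.norm_real]
  rw [Real.dist_eq] at hp hq
  simp only [Real.norm_eq_abs]
  linarith

section Dense

variable {R : Type*} [NonUnitalNormedRing R] [StarRing R] [CStarRing R] [NormedSpace ℂ R]
  [IsScalarTower ℂ R R] [SMulCommClass ℂ R R] [StarModule ℂ R]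

/-- The values of the expressions are dense in the closed star-algebra they generate. -/
lemma closure_range_eval (g : ℕ → R) :
    ((NonUnitalStarAlgebra.adjoin ℂ (range g)).topologicalClosure : Set R) ⊆
      closure (range fun t : Tm => t.eval g) := by
  have hstep : ((NonUnitalStarAlgebra.adjoin ℂ (range g) : NonUnitalStarSubalgebra ℂ R) : Set R) ⊆
      closure (range fun t : Tm => t.eval g) := by
    intro x hx
    induction hx using NonUnitalStarAlgebra.adjoin_induction with
    | mem x hx =>
      obtain ⟨n, rfl⟩ := hx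
      exact subset_closure ⟨.var n, rfl⟩
    | add x y _ _ hx hy =>
      exact map_mem_closure₂ continuous_add hx hy (by
        rintro _ ⟨s, rfl⟩ _ ⟨t, rfl⟩
        exact ⟨.add s t, rfl⟩)
    | zero => exact subset_closure ⟨.smul (0, 0) (.var 0), by simp [Tm.eval, qc]⟩
    | mul x y _ _ hx hy =>
      exact map_mem_closure₂ continuous_mul hx hy (by
        rintro _ ⟨s, rfl⟩ _ ⟨t, rfl⟩
        exact ⟨.mul s t, rfl⟩)
    | smul r x _ hx =>
      have hq : r ∈ closure (range qc) := by
        rw [Metric.mem_closure_iff]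
        intro ε hε
        obtain ⟨c, hc⟩ := exists_qc_near r hε
        exact ⟨qc c, ⟨c, rfl⟩, by rwa [dist_eq_norm]⟩
      exact map_mem_closure₂ (f := fun (r : ℂ) (x : R) => r • x) continuous_smul hq hx (by
        rintro _ ⟨c, rfl⟩ _ ⟨t, rfl⟩
        exact ⟨.smul c t, rfl⟩)
    | star x _ hx =>
      exact map_mem_closure continuous_star hx (by
        rintro _ ⟨t, rfl⟩
        exact ⟨.st t, rfl⟩)
  exact closure_minimal hstep isClosed_closure

end Dense

section Meas

variable {H : Type*} [NormedAddCommGroup H] [InnerProductSpace ℂ H] [CompleteSpace H]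
variable {Ω : Type*} [MeasurableSpace Ω]

lemma measurable_inner_eval (b : HilbertBasis ℕ ℂ H) (γ : Ω → ℕ → (H →WOT[ℂ] H))
    (hγ : ∀ n, Measurable fun ω => γ ω n) (t : Tm) (x y : H) :
    Measurable fun ω => ⟪x, (t.eval fun n => (γ ω n).toCLM) y⟫_ℂ := by
  induction t generalizing x y with
  | var n =>
    exact (measurable_inner_wot x y).comp (hγ n)
  | st t ih =>
    have : ∀ ω, ⟪x, ((Tm.st t).eval fun n => (γ ω n).toCLM) y⟫_ℂ =
        (starRingEnd ℂ) ⟪y, (t.eval fun n => (γ ω n).toCLM) x⟫_ℂ := by
      intro ω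
      simp only [Tm.eval]
      rw [ContinuousLinearMap.star_eq_adjoint, ContinuousLinearMap.adjoint_inner_right,
        inner_conj_symm]
    simp only [this]
    exact Complex.continuous_conj.measurable.comp (ih y x)
  | mul s t ihs iht =>
    refine measurable_of_tendsto_metrizable (f := fun k ω => ∑ m ∈ Finset.range k,
      ⟪x, (s.eval fun n => (γ ω n).toCLM) (b m)⟫_ℂ * ⟪b m, (t.eval fun n => (γ ω n).toCLM) y⟫_ℂ)
      ?_ ?_
    · intro k
      exact Finset.measurable_fun_sum _ fun m _ => (ihs _ _).mul (iht _ _)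
    · rw [tendsto_pi_nhds]
      intro ω
      have := (b.hasSum_inner_mul_inner
        ((ContinuousLinearMap.adjoint (s.eval fun n => (γ ω n).toCLM)) x)
        ((t.eval fun n => (γ ω n).toCLM) y)).tendsto_sum_nat
      simp only [ContinuousLinearMap.adjoint_inner_left] at this
      exact this
  | add s t ihs iht =>
    simp only [Tm.eval, ContinuousLinearMap.add_apply, inner_add_right]
    exact (ihs x y).add (iht x y)
  | smul c t ih =>
    simp only [Tm.eval, ContinuousLinearMap.smul_apply, inner_smul_right]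
    exact (ih x y).const_mul _

lemma measurable_norm_eval [SeparableSpace H] (b : HilbertBasis ℕ ℂ H)
    (γ : Ω → ℕ → (H →WOT[ℂ] H)) (hγ : ∀ n, Measurable fun ω => γ ω n) (t : Tm) :
    Measurable fun ω => ‖t.eval fun n => (γ ω n).toCLM‖ := by
  have h : Measurable fun ω => (ContinuousLinearMapWOT.ofCLM (t.eval fun n => (γ ω n).toCLM) :
      H →WOT[ℂ] H) :=
    measurable_wot_of_basis b _ fun m n => measurable_inner_eval b γ hγ t _ _
  exact measurable_norm_wot.comp h

end Meas

end Pool.Agent.helper77
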