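import Mathlib
import Pool.Agent.helper77.Terms

set_option autoImplicit false

namespace Pool.Agent.helper77

open Set Topology Filter TopologicalSpace
open scoped TensorProduct

section Ext

variable {X Z : Type*} [NormedAddCommGroup X] [NormedSpace ℂ X] [NormedAddCommGroup Z]
  [NormedSpace ℂ Z] [CompleteSpace Z]

/-- Extension of a bounded `ℚ(i)`-linear assignment on expressions to a bounded linear map. -/
lemma exists_extension (α : Tm → X) (hα : DenseRange α)
    (hadd : ∀ s t, α (.add s t) = α s + α t) (hsmul : ∀ c t, α (.smul c t) = qc c • α t)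
    (f : Tm → Z) (fadd : ∀ s t, f (.add s t) = f s + f t)
    (fsmul : ∀ c t, f (.smul c t) = qc c • f t) (C : ℝ) (hC : 0 ≤ C)
    (hf : ∀ t, ‖f t‖ ≤ C * ‖α t‖) :
    ∃ F : X →L[ℂ] Z, (∀ t, F (α t) = f t) ∧ ∀ x, ‖F x‖ ≤ C * ‖x‖ := by
  have hdiff : ∀ s t, ‖f s - f t‖ ≤ C * ‖α s - α t‖ := by
    intro s t
    have h1 : f (.add s (.smul (-1, 0) t)) = f s - f t := by
      rw [fadd, fsmul]; simp [qc, sub_eq_add_neg]
    have h2 : α (.add s (.smul (-1, 0) t)) = α s - α t := by
      rw [hadd, hsmul]; simp [qc, sub_eq_add_neg]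
    rw [← h1, ← h2]
    exact hf _
  have hex : ∀ x : X, ∃ z : Z, ∀ s, ‖z - f s‖ ≤ C * ‖x - α s‖ := by
    intro x
    have h1 : ∀ n : ℕ, ∃ t, dist x (α t) < 1 / ((n : ℝ) + 1) := fun n =>
      hα.exists_dist_lt x (by positivity)
    choose t ht using h1
    have htend : Tendsto (fun n => α (t n)) atTop (𝓝 x) := by
      rw [tendsto_iff_dist_tendsto_zero]
      refine squeeze_zero (fun _ => dist_nonneg) (fun n => ?_)
        tendsto_one_div_add_atTop_nhds_zero_nat
      rw [dist_comm]; exact (ht n).le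
    have hcau : CauchySeq (fun n => f (t n)) := by
      rw [Metric.cauchySeq_iff']
      intro ε hε
      have hc := (Metric.cauchySeq_iff'.1 htend.cauchySeq) (ε / (C + 1)) (by positivity)
      obtain ⟨N, hN⟩ := hc
      refine ⟨N, fun n hn => ?_⟩
      have := hN n hn
      rw [dist_eq_norm] at this ⊢
      calc ‖f (t n) - f (t N)‖ ≤ C * ‖α (t n) - α (t N)‖ := hdiff _ _
        _ ≤ (C + 1) * ‖α (t n) - α (t N)‖ := by gcongr; linarith
        _ < (C + 1) * (ε / (C + 1)) := by gcongr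
        _ = ε := by field_simp
    obtain ⟨z, hz⟩ := cauchySeq_tendsto_of_complete hcau
    refine ⟨z, fun s => ?_⟩
    have h3 : Tendsto (fun n => ‖f (t n) - f s‖) atTop (𝓝 ‖z - f s‖) :=
      (hz.sub_const _).norm
    have h4 : Tendsto (fun n => C * ‖α (t n) - α s‖) atTop (𝓝 (C * ‖x - α s‖)) :=
      ((htend.sub_const _).norm).const_mul _
    exact le_of_tendsto_of_tendsto' h3 h4 fun n => hdiff _ _
  choose F hF using hex
  have hFα : ∀ t, F (α t) = f t := by
    intro t
    have := hF (α t) t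
    rw [sub_self, norm_zero, mul_zero] at this
    exact sub_eq_zero.1 (norm_le_zero_iff.1 this)
  have hFadd : ∀ x y, F (x + y) = F x + F y := by
    intro x y
    rw [← sub_eq_zero, ← norm_le_zero_iff]
    refine le_of_forall_pos_le_add fun ε hε => ?_
    obtain ⟨s, hs⟩ := hα.exists_dist_lt x (show 0 < ε / (4 * (C + 1)) by positivity)
    obtain ⟨t, ht⟩ := hα.exists_dist_lt y (show 0 < ε / (4 * (C + 1)) by positivity)
    rw [dist_eq_norm] at hs ht
    have e : F (x + y) - (F x + F y) = (F (x + y) - f (.add s t)) - (F x - f s) - (F y - f t) := by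
      rw [fadd]; abel
    have h1 := hF (x + y) (.add s t)
    have h2 := hF x s
    have h3 := hF y t
    have h4 : ‖x + y - α (.add s t)‖ ≤ ‖x - α s‖ + ‖y - α t‖ := by
      rw [hadd]
      have : x + y - (α s + α t) = (x - α s) + (y - α t) := by abel
      rw [this]; exact norm_add_le _ _
    have hCC : C * (ε / (4 * (C + 1))) ≤ ε / 4 := by
      rw [mul_div_assoc', div_le_div_iff₀ (by positivity) (by positivity)]
      nlinarith
    rw [e]
    calc _ ≤ ‖F (x + y) - f (.add s t)‖ + ‖F x - f s‖ + ‖F y - f t‖ := by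
          refine (norm_sub_le _ _).trans ?_
          gcongr
          exact norm_sub_le _ _
      _ ≤ C * (‖x - α s‖ + ‖y - α t‖) + C * ‖x - α s‖ + C * ‖y - α t‖ := by
          gcongr
          exact h1.trans (by gcongr)
      _ ≤ C * (ε / (4 * (C + 1)) + ε / (4 * (C + 1))) + C * (ε / (4 * (C + 1))) +
            C * (ε / (4 * (C + 1))) := by gcongr
      _ ≤ 0 + ε := by linarith
  have hFsmul : ∀ (r : ℂ) x, F (r • x) = r • F x := by
    intro r x
    -- first rational scalars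
    have hrat : ∀ c x, F (qc c • x) = qc c • F x := by
      intro c x
      rw [← sub_eq_zero, ← norm_le_zero_iff]
      refine le_of_forall_pos_le_add fun ε hε => ?_
      obtain ⟨s, hs⟩ := hα.exists_dist_lt x
        (show 0 < ε / (2 * (C + 1) * (‖qc c‖ + 1)) by positivity)
      rw [dist_eq_norm] at hs
      have e : F (qc c • x) - qc c • F x =
          (F (qc c • x) - f (.smul c s)) - qc c • (F x - f s) := by
        rw [fsmul, smul_sub]; abel
      have h1 := hF (qc c • x) (.smul c s)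
      rw [hsmul, ← smul_sub, norm_smul] at h1
      have h2 := hF x s
      rw [e]
      calc _ ≤ ‖F (qc c • x) - f (.smul c s)‖ + ‖qc c • (F x - f s)‖ := norm_sub_le _ _
        _ ≤ C * (‖qc c‖ * ‖x - α s‖) + ‖qc c‖ * (C * ‖x - α s‖) := by
            rw [norm_smul]; gcongr
        _ = 2 * C * ‖qc c‖ * ‖x - α s‖ := by ring
        _ ≤ 2 * (C + 1) * (‖qc c‖ + 1) * (ε / (2 * (C + 1) * (‖qc c‖ + 1))) := by
            gcongr
            · linarith
            · linarith
        _ = 0 + ε := by field_simp; ring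
    have hFnorm : ∀ x, ‖F x‖ ≤ C * ‖x‖ := by
      intro x
      have h0 : f (.smul (0, 0) (.var 0)) = 0 := by rw [fsmul]; simp [qc]
      have h0' : α (.smul (0, 0) (.var 0)) = 0 := by rw [hsmul]; simp [qc]
      have := hF x (.smul (0, 0) (.var 0))
      rwa [h0, h0', sub_zero, sub_zero] at this
    rw [← sub_eq_zero, ← norm_le_zero_iff]
    refine le_of_forall_pos_le_add fun ε hε => ?_
    obtain ⟨c, hc⟩ := exists_qc_near r (show 0 < ε / (2 * (C + 1) * (‖x‖ + 1)) by positivity)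
    have hneg : ∀ x y, F (x - y) = F x - F y := by
      intro x y
      have := hFadd (x - y) y
      rw [sub_add_cancel] at this
      rw [this]; abel
    have e : F (r • x) - r • F x = F ((r - qc c) • x) - (r - qc c) • F x := by
      rw [sub_smul, hneg, hrat, sub_smul]; abel
    rw [e]
    calc _ ≤ ‖F ((r - qc c) • x)‖ + ‖(r - qc c) • F x‖ := norm_sub_le _ _
      _ ≤ C * (‖r - qc c‖ * ‖x‖) + ‖r - qc c‖ * (C * ‖x‖) := by
          refine add_le_add ?_ ?_
          · refine (hFnorm _).trans ?_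
            rw [norm_smul]
          · rw [norm_smul]; gcongr; exact hFnorm x
      _ = 2 * C * ‖x‖ * ‖r - qc c‖ := by ring
      _ ≤ 2 * (C + 1) * (‖x‖ + 1) * (ε / (2 * (C + 1) * (‖x‖ + 1))) := by
          gcongr
          · linarith
          · linarith
      _ = 0 + ε := by field_simp; ring
  have hFnorm : ∀ x, ‖F x‖ ≤ C * ‖x‖ := by
    intro x
    have h0 : f (.smul (0, 0) (.var 0)) = 0 := by rw [fsmul]; simp [qc]
    have h0' : α (.smul (0, 0) (.var 0)) = 0 := by rw [hsmul]; simp [qc]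
    have := hF x (.smul (0, 0) (.var 0))
    rwa [h0, h0', sub_zero, sub_zero] at this
  refine ⟨LinearMap.mkContinuous { toFun := F, map_add' := hFadd, map_smul' := hFsmul } C hFnorm,
    hFα, hFnorm⟩

end Ext

section Functional

variable {A B : Type*} [NonUnitalCStarAlgebra A] [NonUnitalCStarAlgebra B]

/-- The positive functionals on the algebraic tensor product that are subordinate to the
product of the norms. -/
structure IsState (Φ : A ⊗[ℂ] B →ₗ[ℂ] ℂ) : Prop where
  bound : ∀ a b, ‖Φ (a ⊗ₜ b)‖ ≤ ‖a‖ * ‖b‖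
  re_nonneg : ∀ y, 0 ≤ (Φ (star y * y)).re
  im_eq_zero : ∀ y, (Φ (star y * y)).im = 0

/-- the conditions on a function on pairs of expressions that characterise the restrictions of
states; `a` and `b` are the norm functions. -/
structure Compat (a b : Tm → ℝ) (φ : Tm × Tm → ℂ) : Prop where
  bound : ∀ s t, ‖φ (s, t)‖ ≤ |a s| * |b t|
  add_left : ∀ s s' t, φ (.add s s', t) = φ (s, t) + φ (s', t)
  add_right : ∀ s t t', φ (s, .add t t') = φ (s, t) + φ (s, t')
  smul_left : ∀ c s t, φ (.smul c s, t) = qc c * φ (s, t)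
  smul_right : ∀ c s t, φ (s, .smul c t) = qc c * φ (s, t)
  re_nonneg : ∀ (n : ℕ) (p : Fin n → Tm × Tm), 0 ≤
    (∑ i, ∑ j, φ (.mul (.st (p i).1) (p j).1, .mul (.st (p i).2) (p j).2)).re
  im_eq_zero : ∀ (n : ℕ) (p : Fin n → Tm × Tm),
    (∑ i, ∑ j, φ (.mul (.st (p i).1) (p j).1, .mul (.st (p i).2) (p j).2)).im = 0

lemma exists_fin_sum (x : A ⊗[ℂ] B) : ∃ (n : ℕ) (a : Fin n → A) (b : Fin n → B),
    x = ∑ i, a i ⊗ₜ b i := by
  induction x with
  | zero => exact ⟨0, Fin.elim0, Fin.elim0, by simp⟩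
  | tmul a b => exact ⟨1, fun _ => a, fun _ => b, by simp⟩
  | add x y hx hy =>
    obtain ⟨n, a, b, rfl⟩ := hx
    obtain ⟨m, a', b', rfl⟩ := hy
    refine ⟨n + m, Fin.append a a', Fin.append b b', ?_⟩
    rw [Fin.sum_univ_add]
    simp

lemma star_mul_self_sum {n : ℕ} (a : Fin n → A) (b : Fin n → B) :
    star (∑ i, a i ⊗ₜ[ℂ] b i) * (∑ i, a i ⊗ₜ b i) =
      ∑ i, ∑ j, (star (a i) * a j) ⊗ₜ (star (b i) * b j) := by
  rw [star_sum, Finset.sum_mul_sum]
  simp

lemma Compat.exists_functional (g : ℕ → A) (h : ℕ → B)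
    (hg : DenseRange fun t : Tm => t.eval g) (hh : DenseRange fun t : Tm => t.eval h)
    {φ : Tm × Tm → ℂ} (hφ : Compat (fun s => ‖s.eval g‖) (fun t => ‖t.eval h‖) φ) :
    ∃ Φ : A ⊗[ℂ] B →ₗ[ℂ] ℂ, IsState Φ ∧ ∀ s t, Φ (s.eval g ⊗ₜ t.eval h) = φ (s, t) := by
  have h1 : ∀ t, ∃ F : A →L[ℂ] ℂ, (∀ s : Tm, F (s.eval g) = φ (s, t)) ∧
      ∀ x, ‖F x‖ ≤ ‖t.eval h‖ * ‖x‖ := by
    intro t
    refine exists_extension (fun s : Tm => s.eval g) hg (fun _ _ => rfl) (fun _ _ => rfl)
      (fun s => φ (s, t)) (fun s s' => hφ.add_left s s' t) (fun c s => ?_) _ (norm_nonneg _) ?_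
    · rw [hφ.smul_left, smul_eq_mul]
    · intro s
      have := hφ.bound s t
      rw [abs_norm, abs_norm] at this
      linarith
  choose F hF hFb using h1
  have hopn : ∀ t, ‖F t‖ ≤ ‖t.eval h‖ := fun t =>
    ContinuousLinearMap.opNorm_le_bound _ (norm_nonneg _) (hFb t)
  have hext : ∀ (G G' : A →L[ℂ] ℂ), (∀ s : Tm, G (s.eval g) = G' (s.eval g)) → G = G' := by
    intro G G' hGG
    ext x
    exact hg.induction_on (p := fun x => G x = G' x) x (isClosed_eq G.continuous G'.continuous)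
      hGG
  obtain ⟨G, hG, hGb⟩ := exists_extension (Z := A →L[ℂ] ℂ) (fun t : Tm => t.eval h) hh
    (fun _ _ => rfl) (fun _ _ => rfl) F
    (fun t t' => hext _ _ fun s => by
      rw [hF, add_apply, hF, hF, hφ.add_right])
    (fun c t => hext _ _ fun s => by
      rw [hF, smul_apply, hF, hφ.smul_right, smul_eq_mul])
    1 zero_le_one (fun t => by rw [one_mul]; exact hopn t)
  -- the functional on the algebraic tensor product
  let Ψ : A →ₗ[ℂ] B →ₗ[ℂ] ℂ := LinearMap.mk₂ ℂ (fun a b => G b a)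
    (fun a a' b => by simp) (fun c a b => by simp) (fun a b b' => by simp) (fun c a b => by simp)
  let Φ : A ⊗[ℂ] B →ₗ[ℂ] ℂ := TensorProduct.lift Ψ
  have hΦ : ∀ a b, Φ (a ⊗ₜ b) = G b a := fun a b => by
    simp [Φ, Ψ]
  have hΦv : ∀ s t : Tm, Φ (s.eval g ⊗ₜ t.eval h) = φ (s, t) := by
    intro s t
    rw [hΦ, hG, hF]
  have hbound : ∀ a b, ‖Φ (a ⊗ₜ b)‖ ≤ ‖a‖ * ‖b‖ := by
    intro a b
    rw [hΦ]
    calc ‖G b a‖ ≤ ‖G b‖ * ‖a‖ := (G b).le_opNorm a
      _ ≤ (1 * ‖b‖) * ‖a‖ := by gcongr; exact hGb b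
      _ = ‖a‖ * ‖b‖ := by ring
  -- positivity by density
  have hcont : ∀ n : ℕ, Continuous fun p : (Fin n → A) × (Fin n → B) =>
      ∑ i, ∑ j, Φ ((star (p.1 i) * p.1 j) ⊗ₜ (star (p.2 i) * p.2 j)) := by
    intro n
    simp only [hΦ]
    fun_prop
  have hpos : ∀ (n : ℕ) (p : (Fin n → A) × (Fin n → B)),
      0 ≤ (∑ i, ∑ j, Φ ((star (p.1 i) * p.1 j) ⊗ₜ (star (p.2 i) * p.2 j))).re ∧
      (∑ i, ∑ j, Φ ((star (p.1 i) * p.1 j) ⊗ₜ (star (p.2 i) * p.2 j))).im = 0 := by
    intro n p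
    have hdense : DenseRange (fun q : (Fin n → Tm) × (Fin n → Tm) =>
        ((fun i => (q.1 i).eval g, fun i => (q.2 i).eval h) : (Fin n → A) × (Fin n → B))) := by
      have d1 : DenseRange (fun (q : Fin n → Tm) i => (q i).eval g) :=
        DenseRange.piMap fun _ => hg
      have d2 : DenseRange (fun (q : Fin n → Tm) i => (q i).eval h) :=
        DenseRange.piMap fun _ => hh
      exact d1.prodMap d2
    refine hdense.induction_on (p := fun p : (Fin n → A) × (Fin n → B) =>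
      0 ≤ (∑ i, ∑ j, Φ ((star (p.1 i) * p.1 j) ⊗ₜ (star (p.2 i) * p.2 j))).re ∧
      (∑ i, ∑ j, Φ ((star (p.1 i) * p.1 j) ⊗ₜ (star (p.2 i) * p.2 j))).im = 0) p ?_ ?_
    · exact (isClosed_le continuous_const (Complex.continuous_re.comp (hcont n))).inter
        (isClosed_eq (Complex.continuous_im.comp (hcont n)) continuous_const)
    · rintro ⟨q1, q2⟩
      have e : ∀ i j, Φ ((star ((q1 i).eval g) * (q1 j).eval g) ⊗ₜ
          (star ((q2 i).eval h) * (q2 j).eval h)) =
          φ (.mul (.st (q1 i)) (q1 j), .mul (.st (q2 i)) (q2 j)) := fun i j =>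
        hΦv (.mul (.st (q1 i)) (q1 j)) (.mul (.st (q2 i)) (q2 j))
      simp only [e]
      exact ⟨hφ.re_nonneg n fun i => (q1 i, q2 i), hφ.im_eq_zero n fun i => (q1 i, q2 i)⟩
  refine ⟨Φ, ⟨hbound, ?_, ?_⟩, hΦv⟩
  · intro y
    obtain ⟨n, a, b, rfl⟩ := exists_fin_sum y
    rw [star_mul_self_sum]
    simpa using (hpos n (a, b)).1
  · intro y
    obtain ⟨n, a, b, rfl⟩ := exists_fin_sum y
    rw [star_mul_self_sum]
    simpa using (hpos n (a, b)).2

lemma IsState.compat {Φ : A ⊗[ℂ] B →ₗ[ℂ] ℂ} (hΦ : IsState Φ) (g : ℕ → A) (h : ℕ → B) :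
    Compat (fun s => ‖s.eval g‖) (fun t => ‖t.eval h‖)
      (fun p => Φ (p.1.eval g ⊗ₜ p.2.eval h)) where
  bound s t := by simpa using hΦ.bound _ _
  add_left s s' t := by simp [Tm.eval, TensorProduct.add_tmul]
  add_right s t t' := by simp [Tm.eval, TensorProduct.tmul_add]
  smul_left c s t := by simp [Tm.eval, ← TensorProduct.smul_tmul']
  smul_right c s t := by simp [Tm.eval]
  re_nonneg n p := by
    have := hΦ.re_nonneg (∑ i, (p i).1.eval g ⊗ₜ (p i).2.eval h)
    rw [star_mul_self_sum] at this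
    simpa [Tm.eval] using this
  im_eq_zero n p := by
    have := hΦ.im_eq_zero (∑ i, (p i).1.eval g ⊗ₜ (p i).2.eval h)
    rw [star_mul_self_sum] at this
    simpa [Tm.eval] using this

end Functional

end Pool.Agent.helper77
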