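import Mathlib

set_option autoImplicit false

namespace Pool.Agent.helper77

open Set Topology Filter TopologicalSpace UniformSpace UniformSpace.Completion
open scoped InnerProductSpace ComplexInnerProductSpace

/-- The iteration lemma: log-convexity along doubling together with geometric growth. -/
lemma iter_bound (u : ℕ → ℝ) (hu : ∀ k, 0 ≤ u k) (hconv : ∀ k, u k ^ 2 ≤ u 0 * u (2 * k))
    (C M : ℝ) (hM : 0 ≤ M) (hb : ∀ n, u (2 ^ n) ≤ C * M ^ (2 ^ n)) : u 1 ≤ M * u 0 := by
  rcases eq_or_lt_of_le (hu 0) with h0 | h0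
  · have h1 := hconv 1
    rw [← h0, zero_mul] at h1
    have : u 1 = 0 := by
      have := pow_eq_zero_iff (n := 2) (by norm_num) |>.1 (le_antisymm h1 (sq_nonneg _))
      exact this
    rw [this, ← h0, mul_zero]
  rcases eq_or_lt_of_le hM with hM0 | hM0
  · have h1 := hb 0
    rw [← hM0] at h1
    simp at h1
    rw [← hM0, zero_mul]
    exact h1
  by_contra hcon
  push Not at hcon
  have key : ∀ n, u 1 ^ (2 ^ n) * u 0 ≤ u 0 ^ (2 ^ n) * u (2 ^ n) := by
    intro n
    induction n with
    | zero => simp [mul_comm]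
    | succ n ih =>
      have h1 := hconv (2 ^ n)
      have e : 2 * 2 ^ n = 2 ^ (n + 1) := by ring
      rw [e] at h1
      have h2 : (u 1 ^ (2 ^ n) * u 0) ^ 2 ≤ (u 0 ^ (2 ^ n) * u (2 ^ n)) ^ 2 := by
        have : 0 ≤ u 1 ^ (2 ^ n) * u 0 := mul_nonneg (pow_nonneg (hu 1) _) (hu 0)
        exact pow_le_pow_left₀ this ih 2
      have h3 : (u 0 ^ (2 ^ n) * u (2 ^ n)) ^ 2 ≤ (u 0 ^ (2 ^ n)) ^ 2 * (u 0 * u (2 ^ (n + 1))) := by
        rw [mul_pow]
        exact mul_le_mul_of_nonneg_left h1 (by positivity)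
      have h4 : u 1 ^ (2 ^ (n + 1)) * u 0 * u 0 ≤ u 0 ^ (2 ^ (n + 1)) * u (2 ^ (n + 1)) * u 0 := by
        have e1 : u 1 ^ (2 ^ (n + 1)) * u 0 * u 0 = (u 1 ^ (2 ^ n) * u 0) ^ 2 := by
          rw [pow_succ 2 n, pow_mul]; ring
        have e2 : u 0 ^ (2 ^ (n + 1)) * u (2 ^ (n + 1)) * u 0 =
            (u 0 ^ (2 ^ n)) ^ 2 * (u 0 * u (2 ^ (n + 1))) := by
          rw [pow_succ 2 n, pow_mul]; ring
        rw [e1, e2]
        exact h2.trans h3
      exact le_of_mul_le_mul_right h4 h0
  set r := u 1 / (M * u 0) with hr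
  have hr1 : 1 < r := by rw [hr, one_lt_div (by positivity)]; exact hcon
  have hle : ∀ n, r ^ (2 ^ n) ≤ C / u 0 := by
    intro n
    have h1 := key n
    have h2 := hb n
    rw [hr, div_pow, div_le_div_iff₀ (by positivity) h0, mul_pow]
    calc u 1 ^ 2 ^ n * u 0 ≤ u 0 ^ 2 ^ n * u (2 ^ n) := h1
      _ ≤ u 0 ^ 2 ^ n * (C * M ^ 2 ^ n) := by gcongr
      _ = C * (M ^ 2 ^ n * u 0 ^ 2 ^ n) := by ring
  obtain ⟨N, hN⟩ := pow_unbounded_of_one_lt (C / u 0) hr1
  have h1 : r ^ N ≤ r ^ (2 ^ N) := pow_le_pow_right₀ hr1.le (Nat.lt_two_pow_self).le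
  exact absurd (hle N) (not_le.2 (hN.trans_le h1))

section GNS

variable {T : Type*} [NonUnitalRing T] [StarRing T] [Module ℂ T] [IsScalarTower ℂ T T]
  [SMulCommClass ℂ T T] [StarModule ℂ T]

/-- A positive functional on a star-algebra -/
structure IsPos (Φ : T →ₗ[ℂ] ℂ) : Prop where
  re_nonneg : ∀ y, 0 ≤ (Φ (star y * y)).re
  im_eq_zero : ∀ y, (Φ (star y * y)).im = 0

lemma IsPos.conj_symm {Φ : T →ₗ[ℂ] ℂ} (h : IsPos Φ) (x y : T) :
    (starRingEnd ℂ) (Φ (star y * x)) = Φ (star x * y) := by
  have h1 := h.im_eq_zero (x + y)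
  have h2 := h.im_eq_zero (x + Complex.I • y)
  have hx := h.im_eq_zero x
  have hy := h.im_eq_zero y
  simp only [star_add, star_smul, add_mul, mul_add, map_add, smul_mul_assoc, mul_smul_comm,
    map_smul, smul_eq_mul, Complex.add_im, Complex.mul_im, Complex.mul_re, Complex.star_def,
    Complex.conj_I, Complex.I_re, Complex.I_im, Complex.neg_re, Complex.neg_im, neg_zero,
    zero_mul, mul_zero, add_zero, zero_add, one_mul, zero_sub, sub_zero, neg_mul] at h1 h2
  apply Complex.ext
  · simp only [Complex.conj_re]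
    linarith
  · simp only [Complex.conj_im]
    linarith

/-- bundled positive functional with bounded left multiplications -/
structure BPos (T : Type*) [NonUnitalRing T] [StarRing T] [Module ℂ T] where
  Φ : T →ₗ[ℂ] ℂ
  pos : IsPos Φ
  bdd : ∀ x, ∃ C : ℝ, ∀ y, (Φ (star (x * y) * (x * y))).re ≤ C * (Φ (star y * y)).re

variable (f : BPos T)

/-- type synonym carrying the semi-inner product of a positive functional -/
@[nolint unusedArguments]
def Pre (_f : BPos T) := T

instance : AddCommGroup (Pre f) := inferInstanceAs (AddCommGroup T)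
noncomputable instance : Module ℂ (Pre f) := inferInstanceAs (Module ℂ T)

/-- the identity as a map to the pre-Hilbert space -/
noncomputable def toPre : T ≃ₗ[ℂ] Pre f := LinearEquiv.refl ℂ _

/-- the identity as a map from the pre-Hilbert space -/
noncomputable def ofPre : Pre f ≃ₗ[ℂ] T := (toPre f).symm

@[simp] lemma toPre_ofPre (a : Pre f) : toPre f (ofPre f a) = a := rfl
@[simp] lemma ofPre_toPre (a : T) : ofPre f (toPre f a) = a := rfl

/-- the semi-inner product -/
@[reducible] noncomputable def preCore : PreInnerProductSpace.Core ℂ (Pre f) where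
  inner a b := f.Φ (star (ofPre f a) * ofPre f b)
  conj_inner_symm a b := f.pos.conj_symm _ _
  re_inner_nonneg a := f.pos.re_nonneg _
  add_left a b c := by rw [map_add, star_add, add_mul, map_add]
  smul_left a b r := by simp [smul_mul_assoc]

noncomputable instance : SeminormedAddCommGroup (Pre f) :=
  InnerProductSpace.Core.toSeminormedAddCommGroup (c := preCore f)
noncomputable instance : InnerProductSpace ℂ (Pre f) :=
  InnerProductSpace.ofCore (preCore f)

lemma pre_inner_def (a b : Pre f) : ⟪a, b⟫_ℂ = f.Φ (star (ofPre f a) * ofPre f b) := rfl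

lemma pre_norm_sq (a : Pre f) : ‖a‖ ^ 2 = (f.Φ (star (ofPre f a) * ofPre f a)).re := by
  rw [← pre_inner_def]
  have := inner_self_eq_norm_sq_to_K (𝕜 := ℂ) a
  rw [this]
  norm_cast

/-- the Hilbert space of the functional -/
abbrev GNS := Completion (Pre f)

/-- left multiplication as a bounded operator on the pre-Hilbert space -/
noncomputable def leftMul (x : T) : Pre f →L[ℂ] Pre f :=
  ((toPre f).toLinearMap ∘ₗ LinearMap.mulLeft ℂ x ∘ₗ (ofPre f).toLinearMap).mkContinuousOfExistsBound
    (by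
      obtain ⟨C, hC⟩ := f.bdd x
      refine ⟨Real.sqrt (max C 0), fun y => ?_⟩
      rw [← sq_le_sq₀ (by positivity) (by positivity), mul_pow, Real.sq_sqrt (by positivity),
        pre_norm_sq, pre_norm_sq]
      simp only [LinearMap.coe_comp, LinearEquiv.coe_coe, Function.comp_apply,
        LinearMap.mulLeft_apply, ofPre_toPre]
      refine (hC _).trans ?_
      gcongr
      · exact f.pos.re_nonneg _
      · exact le_max_left _ _)

@[simp] lemma leftMul_apply (x : T) (y : Pre f) : leftMul f x y = toPre f (x * ofPre f y) := rfl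

/-- The GNS representation -/
noncomputable def gns : T →⋆ₙₐ[ℂ] (GNS f →L[ℂ] GNS f) where
  toFun a := (leftMul f a).completion
  map_smul' m x := by
    ext a
    induction a using induction_on with
    | hp => exact isClosed_eq (ContinuousLinearMap.continuous _) (ContinuousLinearMap.continuous _)
    | ih a => simp [smul_mul_assoc]
  map_zero' := by
    ext a
    induction a using induction_on with
    | hp => exact isClosed_eq (ContinuousLinearMap.continuous _) (ContinuousLinearMap.continuous _)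
    | ih a => simp [Completion.coe_zero]
  map_add' _ _ := by
    ext c
    induction c using induction_on with
      | hp => apply isClosed_eq <;> fun_prop
      | ih c => simp [add_mul, Completion.coe_add]
  map_mul' _ _ := by
    ext c
    induction c using induction_on with
      | hp => apply isClosed_eq <;> fun_prop
      | ih c => simp [mul_assoc]
  map_star' a := by
    refine (ContinuousLinearMap.eq_adjoint_iff (leftMul f (star a)).completion
      (leftMul f a).completion).mpr ?_
    intro x y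
    induction x, y using induction_on₂ with
    | hp => apply isClosed_eq <;> fun_prop
    | ih x y => simp [mul_assoc, pre_inner_def]

lemma gns_coe (a : T) (y : Pre f) : gns f a (y : GNS f) = ((leftMul f a y : Pre f) : GNS f) := by
  change (leftMul f a).completion (y : GNS f) = _
  simp

/-- the vector of the GNS space given by an element -/
noncomputable def vec (y : T) : GNS f := ((toPre f y : Pre f) : GNS f)

lemma gns_vec (x y : T) : gns f x (vec f y) = vec f (x * y) := by
  rw [vec, gns_coe]; rfl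

lemma inner_vec (x y : T) : ⟪vec f x, vec f y⟫_ℂ = f.Φ (star x * y) := by
  rw [vec, vec, inner_coe, pre_inner_def]; rfl

lemma norm_vec_sq (x : T) : ‖vec f x‖ ^ 2 = (f.Φ (star x * x)).re := by
  rw [vec, norm_coe, pre_norm_sq]; rfl

lemma vec_add (x y : T) : vec f (x + y) = vec f x + vec f y := by
  simp [vec, map_add, Completion.coe_add]

lemma vec_smul (c : ℂ) (x : T) : vec f (c • x) = c • vec f x := by
  simp [vec, map_smul, Completion.coe_smul]

lemma dense_vec : DenseRange (vec f) := by
  have : vec f = ((↑) : Pre f → GNS f) ∘ (toPre f) := rfl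
  rw [this]
  exact (denseRange_coe).comp (toPre f).surjective.denseRange (continuous_coe _)

omit [IsScalarTower ℂ T T] [SMulCommClass ℂ T T] [StarModule ℂ T] in
lemma selfadj_pow {P : T →ₗ[ℂ] T} (hPadj : ∀ v w : T, star (P v) * w = star v * P w) :
    ∀ (k : ℕ) (v w : T), star ((P ^ k) v) * w = star v * (P ^ k) w := by
  intro k
  induction k with
  | zero => intro v w; simp
  | succ k ih =>
    intro v w
    rw [pow_succ, Module.End.mul_apply, ih, hPadj]
    rw [← Module.End.mul_apply, ← pow_succ', ← pow_succ]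

/-- The iteration argument for a positive functional and a pair of maps `Q`, `P = Q⋆Q`. -/
lemma pos_iter {Ψ : T →ₗ[ℂ] ℂ} (hΨ : IsPos Ψ) (Q P : T →ₗ[ℂ] T)
    (hPadj : ∀ v w : T, star (P v) * w = star v * P w)
    (hQP : ∀ v w : T, star (Q v) * Q w = star v * P w) (y : T) (C M : ℝ) (hM : 0 ≤ M)
    (hb : ∀ n, (Ψ (star y * (P ^ (2 ^ n)) y)).re ≤ C * M ^ (2 ^ n)) :
    (Ψ (star (Q y) * Q y)).re ≤ M * (Ψ (star y * y)).re := by
  have hPadjk := selfadj_pow hPadj
  let u : ℕ → ℝ := fun k => (Ψ (star y * (P ^ k) y)).re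
  have hu1 : u 1 = (Ψ (star (Q y) * Q y)).re := by
    simp only [u, pow_one]
    rw [hQP]
  have hu0 : u 0 = (Ψ (star y * y)).re := by simp [u]
  have heven : ∀ k, u (2 * k) = (Ψ (star ((P ^ k) y) * (P ^ k) y)).re := by
    intro k
    simp only [u]
    rw [hPadjk, two_mul, pow_add, Module.End.mul_apply]
  have hodd : ∀ k, u (2 * k + 1) = (Ψ (star (Q ((P ^ k) y)) * Q ((P ^ k) y))).re := by
    intro k
    simp only [u]
    rw [hQP, hPadjk]
    have e : P ^ (2 * k + 1) = P ^ k * (P * P ^ k) := by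
      rw [← pow_succ', ← pow_add]
      congr 1
      ring
    rw [e, Module.End.mul_apply, Module.End.mul_apply]
  have hunn : ∀ k, 0 ≤ u k := by
    intro k
    rcases Nat.even_or_odd' k with ⟨m, rfl | rfl⟩
    · rw [heven]; exact hΨ.re_nonneg _
    · rw [hodd]; exact hΨ.re_nonneg _
  -- Cauchy-Schwarz for `Ψ`
  have hCS : ∀ v w : T, (Ψ (star v * w)).re ^ 2 ≤
      (Ψ (star v * v)).re * (Ψ (star w * w)).re := by
    intro v w
    have hquad : ∀ t : ℝ, 0 ≤ (Ψ (star w * w)).re * (t * t) + (2 * (Ψ (star v * w)).re) * t +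
        (Ψ (star v * v)).re := by
      intro t
      have h1 := hΨ.re_nonneg (v + (t : ℂ) • w)
      have h2 := congrArg Complex.re (hΨ.conj_symm v w)
      rw [Complex.conj_re] at h2
      simp only [star_add, star_smul, add_mul, mul_add, map_add, smul_mul_assoc, mul_smul_comm,
        map_smul, smul_eq_mul, Complex.add_re, Complex.star_def, Complex.conj_ofReal,
        Complex.re_ofReal_mul] at h1
      rw [h2] at h1
      linarith
    have := discrim_le_zero hquad
    rw [discrim] at this
    nlinarith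
  have hconv : ∀ k, u k ^ 2 ≤ u 0 * u (2 * k) := by
    intro k
    rw [heven, hu0]
    exact hCS y ((P ^ k) y)
  have := iter_bound u hunn hconv C M hM hb
  rwa [hu1, hu0] at this

/-- A dominated functional satisfies the same norm estimates as the dominating one. -/
lemma dominated_bound {Ψ : T →ₗ[ℂ] ℂ} (hΨ : IsPos Ψ) (C : ℝ)
    (hdom : ∀ y, (Ψ (star y * y)).re ≤ C * (f.Φ (star y * y)).re) (x y : T) :
    (Ψ (star (x * y) * (x * y))).re ≤ ‖gns f x‖ ^ 2 * (Ψ (star y * y)).re := by
  -- iterate left multiplication by `star x * x`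
  set P : T →ₗ[ℂ] T := LinearMap.mulLeft ℂ (star x * x) with hP
  have hPadj : ∀ v w : T, star (P v) * w = star v * P w := by
    intro v w
    simp [hP, mul_assoc]
  have hPadjk := selfadj_pow hPadj
  have hQP : ∀ v w : T, star (LinearMap.mulLeft ℂ x v) * LinearMap.mulLeft ℂ x w =
      star v * P w := by
    intro v w
    simp [hP, mul_assoc]
  have hPk : ∀ k, ‖vec f ((P ^ k) y)‖ ≤ (‖gns f x‖ ^ 2) ^ k * ‖vec f y‖ := by
    intro k
    induction k with
    | zero => simp
    | succ k ih =>
      have e : (P ^ (k + 1)) y = star x * (x * (P ^ k) y) := by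
        rw [pow_succ', Module.End.mul_apply, hP, LinearMap.mulLeft_apply, mul_assoc]
      rw [e, ← gns_vec, ← gns_vec]
      calc ‖gns f (star x) (gns f x (vec f ((P ^ k) y)))‖
          ≤ ‖gns f (star x)‖ * (‖gns f x‖ * ‖vec f ((P ^ k) y)‖) :=
            (ContinuousLinearMap.le_opNorm _ _).trans
              (mul_le_mul_of_nonneg_left (ContinuousLinearMap.le_opNorm _ _) (norm_nonneg _))
        _ = ‖gns f x‖ ^ 2 * ‖vec f ((P ^ k) y)‖ := by
            have e1 : ‖gns f (star x)‖ = ‖gns f x‖ := by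
              rw [map_star]; exact norm_star (gns f x)
            rw [e1]; ring
        _ ≤ ‖gns f x‖ ^ 2 * ((‖gns f x‖ ^ 2) ^ k * ‖vec f y‖) := by gcongr
        _ = (‖gns f x‖ ^ 2) ^ (k + 1) * ‖vec f y‖ := by ring
  have hCnn : 0 ≤ max C 0 := le_max_right _ _
  refine pos_iter hΨ (LinearMap.mulLeft ℂ x) P hPadj hQP y (max C 0 * ‖vec f y‖ ^ 2)
    (‖gns f x‖ ^ 2) (by positivity) ?_
  intro n
  rcases n with _ | n
  · simp only [pow_zero, pow_one]
    have e0 : star y * P y = star (x * y) * (x * y) := by simp [hP, mul_assoc]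
    rw [e0]
    refine (hdom (x * y)).trans ?_
    have h1 : (f.Φ (star (x * y) * (x * y))).re ≤ ‖vec f y‖ ^ 2 * ‖gns f x‖ ^ 2 := by
      rw [← norm_vec_sq, ← gns_vec, ← mul_pow, mul_comm]
      gcongr
      exact ContinuousLinearMap.le_opNorm _ _
    calc C * (f.Φ (star (x * y) * (x * y))).re ≤ max C 0 * (f.Φ (star (x * y) * (x * y))).re := by
          gcongr
          · exact f.pos.re_nonneg _
          · exact le_max_left _ _
      _ ≤ max C 0 * (‖vec f y‖ ^ 2 * ‖gns f x‖ ^ 2) := by gcongr
      _ = _ := by ring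
  · have e : 2 ^ (n + 1) = 2 ^ n + 2 ^ n := by ring
    have e1 : star y * (P ^ (2 ^ (n + 1))) y = star ((P ^ 2 ^ n) y) * (P ^ 2 ^ n) y := by
      rw [hPadjk, e, pow_add, Module.End.mul_apply]
    rw [e1]
    refine (hdom _).trans ?_
    have h1 : (f.Φ (star ((P ^ 2 ^ n) y) * (P ^ 2 ^ n) y)).re ≤
        ((‖gns f x‖ ^ 2) ^ (2 ^ n) * ‖vec f y‖) ^ 2 := by
      rw [← norm_vec_sq]
      gcongr
      exact hPk _
    calc C * (f.Φ (star ((P ^ 2 ^ n) y) * (P ^ 2 ^ n) y)).re
        ≤ max C 0 * (f.Φ (star ((P ^ 2 ^ n) y) * (P ^ 2 ^ n) y)).re := by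
          gcongr
          · exact f.pos.re_nonneg _
          · exact le_max_left _ _
      _ ≤ max C 0 * ((‖gns f x‖ ^ 2) ^ (2 ^ n) * ‖vec f y‖) ^ 2 := by gcongr
      _ = _ := by rw [mul_pow, ← pow_mul, pow_succ 2 n]; ring

end GNS

end Pool.Agent.helper77
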