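import Mathlib
import Pool.Agent.helper77.Defs
import Pool.Agent.helper77.Gns

set_option autoImplicit false

namespace Pool.Agent.helper77

open Set Topology Filter TopologicalSpace UniformSpace UniformSpace.Completion

section Compl

variable {R : Type*} [NormedRing R] [StarRing R] [CStarRing R] [NormedAlgebra ℂ R]
  [StarModule ℂ R]

lemma uc_star : UniformContinuous (star : R → R) :=
  (AddMonoidHomClass.isometry_of_norm (starAddEquiv : R ≃+ R) fun x => norm_star x).uniformContinuous

/-- star on the completion -/
@[reducible] noncomputable def complStar : Star (Completion R) := ⟨Completion.map star⟩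

attribute [local instance] complStar

lemma compl_star_coe (x : R) : (star (x : Completion R)) = ((star x : R) : Completion R) :=
  Completion.map_coe uc_star x

lemma compl_continuous_star : Continuous (star : Completion R → Completion R) :=
  Completion.continuous_map

/-- the star ring structure on the completion -/
@[reducible] noncomputable def complStarRing : StarRing (Completion R) where
  star_involutive x := by
    induction x using induction_on with
    | hp => exact isClosed_eq (compl_continuous_star.comp compl_continuous_star) continuous_id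
    | ih x => rw [compl_star_coe, compl_star_coe, star_star]
  star_mul x y := by
    induction x, y using induction_on₂ with
    | hp =>
      refine isClosed_eq (compl_continuous_star.comp (by fun_prop)) ?_
      exact (compl_continuous_star.comp continuous_snd).mul
        (compl_continuous_star.comp continuous_fst)
    | ih x y => rw [← coe_mul, compl_star_coe, compl_star_coe, compl_star_coe, star_mul, coe_mul]
  star_add x y := by
    induction x, y using induction_on₂ with
    | hp =>
      refine isClosed_eq (compl_continuous_star.comp (by fun_prop)) ?_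
      exact (compl_continuous_star.comp continuous_fst).add
        (compl_continuous_star.comp continuous_snd)
    | ih x y => rw [← coe_add, compl_star_coe, compl_star_coe, compl_star_coe, star_add, coe_add]

/-- the normed algebra structure on the completion -/
@[reducible] noncomputable def complNormedAlgebra : NormedAlgebra ℂ (Completion R) where
  toAlgebra := inferInstance
  norm_smul_le := fun r x => by
    have := @norm_smul_le ℂ (Completion R) _ _ _ _ r x
    exact this

/-- The completion of a normed star-algebra with the C⋆-identity is a C⋆-algebra. -/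
@[reducible] noncomputable def complCStar : CStarAlgebra (Completion R) :=
  letI := complStarRing (R := R)
  { (inferInstance : NormedRing (Completion R)),
    complNormedAlgebra (R := R),
    (inferInstance : CompleteSpace (Completion R)),
    complStarRing (R := R) with
    norm_mul_self_le := fun x => by
      induction x using induction_on with
      | hp =>
        refine isClosed_le (by fun_prop) ?_
        exact (compl_continuous_star.mul continuous_id).norm
      | ih x =>
        rw [compl_star_coe, ← coe_mul, norm_coe, norm_coe]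
        exact CStarRing.norm_mul_self_le x
    star_smul := fun c x => by
      induction x using induction_on with
      | hp =>
        refine isClosed_eq (compl_continuous_star.comp (by fun_prop)) ?_
        exact (compl_continuous_star (R := R)).const_smul (star c)
      | ih x => rw [← coe_smul, compl_star_coe, compl_star_coe, star_smul, coe_smul] }

end Compl

section Functional

variable {E : Type*} [CStarAlgebra E]

/-- In a unital C⋆-algebra every `z⋆z` is normed by a positive functional of norm at most one. -/
lemma exists_norming_unital (z : E) : ∃ f : E →L[ℂ] ℂ, (∀ w, ‖f w‖ ≤ ‖w‖) ∧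
    (∀ y, 0 ≤ (f (star y * y)).re ∧ (f (star y * y)).im = 0) ∧
    f (star z * z) = ((‖z‖ ^ 2 : ℝ) : ℂ) := by
  classical
  rcases subsingleton_or_nontrivial E with hE | hE
  · refine ⟨0, fun w => by simp, fun y => by simp, ?_⟩
    have : z = 0 := Subsingleton.elim _ _
    simp [this]
  letI : PartialOrder E := CStarAlgebra.spectralOrder E
  haveI : StarOrderedRing E := CStarAlgebra.spectralOrderedRing E
  set a : E := star z * z with ha
  have ha0 : 0 ≤ a := star_mul_self_nonneg z
  have hnorm : ‖1 + a‖ = 1 + ‖a‖ := by
    apply le_antisymm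
    · refine (norm_add_le _ _).trans ?_
      rw [norm_one]
    · have h1 : ‖a‖ ∈ spectrum ℝ a := CStarAlgebra.norm_mem_spectrum_of_nonneg ha0
      have h2 : 1 + ‖a‖ ∈ spectrum ℝ (1 + a) := by
        have := spectrum.add_mem_add_iff (R := ℝ) (r := ‖a‖) (s := 1) (a := a)
        rw [map_one] at this
        rw [add_comm (1 : ℝ), add_comm (1 : E)]
        rw [add_comm (1 : E)] at this
        exact this.2 h1
      have h3 := spectrum.norm_le_norm_of_mem h2
      rw [Real.norm_of_nonneg (by positivity)] at h3
      exact h3
  have hne : ‖(1 : E) + a‖ ≠ 0 := by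
    rw [hnorm]; positivity
  obtain ⟨g, hg1, hg2⟩ := exists_dual_vector ℂ ((1 : E) + a) hne
  have hgle : ∀ w, ‖g w‖ ≤ ‖w‖ := fun w => by
    have := g.le_opNorm w
    rwa [hg1, one_mul] at this
  rw [map_add, hnorm] at hg2
  have h1le : ‖g 1‖ ≤ 1 := by simpa using hgle 1
  have hale : ‖g a‖ ≤ ‖a‖ := hgle a
  have hre : (g 1).re + (g a).re = 1 + ‖a‖ := by
    have := congrArg Complex.re hg2
    simpa using this
  have h1re : (g 1).re = 1 := by
    have := (Complex.re_le_norm (g 1)).trans h1le
    have := (Complex.re_le_norm (g a)).trans hale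
    linarith
  have hare : (g a).re = ‖a‖ := by linarith
  have him : ∀ (w : ℂ) (r : ℝ), ‖w‖ ≤ r → w.re = r → w = r := by
    intro w r h h'
    have h2 : ‖w‖ ^ 2 ≤ r ^ 2 := pow_le_pow_left₀ (norm_nonneg _) h 2
    rw [← Complex.normSq_eq_norm_sq, Complex.normSq_apply, h'] at h2
    have h3 : w.im = 0 := by nlinarith [mul_self_nonneg w.im]
    apply Complex.ext <;> simp [h', h3]
  have hg1' : g 1 = ((1 : ℝ) : ℂ) := him _ _ h1le h1re
  have hga : g a = (‖a‖ : ℂ) := him _ _ hale hare
  refine ⟨g, hgle, ?_, ?_⟩
  · -- positivity
    have hreal : ∀ h : E, IsSelfAdjoint h → (g h).im = 0 := by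
      intro h hh
      by_contra hcon
      -- `‖g (h + i t)‖² ≤ ‖h + i t‖² = ‖h² + t²‖ ≤ ‖h‖² + t²`
      have key : ∀ t : ℝ, ((g h).im + t) ^ 2 ≤ ‖h‖ ^ 2 + t ^ 2 := by
        intro t
        have h1 : ‖g (h + ((t : ℂ) * Complex.I) • (1 : E))‖ ^ 2 ≤
            ‖h + ((t : ℂ) * Complex.I) • (1 : E)‖ ^ 2 :=
          pow_le_pow_left₀ (norm_nonneg _) (hgle _) 2
        have h2 : ‖h + ((t : ℂ) * Complex.I) • (1 : E)‖ ^ 2 ≤ ‖h‖ ^ 2 + t ^ 2 := by
          rw [sq, ← CStarRing.norm_star_mul_self]
          have e : star (h + ((t : ℂ) * Complex.I) • (1 : E)) *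
              (h + ((t : ℂ) * Complex.I) • (1 : E)) = h * h + ((t ^ 2 : ℝ) : ℂ) • (1 : E) := by
            rw [star_add, hh.star_eq, star_smul, star_one]
            simp only [Complex.star_def, map_mul, Complex.conj_ofReal, Complex.conj_I]
            rw [add_mul, mul_add, mul_add, smul_mul_assoc, mul_smul_comm, mul_one, one_mul,
              smul_mul_assoc, one_mul, smul_smul]
            have : (t : ℂ) * -Complex.I * ((t : ℂ) * Complex.I) = ((t ^ 2 : ℝ) : ℂ) := by
              push_cast
              linear_combination (-(t : ℂ) ^ 2) * Complex.I_mul_I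
            rw [this]
            have e2 : ((t : ℂ) * -Complex.I) • h = -(((t : ℂ) * Complex.I) • h) := by
              rw [← neg_smul]; congr 1; ring
            rw [e2]
            abel
          rw [e]
          refine (norm_add_le _ _).trans ?_
          rw [norm_smul, norm_one, mul_one, Complex.norm_real, Real.norm_of_nonneg (sq_nonneg t)]
          gcongr
          rw [sq]; exact norm_mul_le _ _
        have h3 : ‖g (h + ((t : ℂ) * Complex.I) • (1 : E))‖ ^ 2 =
            (g h).re ^ 2 + ((g h).im + t) ^ 2 := by
          rw [map_add, map_smul, hg1', ← Complex.normSq_eq_norm_sq, Complex.normSq_apply]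
          simp
          ring
        nlinarith [sq_nonneg (g h).re]
      have := key ((‖h‖ ^ 2) / (g h).im)
      have h5 : (2 * (g h).im) * ((‖h‖ ^ 2) / (g h).im) = 2 * ‖h‖ ^ 2 := by field_simp
      have h6 : 0 < (g h).im ^ 2 := by positivity
      nlinarith [sq_nonneg ‖h‖]
    intro y
    have hy0 : 0 ≤ star y * y := star_mul_self_nonneg y
    refine ⟨?_, hreal _ (IsSelfAdjoint.star_mul_self y)⟩
    set b : E := star y * y with hb
    -- `‖ ‖b‖ - b ‖ ≤ ‖b‖`
    have h1 : ‖algebraMap ℝ E ‖b‖ - b‖ ≤ ‖b‖ := by
      have hle : b ≤ algebraMap ℝ E ‖b‖ := IsSelfAdjoint.le_algebraMap_norm_self (.of_nonneg hy0)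
      have h0 : 0 ≤ algebraMap ℝ E ‖b‖ - b := sub_nonneg.2 hle
      have h2 : algebraMap ℝ E ‖b‖ - b ≤ algebraMap ℝ E ‖b‖ := sub_le_self _ hy0
      exact (CStarAlgebra.norm_le_iff_le_algebraMap _ (norm_nonneg _) h0).2 h2
    have h2 := (Complex.re_le_norm _).trans ((hgle (algebraMap ℝ E ‖b‖ - b)).trans h1)
    have h3 : g (algebraMap ℝ E ‖b‖) = (‖b‖ : ℂ) := by
      rw [Algebra.algebraMap_eq_smul_one, ← Complex.coe_smul, map_smul, hg1']
      simp
    rw [map_sub, h3, Complex.sub_re, Complex.ofReal_re] at h2
    linarith
  · rw [hga, ha, CStarRing.norm_star_mul_self, sq]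

/-- Norming functionals without completeness. -/
lemma exists_norming_normed {R : Type*} [NormedRing R] [StarRing R] [CStarRing R]
    [NormedAlgebra ℂ R] [StarModule ℂ R] (z : R) : ∃ f : R →ₗ[ℂ] ℂ, (∀ w, ‖f w‖ ≤ ‖w‖) ∧
    (∀ y, 0 ≤ (f (star y * y)).re ∧ (f (star y * y)).im = 0) ∧
    f (star z * z) = ((‖z‖ ^ 2 : ℝ) : ℂ) := by
  letI : CStarAlgebra (Completion R) := complCStar
  obtain ⟨g, hg1, hg2, hg3⟩ := exists_norming_unital (z : Completion R)
  have hstar : ∀ x : R, star (x : Completion R) = ((star x : R) : Completion R) :=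
    fun x => compl_star_coe x
  have hsm : ∀ (c : ℂ) (x : R), ((c • x : R) : Completion R) = c • (x : Completion R) :=
    fun c x => Completion.coe_smul c x
  let f : R →ₗ[ℂ] ℂ :=
    { toFun := fun x => g (x : Completion R)
      map_add' := fun x y => by rw [coe_add, map_add]
      map_smul' := fun c x => by rw [hsm, map_smul]; rfl }
  have hf : ∀ x, f x = g (x : Completion R) := fun x => rfl
  refine ⟨f, fun w => ?_, fun y => ?_, ?_⟩
  · rw [hf]; refine (hg1 _).trans ?_
    exact (norm_coe w).le
  · rw [hf, coe_mul, ← hstar]; exact hg2 _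
  · rw [hf, coe_mul, ← hstar, hg3]
    congr 2
    exact norm_coe z

end Functional

section CStarNorm

variable {T : Type*} [NonUnitalRing T] [StarRing T] [Module ℂ T] [IsScalarTower ℂ T T]
  [SMulCommClass ℂ T T] [StarModule ℂ T]

lemma IsCStarNorm.map_zero {p : T → ℝ} (hp : IsCStarNorm p) : p 0 = 0 := by
  have := hp.smul_eq 0 0
  simpa using this

lemma IsCStarNorm.map_neg {p : T → ℝ} (hp : IsCStarNorm p) (x : T) : p (-x) = p x := by
  have := hp.smul_eq (-1) x
  simpa using this

lemma IsCStarNorm.nonneg {p : T → ℝ} (hp : IsCStarNorm p) (x : T) : 0 ≤ p x := by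
  have h1 := hp.add_le x (-x)
  rw [add_neg_cancel, hp.map_zero, hp.map_neg] at h1
  linarith

/-- type synonym carrying a C⋆-norm -/
@[nolint unusedArguments]
def WN {p : T → ℝ} (_hp : IsCStarNorm p) := T

variable {p : T → ℝ} (hp : IsCStarNorm p)

instance : NonUnitalRing (WN hp) := inferInstanceAs (NonUnitalRing T)
instance : StarRing (WN hp) := inferInstanceAs (StarRing T)

noncomputable instance : NonUnitalNormedRing (WN hp) :=
  { (inferInstance : NonUnitalRing (WN hp)),
    AddGroupNorm.toNormedAddCommGroup (E := WN hp)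
      { toFun := fun x : T => p x
        map_zero' := hp.map_zero
        add_le' := hp.add_le
        neg' := hp.map_neg
        eq_zero_of_map_eq_zero' := fun x h => hp.eq_zero x h } with
    norm_mul_le := fun x y => hp.mul_le x y }

lemma wn_norm (x : WN hp) : ‖x‖ = p (show T from x) := rfl

noncomputable instance : NormedSpace ℂ (WN hp) :=
  { (inferInstanceAs (Module ℂ T) : Module ℂ (WN hp)) with
    norm_smul_le := fun c x => (hp.smul_eq c x).le }

instance : IsScalarTower ℂ (WN hp) (WN hp) := inferInstanceAs (IsScalarTower ℂ T T)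
instance : SMulCommClass ℂ (WN hp) (WN hp) := inferInstanceAs (SMulCommClass ℂ T T)
instance : StarModule ℂ (WN hp) := inferInstanceAs (StarModule ℂ T)
instance : CStarRing (WN hp) where
  norm_mul_self_le x := by
    have := hp.star_mul_self_eq x
    rw [wn_norm, wn_norm]
    rw [← sq]
    exact this.ge

/-- the identity to the synonym -/
def toWN (x : T) : WN hp := x

lemma toWN_add (x y : T) : toWN hp (x + y) = toWN hp x + toWN hp y := rfl
lemma toWN_smul (c : ℂ) (x : T) : toWN hp (c • x) = c • toWN hp x := rfl
lemma toWN_mul (x y : T) : toWN hp (x * y) = toWN hp x * toWN hp y := rfl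
lemma toWN_star (x : T) : toWN hp (star x) = star (toWN hp x) := rfl
lemma norm_toWN (x : T) : ‖toWN hp x‖ = p x := rfl

/-- **Norming functionals for C⋆-norms**: no completeness is assumed. -/
lemma IsCStarNorm.exists_norming {p : T → ℝ} (hp : IsCStarNorm p) (z : T) :
    ∃ f : T →ₗ[ℂ] ℂ, (∀ w, ‖f w‖ ≤ p w) ∧ IsPos f ∧ f (star z * z) = ((p z ^ 2 : ℝ) : ℂ) := by
  obtain ⟨g, hg1, hg2, hg3⟩ := exists_norming_normed (toWN hp z : Unitization ℂ (WN hp))
  let f : T →ₗ[ℂ] ℂ :=
    { toFun := fun x => g (toWN hp x : Unitization ℂ (WN hp))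
      map_add' := fun x y => by rw [← map_add, ← Unitization.inr_add, toWN_add]
      map_smul' := fun c x => by
        rw [RingHom.id_apply, ← map_smul, ← Unitization.inr_smul, toWN_smul] }
  have hf : ∀ x : T, f x = g (toWN hp x : Unitization ℂ (WN hp)) := fun x => rfl
  have hs : ∀ x y : T, (toWN hp (star x * y) : Unitization ℂ (WN hp)) =
      star (toWN hp x : Unitization ℂ (WN hp)) * (toWN hp y : Unitization ℂ (WN hp)) := by
    intro x y
    rw [← Unitization.inr_star, ← Unitization.inr_mul, toWN_mul, toWN_star]
  have hn : ∀ x : T, ‖(toWN hp x : Unitization ℂ (WN hp))‖ = p x := by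
    intro x
    rw [Unitization.norm_inr, norm_toWN]
  refine ⟨f, fun w => ?_, ⟨fun y => ?_, fun y => ?_⟩, ?_⟩
  · rw [hf, ← hn]; exact hg1 _
  · rw [hf, hs]; exact (hg2 _).1
  · rw [hf, hs]; exact (hg2 _).2
  · rw [hf, hs, hg3, hn]

end CStarNorm

end Pool.Agent.helper77
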