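import Mathlib
import Pool.Agent.helper77.Extend
import Pool.Agent.helper77.Norming

set_option autoImplicit false

namespace Pool.Agent.helper77

open Set Topology Filter TopologicalSpace
open scoped TensorProduct ComplexOrder

variable {A B : Type*} [NonUnitalCStarAlgebra A] [NonUnitalCStarAlgebra B]

lemma IsState.isPos {Φ : A ⊗[ℂ] B →ₗ[ℂ] ℂ} (h : IsState Φ) : IsPos Φ :=
  ⟨h.re_nonneg, h.im_eq_zero⟩

/-- left multiplication by `a ⊗ 1` -/
noncomputable def lmul (a : A) : A ⊗[ℂ] B →ₗ[ℂ] A ⊗[ℂ] B :=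
  LinearMap.rTensor B (LinearMap.mulLeft ℂ a)

/-- left multiplication by `1 ⊗ b` -/
noncomputable def rmul (b : B) : A ⊗[ℂ] B →ₗ[ℂ] A ⊗[ℂ] B :=
  LinearMap.lTensor A (LinearMap.mulLeft ℂ b)

@[simp] lemma lmul_tmul (a a' : A) (b : B) : lmul a (a' ⊗ₜ[ℂ] b) = (a * a') ⊗ₜ b := by
  simp [lmul]

@[simp] lemma rmul_tmul (b : B) (a' : A) (b' : B) : rmul b (a' ⊗ₜ[ℂ] b') = a' ⊗ₜ (b * b') := by
  simp [rmul]

lemma lmul_adj (a a' : A) (v w : A ⊗[ℂ] B) :
    star (lmul a v) * lmul a' w = star v * lmul (star a * a') w := by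
  induction v with
  | zero => simp
  | add v v' hv hv' => simp only [map_add, star_add, add_mul, hv, hv']
  | tmul x y =>
    induction w with
    | zero => simp
    | add w w' hw hw' => simp only [map_add, mul_add, hw, hw']
    | tmul x' y' => simp [mul_assoc]

lemma rmul_adj (b b' : B) (v w : A ⊗[ℂ] B) :
    star (rmul b v) * rmul b' w = star v * rmul (star b * b') w := by
  induction v with
  | zero => simp
  | add v v' hv hv' => simp only [map_add, star_add, add_mul, hv, hv']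
  | tmul x y =>
    induction w with
    | zero => simp
    | add w w' hw hw' => simp only [map_add, mul_add, hw, hw']
    | tmul x' y' => simp [mul_assoc]

lemma lmul_adj' (a : A) (v w : A ⊗[ℂ] B) :
    star (lmul (star a * a) v) * w = star v * lmul (star a * a) w := by
  induction v with
  | zero => simp
  | add v v' hv hv' => simp only [map_add, star_add, add_mul, hv, hv']
  | tmul x y =>
    induction w with
    | zero => simp
    | add w w' hw hw' => simp only [map_add, mul_add, hw, hw']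
    | tmul x' y' => simp [mul_assoc]

lemma rmul_adj' (b : B) (v w : A ⊗[ℂ] B) :
    star (rmul (star b * b) v) * w = star v * rmul (star b * b) w := by
  induction v with
  | zero => simp
  | add v v' hv hv' => simp only [map_add, star_add, add_mul, hv, hv']
  | tmul x y =>
    induction w with
    | zero => simp
    | add w w' hw hw' => simp only [map_add, mul_add, hw, hw']
    | tmul x' y' => simp [mul_assoc]

lemma tmul_mul_eq (a : A) (b : B) (y : A ⊗[ℂ] B) : (a ⊗ₜ b) * y = lmul a (rmul b y) := by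
  induction y with
  | zero => simp
  | add v v' hv hv' => simp only [map_add, mul_add, hv, hv']
  | tmul x y => simp

lemma lmul_lmul (a a' : A) (y : A ⊗[ℂ] B) : lmul a (lmul a' y) = lmul (a * a') y := by
  induction y with
  | zero => simp
  | add v v' hv hv' => simp only [map_add, hv, hv']
  | tmul x y => simp [mul_assoc]

lemma rmul_rmul (a a' : B) (y : A ⊗[ℂ] B) : rmul a (rmul a' y) = rmul (a * a') y := by
  induction y with
  | zero => simp
  | add v v' hv hv' => simp only [map_add, hv, hv']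
  | tmul x y => simp [mul_assoc]

/-- powers of `a⋆a` in a non-unital algebra -/
lemma exists_pow_lmul (a : A) (k : ℕ) : ∃ c : A, ‖c‖ ≤ (‖a‖ ^ 2) ^ (k + 1) ∧
    ∀ y : A ⊗[ℂ] B, ((lmul (star a * a) : A ⊗[ℂ] B →ₗ[ℂ] A ⊗[ℂ] B) ^ (k + 1)) y = lmul c y := by
  induction k with
  | zero => exact ⟨star a * a, by rw [zero_add, pow_one, CStarRing.norm_star_mul_self, sq],
      fun y => by simp⟩
  | succ k ih =>
    obtain ⟨c, hc, hcy⟩ := ih
    refine ⟨star a * a * c, ?_, fun y => ?_⟩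
    · calc ‖star a * a * c‖ ≤ ‖star a * a‖ * ‖c‖ := norm_mul_le _ _
        _ ≤ ‖a‖ ^ 2 * (‖a‖ ^ 2) ^ (k + 1) := by
          rw [CStarRing.norm_star_mul_self, ← sq]; gcongr
        _ = _ := by ring
    · rw [pow_succ', Module.End.mul_apply, hcy, lmul_lmul]

lemma exists_pow_rmul (b : B) (k : ℕ) : ∃ c : B, ‖c‖ ≤ (‖b‖ ^ 2) ^ (k + 1) ∧
    ∀ y : A ⊗[ℂ] B, ((rmul (star b * b) : A ⊗[ℂ] B →ₗ[ℂ] A ⊗[ℂ] B) ^ (k + 1)) y = rmul c y := by
  induction k with
  | zero => exact ⟨star b * b, by rw [zero_add, pow_one, CStarRing.norm_star_mul_self, sq],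
      fun y => by simp⟩
  | succ k ih =>
    obtain ⟨c, hc, hcy⟩ := ih
    refine ⟨star b * b * c, ?_, fun y => ?_⟩
    · calc ‖star b * b * c‖ ≤ ‖star b * b‖ * ‖c‖ := norm_mul_le _ _
        _ ≤ ‖b‖ ^ 2 * (‖b‖ ^ 2) ^ (k + 1) := by
          rw [CStarRing.norm_star_mul_self, ← sq]; gcongr
        _ = _ := by ring
    · rw [pow_succ', Module.End.mul_apply, hcy, rmul_rmul]

/-- a positive linear functional on a C⋆-algebra in the sense of squares is bounded -/
lemma bounded_of_pos {A : Type*} [NonUnitalCStarAlgebra A] (F : A →ₗ[ℂ] ℂ)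
    (hF : ∀ c, 0 ≤ (F (star c * c)).re ∧ (F (star c * c)).im = 0) :
    ∃ C : ℝ, 0 ≤ C ∧ ∀ c, ‖F c‖ ≤ C * ‖c‖ := by
  letI : PartialOrder A := CStarAlgebra.spectralOrder A
  haveI : StarOrderedRing A := CStarAlgebra.spectralOrderedRing A
  have hpos : ∀ a : A, 0 ≤ a → 0 ≤ F a := by
    intro a ha
    obtain ⟨c, rfl⟩ := CStarAlgebra.nonneg_iff_eq_star_mul_self.1 ha
    rw [Complex.nonneg_iff]
    exact ⟨(hF c).1, (hF c).2.symm⟩
  let G : A →ₚ[ℂ] ℂ := PositiveLinearMap.mk₀ F hpos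
  obtain ⟨C, hC⟩ := G.exists_norm_apply_le
  exact ⟨C, C.2, hC⟩

lemma pos_lmul_bound {Ψ : A ⊗[ℂ] B →ₗ[ℂ] ℂ} (hΨ : IsPos Ψ) (a : A) (y : A ⊗[ℂ] B) :
    (Ψ (star (lmul a y) * lmul a y)).re ≤ ‖a‖ ^ 2 * (Ψ (star y * y)).re := by
  -- the functional `c ↦ Ψ (y⋆ (c ⊗ 1) y)`
  let F : A →ₗ[ℂ] ℂ :=
    { toFun := fun c => Ψ (star y * lmul c y)
      map_add' := fun c c' => by
        have : (lmul (c + c') : A ⊗[ℂ] B →ₗ[ℂ] A ⊗[ℂ] B) = lmul c + lmul c' := by
          ext; simp [add_mul, TensorProduct.add_tmul]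
        rw [this, LinearMap.add_apply, mul_add, map_add]
      map_smul' := fun r c => by
        have : (lmul (r • c) : A ⊗[ℂ] B →ₗ[ℂ] A ⊗[ℂ] B) = r • lmul c := by
          ext; simp [smul_mul_assoc, TensorProduct.smul_tmul']
        rw [this, LinearMap.smul_apply, mul_smul_comm, map_smul]
        rfl }
  have hF : ∀ c, F c = Ψ (star y * lmul c y) := fun c => rfl
  obtain ⟨C, hC0, hC⟩ := bounded_of_pos F (fun c => by
    rw [hF, ← lmul_adj]
    exact ⟨hΨ.re_nonneg _, hΨ.im_eq_zero _⟩)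
  refine pos_iter hΨ (lmul a) (lmul (star a * a)) (lmul_adj' a) (fun v w => lmul_adj a a v w) y C
    (‖a‖ ^ 2) (by positivity) (fun n => ?_)
  obtain ⟨k, hk⟩ : ∃ k, 2 ^ n = k + 1 := ⟨2 ^ n - 1, (Nat.sub_add_cancel Nat.one_le_two_pow).symm⟩
  rw [hk]
  obtain ⟨c, hc, hcy⟩ := exists_pow_lmul (B := B) a k
  rw [hcy, ← hF]
  calc (F c).re ≤ ‖F c‖ := Complex.re_le_norm _
    _ ≤ C * ‖c‖ := hC c
    _ ≤ C * (‖a‖ ^ 2) ^ (k + 1) := by gcongr

lemma pos_rmul_bound {Ψ : A ⊗[ℂ] B →ₗ[ℂ] ℂ} (hΨ : IsPos Ψ) (b : B) (y : A ⊗[ℂ] B) :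
    (Ψ (star (rmul b y) * rmul b y)).re ≤ ‖b‖ ^ 2 * (Ψ (star y * y)).re := by
  let F : B →ₗ[ℂ] ℂ :=
    { toFun := fun c => Ψ (star y * rmul c y)
      map_add' := fun c c' => by
        have : (rmul (c + c') : A ⊗[ℂ] B →ₗ[ℂ] A ⊗[ℂ] B) = rmul c + rmul c' := by
          ext; simp [add_mul, TensorProduct.tmul_add]
        rw [this, LinearMap.add_apply, mul_add, map_add]
      map_smul' := fun r c => by
        have : (rmul (r • c) : A ⊗[ℂ] B →ₗ[ℂ] A ⊗[ℂ] B) = r • rmul c := by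
          ext; simp [smul_mul_assoc]
        rw [this, LinearMap.smul_apply, mul_smul_comm, map_smul]
        rfl }
  have hF : ∀ c, F c = Ψ (star y * rmul c y) := fun c => rfl
  obtain ⟨C, hC0, hC⟩ := bounded_of_pos F (fun c => by
    rw [hF, ← rmul_adj]
    exact ⟨hΨ.re_nonneg _, hΨ.im_eq_zero _⟩)
  refine pos_iter hΨ (rmul b) (rmul (star b * b)) (rmul_adj' b) (fun v w => rmul_adj b b v w) y C
    (‖b‖ ^ 2) (by positivity) (fun n => ?_)
  obtain ⟨k, hk⟩ : ∃ k, 2 ^ n = k + 1 := ⟨2 ^ n - 1, (Nat.sub_add_cancel Nat.one_le_two_pow).symm⟩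
  rw [hk]
  obtain ⟨c, hc, hcy⟩ := exists_pow_rmul (A := A) b k
  rw [hcy, ← hF]
  calc (F c).re ≤ ‖F c‖ := Complex.re_le_norm _
    _ ≤ C * ‖c‖ := hC c
    _ ≤ C * (‖b‖ ^ 2) ^ (k + 1) := by gcongr

/-- Left multiplication by a pure tensor. -/
lemma pos_tmul_bound {Ψ : A ⊗[ℂ] B →ₗ[ℂ] ℂ} (hΨ : IsPos Ψ) (a : A) (b : B) (y : A ⊗[ℂ] B) :
    (Ψ (star ((a ⊗ₜ b) * y) * ((a ⊗ₜ b) * y))).re ≤ (‖a‖ * ‖b‖) ^ 2 * (Ψ (star y * y)).re := by
  rw [tmul_mul_eq]
  calc _ ≤ ‖a‖ ^ 2 * (Ψ (star (rmul b y) * rmul b y)).re := pos_lmul_bound hΨ a _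
    _ ≤ ‖a‖ ^ 2 * (‖b‖ ^ 2 * (Ψ (star y * y)).re) := by
      gcongr
      exact pos_rmul_bound hΨ b y
    _ = _ := by ring

lemma pos_bdd {Ψ : A ⊗[ℂ] B →ₗ[ℂ] ℂ} (hΨ : IsPos Ψ) (x : A ⊗[ℂ] B) :
    ∃ C : ℝ, ∀ y, (Ψ (star (x * y) * (x * y))).re ≤ C * (Ψ (star y * y)).re := by
  induction x with
  | zero => exact ⟨0, fun y => by simp⟩
  | tmul a b => exact ⟨_, pos_tmul_bound hΨ a b⟩
  | add v w hv hw =>
    obtain ⟨C, hC⟩ := hv
    obtain ⟨C', hC'⟩ := hw
    refine ⟨2 * C + 2 * C', fun y => ?_⟩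
    have h1 := hC y
    have h2 := hC' y
    have h3 := hΨ.re_nonneg (v * y - w * y)
    have e : star ((v + w) * y) * ((v + w) * y) + star (v * y - w * y) * (v * y - w * y) =
        (2 : ℂ) • (star (v * y) * (v * y)) + (2 : ℂ) • (star (w * y) * (w * y)) := by
      rw [add_mul, star_add, star_sub, two_smul, two_smul]
      simp only [add_mul, mul_add, sub_mul, mul_sub]
      abel
    have e2 := congrArg (fun z => (Ψ z).re) e
    simp only [map_add, map_smul, smul_eq_mul, Complex.add_re] at e2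
    have r1 : ((2 : ℂ) * Ψ (star (v * y) * (v * y))).re = 2 * (Ψ (star (v * y) * (v * y))).re := by
      simp
    have r2 : ((2 : ℂ) * Ψ (star (w * y) * (w * y))).re = 2 * (Ψ (star (w * y) * (w * y))).re := by
      simp
    rw [r1, r2] at e2
    nlinarith

/-- every positive functional on the algebraic tensor product has a GNS representation -/
noncomputable def toBPos {Ψ : A ⊗[ℂ] B →ₗ[ℂ] ℂ} (hΨ : IsPos Ψ) : BPos (A ⊗[ℂ] B) :=
  ⟨Ψ, hΨ, pos_bdd hΨ⟩

lemma norm_gns_tmul_le {Ψ : A ⊗[ℂ] B →ₗ[ℂ] ℂ} (hΨ : IsPos Ψ) (a : A) (b : B) :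
    ‖gns (toBPos hΨ) (a ⊗ₜ b)‖ ≤ ‖a‖ * ‖b‖ := by
  refine ContinuousLinearMap.opNorm_le_bound _ (by positivity) fun v => ?_
  refine (dense_vec (toBPos hΨ)).induction_on (p := fun v =>
    ‖gns (toBPos hΨ) (a ⊗ₜ b) v‖ ≤ ‖a‖ * ‖b‖ * ‖v‖) v (isClosed_le (by fun_prop) (by fun_prop)) ?_
  intro y
  rw [gns_vec, ← sq_le_sq₀ (norm_nonneg _) (by positivity), mul_pow, norm_vec_sq, norm_vec_sq]
  exact pos_tmul_bound hΨ a b y

/-- C⋆-norms on the algebraic tensor product are subordinate to the product norm. -/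
lemma IsCStarNorm.subcross {p : A ⊗[ℂ] B → ℝ} (hp : IsCStarNorm p) (a : A) (b : B) :
    p (a ⊗ₜ b) ≤ ‖a‖ * ‖b‖ := by
  have hstar : ∀ x, p (star x) = p x := by
    have h1 : ∀ x, p x ≤ p (star x) := by
      intro x
      rcases eq_or_lt_of_le (hp.nonneg x) with h0 | h0
      · rw [← h0]; exact hp.nonneg _
      · have h2 := hp.star_mul_self_eq x
        have h3 := hp.mul_le (star x) x
        rw [h2, sq] at h3
        exact le_of_mul_le_mul_right h3 h0
    intro x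
    apply le_antisymm
    · have := h1 (star x); rwa [star_star] at this
    · exact h1 x
  set x := a ⊗ₜ[ℂ] b with hx
  obtain ⟨f, hf1, hf2, hf3⟩ := hp.exists_norming (x * star x)
  have h1 : (f (star (x * star x) * (x * star x))).re = p (x * star x) ^ 2 := by
    rw [hf3, Complex.ofReal_re]
  have h2 := pos_tmul_bound hf2 a b (star x)
  rw [← hx, h1] at h2
  have h3 : (f (star (star x) * star x)).re ≤ p (star x) ^ 2 := by
    refine (Complex.re_le_norm _).trans ((hf1 _).trans ?_)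
    rw [hp.star_mul_self_eq]
  have h4 : p (x * star x) = p x ^ 2 := by
    have := hp.star_mul_self_eq (star x)
    rwa [star_star, hstar] at this
  rw [hstar] at h3
  rw [h4] at h2
  rcases eq_or_lt_of_le (hp.nonneg x) with h0 | h0
  · rw [← h0]; positivity
  · have h5 : (p x ^ 2) ^ 2 ≤ (‖a‖ * ‖b‖) ^ 2 * p x ^ 2 := by
      refine h2.trans ?_
      gcongr
    have h6 : p x ^ 2 * p x ^ 2 ≤ (‖a‖ * ‖b‖) ^ 2 * p x ^ 2 := by
      rw [← sq]; exact h5
    have h7 := le_of_mul_le_mul_right h6 (by positivity)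
    exact (sq_le_sq₀ h0.le (by positivity)).1 h7

lemma IsCStarNorm.star_eq {p : A ⊗[ℂ] B → ℝ} (hp : IsCStarNorm p) (x : A ⊗[ℂ] B) :
    p (star x) = p x := by
  have h1 : ∀ x, p x ≤ p (star x) := by
    intro x
    rcases eq_or_lt_of_le (hp.nonneg x) with h0 | h0
    · rw [← h0]; exact hp.nonneg _
    · have h2 := hp.star_mul_self_eq x
      have h3 := hp.mul_le (star x) x
      rw [h2, sq] at h3
      exact le_of_mul_le_mul_right h3 h0
  apply le_antisymm
  · have := h1 (star x); rwa [star_star] at this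
  · exact h1 x

/-- If all states satisfy the norm estimate of a GNS representation, then this representation
dominates every C⋆-norm. -/
lemma cstarNorm_le_gns {Φ : A ⊗[ℂ] B →ₗ[ℂ] ℂ} (hΦ : IsPos Φ)
    (hall : ∀ Ψ : A ⊗[ℂ] B →ₗ[ℂ] ℂ, IsState Ψ → ∀ x y,
      (Ψ (star (x * y) * (x * y))).re ≤ ‖gns (toBPos hΦ) x‖ ^ 2 * (Ψ (star y * y)).re)
    {p : A ⊗[ℂ] B → ℝ} (hp : IsCStarNorm p) (x : A ⊗[ℂ] B) : p x ≤ ‖gns (toBPos hΦ) x‖ := by
  obtain ⟨f, hf1, hf2, hf3⟩ := hp.exists_norming (x * star x)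
  have hfs : IsState f := ⟨fun a b => (hf1 _).trans (hp.subcross a b), hf2.re_nonneg,
    hf2.im_eq_zero⟩
  have h1 : (f (star (x * star x) * (x * star x))).re = p (x * star x) ^ 2 := by
    rw [hf3, Complex.ofReal_re]
  have h2 := hall f hfs x (star x)
  rw [h1] at h2
  have h3 : (f (star (star x) * star x)).re ≤ p (star x) ^ 2 := by
    refine (Complex.re_le_norm _).trans ((hf1 _).trans ?_)
    rw [hp.star_mul_self_eq]
  have h4 : p (x * star x) = p x ^ 2 := by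
    have := hp.star_mul_self_eq (star x)
    rwa [star_star, hp.star_eq] at this
  rw [hp.star_eq] at h3
  rw [h4] at h2
  rcases eq_or_lt_of_le (hp.nonneg x) with h0 | h0
  · rw [← h0]; positivity
  · have h6 : p x ^ 2 * p x ^ 2 ≤ ‖gns (toBPos hΦ) x‖ ^ 2 * p x ^ 2 := by
      rw [← sq]
      refine h2.trans ?_
      gcongr
    have h7 := le_of_mul_le_mul_right h6 (by positivity)
    exact (sq_le_sq₀ h0.le (by positivity)).1 h7

end Pool.Agent.helper77
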