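import Mathlib
import Pool.Agent.helper77.States

set_option autoImplicit false

namespace Pool.Agent.helper77

open Set Topology Filter TopologicalSpace
open scoped TensorProduct InnerProductSpace

variable {A B : Type*} [NonUnitalCStarAlgebra A] [NonUnitalCStarAlgebra B]
variable {H : Type*} [NormedAddCommGroup H] [InnerProductSpace ℂ H] [CompleteSpace H]
  (ρ : A →⋆ₙₐ[ℂ] (H →L[ℂ] H)) (σ : B →⋆ₙₐ[ℂ] (H →L[ℂ] H))

/-- evaluation of a representation at a vector -/
noncomputable def evAt {A : Type*} [NonUnitalCStarAlgebra A] (ρ : A →⋆ₙₐ[ℂ] (H →L[ℂ] H)) (ξ : H) :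
    A →ₗ[ℂ] H where
  toFun a := ρ a ξ
  map_add' a b := by simp
  map_smul' c a := by simp

/-- the vectors `(ρ ⊗ σ)(z) (ξ ⊗ η)` -/
noncomputable def tv (ξ η : H) : A ⊗[ℂ] B →ₗ[ℂ] H ⊗[ℂ] H :=
  TensorProduct.map (evAt ρ ξ) (evAt σ η)

@[simp] lemma tv_tmul (ξ η : H) (a : A) (b : B) :
    tv ρ σ ξ η (a ⊗ₜ b) = (ρ a ξ) ⊗ₜ (σ b η) := by
  simp [tv, evAt]

/-- vector functional -/
noncomputable def vecFun (ξ η : H) : A ⊗[ℂ] B →ₗ[ℂ] ℂ :=
  (innerSL ℂ (ξ ⊗ₜ[ℂ] η)).toLinearMap ∘ₗ (tv ρ σ ξ η)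

lemma vecFun_apply (ξ η : H) (z : A ⊗[ℂ] B) :
    vecFun ρ σ ξ η z = ⟪ξ ⊗ₜ[ℂ] η, tv ρ σ ξ η z⟫_ℂ := rfl

/-- the operators `(ρ ⊗ σ)(z)` on the algebraic tensor product -/
noncomputable def top : A ⊗[ℂ] B →ₗ[ℂ] (H ⊗[ℂ] H →ₗ[ℂ] H ⊗[ℂ] H) :=
  TensorProduct.lift
    (LinearMap.mk₂ ℂ (fun a b => TensorProduct.map (ρ a).toLinearMap (σ b).toLinearMap)
      (fun a a' b => by
        apply TensorProduct.ext'
        intro x y
        simp [TensorProduct.add_tmul])
      (fun c a b => by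
        apply TensorProduct.ext'
        intro x y
        simp [TensorProduct.smul_tmul'])
      (fun a b b' => by
        apply TensorProduct.ext'
        intro x y
        simp [TensorProduct.tmul_add])
      (fun c a b => by
        apply TensorProduct.ext'
        intro x y
        simp))

@[simp] lemma top_tmul (a : A) (b : B) (x y : H) :
    top ρ σ (a ⊗ₜ b) (x ⊗ₜ y) = (ρ a x) ⊗ₜ (σ b y) := by
  simp [top]

lemma top_eq_tv (z : A ⊗[ℂ] B) (x y : H) : top ρ σ z (x ⊗ₜ y) = tv ρ σ x y z := by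
  induction z with
  | zero => simp
  | tmul a b => simp
  | add v w hv hw => simp only [map_add, LinearMap.add_apply, hv, hw]

lemma top_adj (z : A ⊗[ℂ] B) (v w : H ⊗[ℂ] H) :
    ⟪top ρ σ (star z) v, w⟫_ℂ = ⟪v, top ρ σ z w⟫_ℂ := by
  induction z with
  | zero => simp
  | add z z' hz hz' =>
    simp only [map_add, star_add, LinearMap.add_apply, inner_add_left, inner_add_right, hz, hz']
  | tmul a b =>
    induction v with
    | zero => simp
    | add v v' hv hv' => simp only [map_add, inner_add_left, hv, hv']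
    | tmul x y =>
      induction w with
      | zero => simp
      | add w w' hw hw' => simp only [map_add, inner_add_right, hw, hw']
      | tmul x' y' =>
        simp only [TensorProduct.star_tmul, top_tmul, TensorProduct.inner_tmul, map_star,
          ContinuousLinearMap.star_eq_adjoint, ContinuousLinearMap.adjoint_inner_left]

lemma top_mul (z z' : A ⊗[ℂ] B) (v : H ⊗[ℂ] H) :
    top ρ σ (z * z') v = top ρ σ z (top ρ σ z' v) := by
  induction z with
  | zero => simp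
  | add y y' hy hy' => simp only [map_add, add_mul, LinearMap.add_apply, hy, hy']
  | tmul a b =>
    induction z' with
    | zero => simp
    | add y y' hy hy' => simp only [map_add, mul_add, LinearMap.add_apply, hy, hy']
    | tmul a' b' =>
      induction v with
      | zero => simp
      | add v v' hv hv' => simp only [map_add, hv, hv']
      | tmul x y => simp

lemma vecFun_star_mul (ξ η : H) (v w : A ⊗[ℂ] B) :
    vecFun ρ σ ξ η (star v * w) = ⟪tv ρ σ ξ η v, tv ρ σ ξ η w⟫_ℂ := by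
  rw [vecFun_apply, ← top_eq_tv, ← top_eq_tv, ← top_eq_tv, top_mul]
  have := top_adj ρ σ (star v) (ξ ⊗ₜ[ℂ] η) (top ρ σ w (ξ ⊗ₜ[ℂ] η))
  rw [star_star] at this
  exact this.symm

lemma vecFun_isState {ξ η : H} (hξ : ‖ξ‖ ≤ 1) (hη : ‖η‖ ≤ 1) : IsState (vecFun ρ σ ξ η) where
  bound a b := by
    rw [vecFun_apply, tv_tmul, TensorProduct.inner_tmul, norm_mul]
    have h1 : ∀ (T : H →L[ℂ] H) (x : H), ‖x‖ ≤ 1 → ‖⟪x, T x⟫_ℂ‖ ≤ ‖T‖ := by
      intro T x hx
      calc ‖⟪x, T x⟫_ℂ‖ ≤ ‖x‖ * ‖T x‖ := norm_inner_le_norm _ _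
        _ ≤ 1 * (‖T‖ * ‖x‖) := by gcongr; exact T.le_opNorm x
        _ ≤ 1 * (‖T‖ * 1) := by gcongr
        _ = ‖T‖ := by ring
    have h2 : ‖ρ a‖ ≤ ‖a‖ := NonUnitalStarAlgHom.norm_apply_le ρ a
    have h3 : ‖σ b‖ ≤ ‖b‖ := NonUnitalStarAlgHom.norm_apply_le σ b
    exact mul_le_mul ((h1 _ _ hξ).trans h2) ((h1 _ _ hη).trans h3) (norm_nonneg _) (norm_nonneg _)
  re_nonneg y := by
    rw [vecFun_star_mul]
    have := inner_self_nonneg (𝕜 := ℂ) (x := tv ρ σ ξ η y)
    exact this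
  im_eq_zero y := by
    rw [vecFun_star_mul]
    have := inner_self_im (𝕜 := ℂ) (tv ρ σ ξ η y)
    exact this

/-- separation: an element killed by all vectors is zero -/
lemma eq_zero_of_top (hρ : Function.Injective ρ) (hσ : Function.Injective σ) (z : A ⊗[ℂ] B)
    (h : ∀ x y, top ρ σ z (x ⊗ₜ y) = 0) : z = 0 := by
  classical
  let 𝓑 := Module.Basis.ofVectorSpace ℂ B
  obtain ⟨c, rfl⟩ := TensorProduct.eq_repr_basis_right 𝓑 z
  suffices hc : c = 0 by simp [hc]
  -- slice maps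
  have key : ∀ x x' : H, (c.sum fun i a => ⟪x', ρ a x⟫_ℂ • 𝓑 i) = 0 := by
    intro x x'
    apply hσ
    rw [map_zero]
    ext y
    refine ext_inner_left ℂ fun y' => ?_
    have h1 := congrArg (fun v => ⟪x' ⊗ₜ[ℂ] y', v⟫_ℂ) (h x y)
    simp only [inner_zero_right] at h1
    rw [zero_apply, inner_zero_right]
    rw [← h1]
    simp only [Finsupp.sum, map_sum, LinearMap.sum_apply, top_tmul, inner_sum,
      TensorProduct.inner_tmul, map_smul]
    rw [ContinuousLinearMap.sum_apply, inner_sum]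
    refine Finset.sum_congr rfl fun i _ => ?_
    rw [smul_apply, inner_smul_right]
  ext i
  rw [Finsupp.zero_apply]
  apply hρ
  rw [map_zero]
  ext x
  refine ext_inner_left ℂ fun x' => ?_
  rw [zero_apply, inner_zero_right]
  have h1 := key x x'
  have h2 := 𝓑.linearIndependent
  rw [linearIndependent_iff] at h2
  have h3 := h2 (c.mapRange (fun a => ⟪x', ρ a x⟫_ℂ) (by simp)) (by
    rw [Finsupp.linearCombination_apply, Finsupp.sum_mapRange_index (by simp)]
    exact h1)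
  have h4 := DFunLike.congr_fun h3 i
  simpa using h4

/-- A GNS representation dominating all states is faithful. -/
lemma gns_eq_zero (hρ : Function.Injective ρ) (hσ : Function.Injective σ)
    {Φ : A ⊗[ℂ] B →ₗ[ℂ] ℂ} (hΦ : IsPos Φ)
    (hall : ∀ Ψ : A ⊗[ℂ] B →ₗ[ℂ] ℂ, IsState Ψ → ∀ x y,
      (Ψ (star (x * y) * (x * y))).re ≤ ‖gns (toBPos hΦ) x‖ ^ 2 * (Ψ (star y * y)).re)
    (z : A ⊗[ℂ] B) (hz : gns (toBPos hΦ) z = 0) : z = 0 := by
  -- unit vectors first
  have h1 : ∀ ξ η : H, ‖ξ‖ ≤ 1 → ‖η‖ ≤ 1 → top ρ σ (z * star z) (ξ ⊗ₜ η) = 0 := by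
    intro ξ η hξ hη
    have h2 := hall _ (vecFun_isState ρ σ hξ hη) z (star z)
    rw [hz, norm_zero, vecFun_star_mul] at h2
    have h3 : ‖tv ρ σ ξ η (z * star z)‖ ^ 2 ≤ 0 := by
      have e : (⟪tv ρ σ ξ η (z * star z), tv ρ σ ξ η (z * star z)⟫_ℂ).re =
          ‖tv ρ σ ξ η (z * star z)‖ ^ 2 := by
        have := inner_self_eq_norm_sq (𝕜 := ℂ) (tv ρ σ ξ η (z * star z))
        exact this
      rw [← e]
      simpa using h2
    have h4 : ‖tv ρ σ ξ η (z * star z)‖ = 0 := by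
      have := le_antisymm h3 (sq_nonneg _)
      exact pow_eq_zero_iff (n := 2) (by norm_num) |>.1 this
    rw [top_eq_tv]
    exact norm_eq_zero.1 h4
  have h5 : ∀ ξ η : H, top ρ σ (z * star z) (ξ ⊗ₜ η) = 0 := by
    intro ξ η
    have hs : ∀ v : H, ∃ (r : ℂ) (v' : H), ‖v'‖ ≤ 1 ∧ v = r • v' := by
      intro v
      refine ⟨((‖v‖ + 1 : ℝ) : ℂ), (((‖v‖ + 1)⁻¹ : ℝ) : ℂ) • v, ?_, ?_⟩
      · rw [norm_smul, Complex.norm_real, norm_inv, Real.norm_of_nonneg (by positivity)]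
        rw [inv_mul_le_iff₀ (by positivity)]
        linarith
      · rw [smul_smul, ← Complex.ofReal_mul, mul_inv_cancel₀ (by positivity)]
        simp
    obtain ⟨r, ξ', hξ', rfl⟩ := hs ξ
    obtain ⟨s, η', hη', rfl⟩ := hs η
    rw [TensorProduct.smul_tmul_smul, map_smul, h1 ξ' η' hξ' hη', smul_zero]
  have h6 : ∀ v : H ⊗[ℂ] H, top ρ σ (z * star z) v = 0 := by
    intro v
    induction v with
    | zero => simp
    | tmul x y => exact h5 x y
    | add v w hv hw => rw [map_add, hv, hw, add_zero]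
  have h7 : ∀ v : H ⊗[ℂ] H, top ρ σ (star z) v = 0 := by
    intro v
    have h8 := top_adj ρ σ z v (top ρ σ (star z) v)
    rw [← top_mul, h6, inner_zero_right] at h8
    exact inner_self_eq_zero.1 h8
  have h9 : star z = 0 := eq_zero_of_top ρ σ hρ hσ _ fun x y => h7 _
  rw [← star_star z, h9, star_zero]

end Pool.Agent.helper77
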