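import Mathlib

set_option autoImplicit false

namespace Pool.Agent.helper77

open Set Topology

section Selection

variable {Y : Type*} [TopologicalSpace Y]

/-- The cylinder of binary sequences extending the list `u`. -/
def cyl (u : List Bool) : Set (ℕ → Bool) := {c | ∀ i : Fin u.length, c i = u.get i}

lemma isClosed_cyl (u : List Bool) : IsClosed (cyl u) := by
  have : cyl u = ⋂ i : Fin u.length, {c : ℕ → Bool | c i = u.get i} := by
    ext c; simp [cyl]
  rw [this]
  refine isClosed_iInter fun i => ?_
  exact isClosed_eq (continuous_apply _) continuous_const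

/-- the set of parameters for which the section of `K` meets the cylinder `u` -/
def hit (K : Set (Y × (ℕ → Bool))) (u : List Bool) : Set Y := {y | ∃ c ∈ cyl u, (y, c) ∈ K}

lemma isClosed_hit {K : Set (Y × (ℕ → Bool))} (hK : IsClosed K) (u : List Bool) :
    IsClosed (hit K u) := by
  have h1 : IsClosed (K ∩ (Prod.snd ⁻¹' cyl u)) :=
    hK.inter ((isClosed_cyl u).preimage continuous_snd)
  have h2 : hit K u = Prod.fst '' (K ∩ (Prod.snd ⁻¹' cyl u)) := by
    ext y
    constructor
    · rintro ⟨c, hc, hy⟩
      exact ⟨(y, c), ⟨hy, hc⟩, rfl⟩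
    · rintro ⟨⟨y', c⟩, ⟨hy, hc⟩, rfl⟩
      exact ⟨c, hc, hy⟩
  rw [h2]
  exact isClosedMap_fst_of_compactSpace _ h1

open Classical in
/-- The greedy branch of the section of `K` at `y` extending `u`, cut at level `n` above `u`. -/
noncomputable def branch (K : Set (Y × (ℕ → Bool))) (u : List Bool) (y : Y) : ℕ → List Bool
  | 0 => u
  | n + 1 =>
      if y ∈ hit K (branch K u y n ++ [false]) then branch K u y n ++ [false]
      else branch K u y n ++ [true]

lemma cyl_split (u : List Bool) : cyl u = cyl (u ++ [false]) ∪ cyl (u ++ [true]) := by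
  ext c
  simp only [cyl, mem_ofPred_eq, mem_union]
  constructor
  · intro h
    rcases hb : c u.length with _ | _
    · left
      rintro ⟨i, hi⟩
      simp only [List.length_append, List.length_cons, List.length_nil, zero_add] at hi
      rcases Nat.lt_succ_iff_lt_or_eq.mp hi with h1 | h1
      · have := h ⟨i, h1⟩
        simpa [List.getElem_append, h1] using this
      · subst h1
        simpa [List.getElem_append] using hb
    · right
      rintro ⟨i, hi⟩
      simp only [List.length_append, List.length_cons, List.length_nil, zero_add] at hi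
      rcases Nat.lt_succ_iff_lt_or_eq.mp hi with h1 | h1
      · have := h ⟨i, h1⟩
        simpa [List.getElem_append, h1] using this
      · subst h1
        simpa [List.getElem_append] using hb
  · rintro (h | h)
    all_goals
      rintro ⟨i, hi⟩
      have := h ⟨i, by simp; omega⟩
      simpa [List.getElem_append, hi] using this

lemma hit_split (K : Set (Y × (ℕ → Bool))) (u : List Bool) (y : Y) (h : y ∈ hit K u)
    (h' : y ∉ hit K (u ++ [false])) : y ∈ hit K (u ++ [true]) := by
  obtain ⟨c, hc, hy⟩ := h
  rw [cyl_split] at hc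
  rcases hc with hc | hc
  · exact absurd ⟨c, hc, hy⟩ h'
  · exact ⟨c, hc, hy⟩

lemma branch_mem (K : Set (Y × (ℕ → Bool))) (u : List Bool) (y : Y) (h : y ∈ hit K u) (n : ℕ) :
    y ∈ hit K (branch K u y n) := by
  induction n with
  | zero => exact h
  | succ n ih =>
    rw [branch]
    split_ifs with h1
    · exact h1
    · exact hit_split K _ y ih h1

lemma branch_length (K : Set (Y × (ℕ → Bool))) (u : List Bool) (y : Y) (n : ℕ) :
    (branch K u y n).length = u.length + n := by
  induction n with
  | zero => rfl
  | succ n ih =>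
    rw [branch]
    split_ifs
    all_goals simp [ih]; omega

lemma branch_prefix (K : Set (Y × (ℕ → Bool))) (u : List Bool) (y : Y) (n : ℕ) :
    branch K u y n <+: branch K u y (n + 1) := by
  rw [branch]
  split_ifs
  all_goals exact List.prefix_append _ _

lemma branch_prefix' (K : Set (Y × (ℕ → Bool))) (u : List Bool) (y : Y) {m n : ℕ} (h : m ≤ n) :
    branch K u y m <+: branch K u y n := by
  induction h with
  | refl => exact List.prefix_refl _
  | step _ ih => exact ih.trans (branch_prefix K u y _)

/-- The limit point in the Cantor space of the greedy branch. -/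
noncomputable def limPt (K : Set (Y × (ℕ → Bool))) (u : List Bool) (y : Y) : ℕ → Bool :=
  fun i => (branch K u y (i + 1)).getD i false

lemma limPt_eq (K : Set (Y × (ℕ → Bool))) (u : List Bool) (y : Y) (n i : ℕ)
    (hi : i < (branch K u y n).length) : limPt K u y i = (branch K u y n)[i] := by
  have h1 : i < (branch K u y (i + 1)).length := by rw [branch_length]; omega
  have h2 : limPt K u y i = (branch K u y (i + 1))[i] := by
    simp [limPt, List.getD_eq_getElem?_getD, List.getElem?_eq_getElem h1]
  rw [h2]
  rcases le_total n (i + 1) with h | h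
  · exact (List.IsPrefix.getElem (branch_prefix' K u y h) hi).symm
  · exact List.IsPrefix.getElem (branch_prefix' K u y h) h1

lemma limPt_mem_cyl (K : Set (Y × (ℕ → Bool))) (u : List Bool) (y : Y) (n : ℕ) :
    limPt K u y ∈ cyl (branch K u y n) := by
  rintro ⟨i, hi⟩
  simpa using limPt_eq K u y n i hi

lemma limPt_mem {K : Set (Y × (ℕ → Bool))} (hK : IsClosed K) (u : List Bool) (y : Y)
    (h : y ∈ hit K u) : (y, limPt K u y) ∈ K := by
  have h1 : ∀ n, ∃ c ∈ cyl (branch K u y n), (y, c) ∈ K := fun n => branch_mem K u y h n
  choose c hc hyc using h1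
  have h2 : Filter.Tendsto c Filter.atTop (𝓝 (limPt K u y)) := by
    rw [tendsto_pi_nhds]
    intro i
    refine tendsto_const_nhds.congr' ?_
    filter_upwards [Filter.eventually_gt_atTop i] with n hn
    have hi : i < (branch K u y n).length := by rw [branch_length]; omega
    rw [limPt_eq K u y n i hi]
    have := hc n ⟨i, hi⟩
    simpa using this.symm
  exact hK.mem_of_tendsto (tendsto_const_nhds.prodMk_nhds h2) (Filter.Eventually.of_forall hyc)

variable [MeasurableSpace Y] [BorelSpace Y]

lemma measurableSet_branch {K : Set (Y × (ℕ → Bool))} (hK : IsClosed K) (u : List Bool) (n : ℕ)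
    (v : List Bool) : MeasurableSet {y | branch K u y n = v} := by
  induction n generalizing v with
  | zero =>
    simp only [branch]
    by_cases h : u = v <;> simp [h]
  | succ n ih =>
    have : {y | branch K u y (n + 1) = v} =
        ⋃ w : List Bool, ({y | branch K u y n = w} ∩
          ((hit K (w ++ [false]) ∩ {_y | w ++ [false] = v}) ∪
            ((hit K (w ++ [false]))ᶜ ∩ {_y | w ++ [true] = v}))) := by
      ext y
      simp only [mem_ofPred_eq, mem_iUnion, mem_inter_iff, mem_union, mem_compl_iff]
      constructor
      · intro h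
        refine ⟨branch K u y n, rfl, ?_⟩
        rw [branch] at h
        split_ifs at h with h1
        · exact Or.inl ⟨h1, h⟩
        · exact Or.inr ⟨h1, h⟩
      · rintro ⟨w, rfl, (⟨h1, h2⟩ | ⟨h1, h2⟩)⟩
        · rw [branch, if_pos h1, h2]
        · rw [branch, if_neg h1, h2]
    rw [this]
    refine MeasurableSet.iUnion fun w => (ih w).inter (MeasurableSet.union ?_ ?_)
    · exact (isClosed_hit hK _).measurableSet.inter (MeasurableSet.const _)
    · exact (isClosed_hit hK _).measurableSet.compl.inter (MeasurableSet.const _)

lemma measurable_limPt {K : Set (Y × (ℕ → Bool))} (hK : IsClosed K) (u : List Bool) :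
    Measurable (fun y => limPt K u y) := by
  rw [measurable_pi_iff]
  intro i
  have : MeasurableSet {y | limPt K u y i = true} := by
    have h : {y | limPt K u y i = true} =
        ⋃ v : {v : List Bool // v.getD i false = true}, {y | branch K u y (i + 1) = v.1} := by
      ext y
      simp only [mem_ofPred_eq, mem_iUnion, limPt]
      constructor
      · intro h
        exact ⟨⟨_, h⟩, rfl⟩
      · rintro ⟨⟨v, hv⟩, h⟩
        simp only at h
        rw [h]; exact hv
    rw [h]
    exact MeasurableSet.iUnion fun v => measurableSet_branch hK u _ _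
  refine measurable_to_bool ?_
  exact this

/-- **Measurable selectors** for a closed set with non-empty sections in a compact metrizable
space: there is a sequence of Borel selectors that is dense in every section. -/
theorem exists_dense_selectors {X : Type*} [TopologicalSpace X]
    [TopologicalSpace.MetrizableSpace X] [CompactSpace X] [MeasurableSpace X]
    [BorelSpace X] (K : Set (Y × X)) (hK : IsClosed K) (hne : ∀ y, ∃ x, (y, x) ∈ K) :
    ∃ f : ℕ → Y → X, (∀ n, Measurable (f n)) ∧ (∀ n y, (y, f n y) ∈ K) ∧
      ∀ y x, (y, x) ∈ K → x ∈ closure (range fun n => f n y) := by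
  classical
  rcases isEmpty_or_nonempty Y with hY | hY
  · refine ⟨fun _ y => (hY.false y).elim, fun n => measurable_of_empty _,
      fun n y => (hY.false y).elim, fun y => (hY.false y).elim⟩
  obtain ⟨y0⟩ := hY
  obtain ⟨x0, _⟩ := hne y0
  have : Nonempty X := ⟨x0⟩
  obtain ⟨π, hπc, hπs⟩ : ∃ f : (ℕ → Bool) → X, Continuous f ∧ Function.Surjective f := by
    letI : MetricSpace X := TopologicalSpace.metrizableSpaceMetric X
    exact exists_nat_bool_continuous_surjective_of_compact X
  set K' : Set (Y × (ℕ → Bool)) := (fun p => (p.1, π p.2)) ⁻¹' K with hK'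
  have hK'c : IsClosed K' := hK.preimage (by fun_prop)
  have hall : ∀ y, y ∈ hit K' [] := by
    intro y
    obtain ⟨x, hx⟩ := hne y
    obtain ⟨c, rfl⟩ := hπs x
    refine ⟨c, ?_, hx⟩
    rintro ⟨i, hi⟩
    simp at hi
  -- selectors
  let g : List Bool → Y → X := fun u y => if y ∈ hit K' u then π (limPt K' u y) else
    π (limPt K' [] y)
  have hg : ∀ u, Measurable (g u) := by
    intro u
    refine Measurable.ite (isClosed_hit hK'c u).measurableSet ?_ ?_
    · exact hπc.measurable.comp (measurable_limPt hK'c u)
    · exact hπc.measurable.comp (measurable_limPt hK'c [])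
  have hgm : ∀ u y, (y, g u y) ∈ K := by
    intro u y
    by_cases h : y ∈ hit K' u
    · simp only [g, if_pos h]
      exact limPt_mem hK'c u y h
    · simp only [g, if_neg h]
      exact limPt_mem hK'c [] y (hall y)
  obtain ⟨enum, henum⟩ := exists_surjective_nat (List Bool)
  refine ⟨fun n => g (enum n), fun n => hg _, fun n y => hgm _ y, ?_⟩
  intro y x hx
  obtain ⟨c, rfl⟩ := hπs x
  rw [mem_closure_iff_nhds]
  intro t ht
  have h1 : π ⁻¹' t ∈ 𝓝 c := hπc.continuousAt ht
  -- find a cylinder inside
  have h2 : ∃ n, cyl (List.ofFn (fun i : Fin n => c i)) ⊆ π ⁻¹' t := by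
    by_contra hcon
    push Not at hcon
    have h3 : ∀ n, ∃ d, d ∈ cyl (List.ofFn (fun i : Fin n => c i)) ∧ d ∉ π ⁻¹' t := by
      intro n
      exact Set.not_subset.mp (hcon n)
    choose d hd hdt using h3
    have h4 : Filter.Tendsto d Filter.atTop (𝓝 c) := by
      rw [tendsto_pi_nhds]
      intro i
      refine tendsto_const_nhds.congr' ?_
      filter_upwards [Filter.eventually_gt_atTop i] with n hn
      have := hd n ⟨i, by simpa using hn⟩
      simpa using this.symm
    obtain ⟨n, hn⟩ := (h4.eventually h1).exists
    exact hdt n hn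
  obtain ⟨n, hn⟩ := h2
  set u := List.ofFn (fun i : Fin n => c i) with hu
  have hcu : c ∈ cyl u := by
    rintro ⟨i, hi⟩
    simp [hu]
  have hyu : y ∈ hit K' u := ⟨c, hcu, hx⟩
  obtain ⟨k, hk⟩ := henum u
  refine ⟨g u y, ?_, ⟨k, by simp only [hk]⟩⟩
  simp only [g, if_pos hyu]
  exact hn (limPt_mem_cyl K' u y 0)

end Selection

end Pool.Agent.helper77
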