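import Mathlib
import Pool.Agent.helper77.Selection
import Pool.Agent.helper77.Extend

set_option autoImplicit false

namespace Pool.Agent.helper77

open Set Topology Filter TopologicalSpace

/-- parameters: the two norm functions -/
abbrev Par := (Tm → ℝ) × (Tm → ℝ)

/-- normalised functions on pairs of expressions -/
abbrev Cpt := Tm × Tm → Metric.closedBall (0 : ℂ) 1

/-- the weight used for the normalisation -/
noncomputable def wt (y : Par) (p : Tm × Tm) : ℝ := (1 + |y.1 p.1|) * (1 + |y.2 p.2|)

lemma wt_pos (y : Par) (p : Tm × Tm) : 0 < wt y p := by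
  unfold wt; positivity

/-- denormalisation -/
noncomputable def den (q : Par × Cpt) : Tm × Tm → ℂ := fun p => (q.2 p : ℂ) * (wt q.1 p : ℂ)

lemma continuous_den (p : Tm × Tm) : Continuous fun q : Par × Cpt => den q p := by
  unfold den wt
  have h1 : Continuous fun q : Par × Cpt => ((q.2 p : Metric.closedBall (0 : ℂ) 1) : ℂ) :=
    continuous_subtype_val.comp ((continuous_apply p).comp continuous_snd)
  have h2 : Continuous fun q : Par × Cpt => (1 + |q.1.1 p.1|) * (1 + |q.1.2 p.2|) := by
    have a1 : Continuous fun q : Par × Cpt => q.1.1 p.1 :=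
      (continuous_apply p.1).comp (continuous_fst.comp continuous_fst)
    have a2 : Continuous fun q : Par × Cpt => q.1.2 p.2 :=
      (continuous_apply p.2).comp (continuous_snd.comp continuous_fst)
    fun_prop
  exact h1.mul (Complex.continuous_ofReal.comp h2)

/-- the closed set of compatible pairs -/
def compatSet : Set (Par × Cpt) := {q | Compat q.1.1 q.1.2 (den q)}

lemma compat_iff (a b : Tm → ℝ) (φ : Tm × Tm → ℂ) : Compat a b φ ↔
    (∀ s t, ‖φ (s, t)‖ ≤ |a s| * |b t|) ∧
    (∀ s s' t, φ (.add s s', t) = φ (s, t) + φ (s', t)) ∧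
    (∀ s t t', φ (s, .add t t') = φ (s, t) + φ (s, t')) ∧
    (∀ c s t, φ (.smul c s, t) = qc c * φ (s, t)) ∧
    (∀ c s t, φ (s, .smul c t) = qc c * φ (s, t)) ∧
    (∀ (n : ℕ) (p : Fin n → Tm × Tm), 0 ≤
      (∑ i, ∑ j, φ (.mul (.st (p i).1) (p j).1, .mul (.st (p i).2) (p j).2)).re) ∧
    (∀ (n : ℕ) (p : Fin n → Tm × Tm),
      (∑ i, ∑ j, φ (.mul (.st (p i).1) (p j).1, .mul (.st (p i).2) (p j).2)).im = 0) :=
  ⟨fun h => ⟨h.1, h.2, h.3, h.4, h.5, h.6, h.7⟩,
    fun ⟨h1, h2, h3, h4, h5, h6, h7⟩ => ⟨h1, h2, h3, h4, h5, h6, h7⟩⟩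

lemma isClosed_compatSet : IsClosed compatSet := by
  have hc := continuous_den
  have hy1 : ∀ s, Continuous fun q : Par × Cpt => |q.1.1 s| := fun s =>
    ((continuous_apply s).comp (continuous_fst.comp continuous_fst)).abs
  have hy2 : ∀ s, Continuous fun q : Par × Cpt => |q.1.2 s| := fun s =>
    ((continuous_apply s).comp (continuous_snd.comp continuous_fst)).abs
  have hsum : ∀ (n : ℕ) (p : Fin n → Tm × Tm), Continuous fun q : Par × Cpt =>
      ∑ i, ∑ j, den q (.mul (.st (p i).1) (p j).1, .mul (.st (p i).2) (p j).2) := fun n p =>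
    continuous_finset_sum _ fun i _ => continuous_finset_sum _ fun j _ => hc _
  unfold compatSet
  simp only [compat_iff, setOf_and, setOf_forall]
  refine IsClosed.inter ?_ (IsClosed.inter ?_ (IsClosed.inter ?_ (IsClosed.inter ?_
    (IsClosed.inter ?_ (IsClosed.inter ?_ ?_)))))
  · exact isClosed_iInter fun s => isClosed_iInter fun t =>
      isClosed_le (hc _).norm ((hy1 s).mul (hy2 t))
  · exact isClosed_iInter fun s => isClosed_iInter fun s' => isClosed_iInter fun t =>
      isClosed_eq (hc _) ((hc _).add (hc _))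
  · exact isClosed_iInter fun s => isClosed_iInter fun s' => isClosed_iInter fun t =>
      isClosed_eq (hc _) ((hc _).add (hc _))
  · exact isClosed_iInter fun s => isClosed_iInter fun s' => isClosed_iInter fun t =>
      isClosed_eq (hc _) (continuous_const.mul (hc _))
  · exact isClosed_iInter fun s => isClosed_iInter fun s' => isClosed_iInter fun t =>
      isClosed_eq (hc _) (continuous_const.mul (hc _))
  · exact isClosed_iInter fun n => isClosed_iInter fun p =>
      isClosed_le continuous_const (Complex.continuous_re.comp (hsum n p))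
  · exact isClosed_iInter fun n => isClosed_iInter fun p =>
      isClosed_eq (Complex.continuous_im.comp (hsum n p)) continuous_const

lemma compatSet_nonempty (y : Par) : ∃ x, (y, x) ∈ compatSet := by
  refine ⟨fun _ => ⟨0, by simp⟩, ?_⟩
  unfold compatSet
  simp only [mem_ofPred_eq]
  have : den (y, fun _ => ⟨0, by simp⟩) = fun _ => 0 := by
    ext p; simp [den]
  rw [this]
  refine ⟨fun s t => ?_, ?_, ?_, ?_, ?_, ?_, ?_⟩
  · simp only [norm_zero]; positivity
  all_goals simp

/-- Borel selection of a sequence of compatible functions which is dense among all of them. -/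
theorem exists_select : ∃ F : ℕ → Par → Tm × Tm → ℂ,
    (∀ k i, Measurable fun y => F k y i) ∧ (∀ k (y : Par), Compat y.1 y.2 (F k y)) ∧
    ∀ (y : Par) (φ : Tm × Tm → ℂ), Compat y.1 y.2 φ → ∀ (S : Finset (Tm × Tm)) (ε : ℝ), 0 < ε →
      ∃ k, ∀ i ∈ S, ‖F k y i - φ i‖ < ε := by
  obtain ⟨f, hf1, hf2, hf3⟩ := exists_dense_selectors compatSet isClosed_compatSet
    compatSet_nonempty
  refine ⟨fun k y => den (y, f k y), ?_, fun k y => hf2 k y, ?_⟩
  · intro k i
    exact (continuous_den i).measurable.comp (measurable_id.prodMk (hf1 k))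
  · intro y φ hφ S ε hε
    have hle : ∀ p : Tm × Tm, ‖φ p‖ ≤ wt y p := by
      rintro ⟨s, t⟩
      refine (hφ.bound s t).trans ?_
      unfold wt
      have h1 := abs_nonneg (y.1 s)
      have h2 := abs_nonneg (y.2 t)
      simp only
      nlinarith
    let x : Cpt := fun p => ⟨φ p / (wt y p : ℂ), by
      rw [mem_closedBall_zero_iff, norm_div, Complex.norm_real,
        Real.norm_of_nonneg (wt_pos y p).le]
      exact (div_le_one (wt_pos y p)).2 (hle p)⟩
    have hden : den (y, x) = φ := by
      ext p
      have : (wt y p : ℂ) ≠ 0 := Complex.ofReal_ne_zero.2 (wt_pos y p).ne'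
      simp only [den, x]
      field_simp
    have hx : (y, x) ∈ compatSet := by
      unfold compatSet
      simp only [mem_ofPred_eq]
      rw [hden]
      exact hφ
    have h1 := hf3 y x hx
    rw [mem_closure_iff_nhds] at h1
    let t : Set Cpt := ⋂ i ∈ S, {z : Cpt | ‖den (y, z) i - φ i‖ < ε}
    have ht : t ∈ 𝓝 x := by
      refine (Filter.biInter_finset_mem S).2 fun i _ => ?_
      have hopen : IsOpen {z : Cpt | ‖den (y, z) i - φ i‖ < ε} := by
        have : Continuous fun z : Cpt => ‖den (y, z) i - φ i‖ :=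
          (((continuous_den i).comp (continuous_const.prodMk continuous_id)).sub
            continuous_const).norm
        exact isOpen_lt this continuous_const
      refine hopen.mem_nhds ?_
      simp only [mem_ofPred_eq, hden, sub_self, norm_zero]
      exact hε
    obtain ⟨z, hz, ⟨k, rfl⟩⟩ := h1 t ht
    refine ⟨k, fun i hi => ?_⟩
    simp only [t, mem_iInter] at hz
    exact hz i hi

end Pool.Agent.helper77
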