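import Mathlib
import Pool.Agent.helper77.States

set_option autoImplicit false

namespace Pool.Agent.helper77

open Set Topology Filter TopologicalSpace
open scoped TensorProduct

variable {A B : Type*} [NonUnitalCStarAlgebra A] [NonUnitalCStarAlgebra B]

lemma exists_state_bound (x : A ⊗[ℂ] B) : ∃ C : ℝ, 0 ≤ C ∧
    ∀ Ψ : A ⊗[ℂ] B →ₗ[ℂ] ℂ, IsState Ψ → ‖Ψ x‖ ≤ C := by
  induction x with
  | zero => exact ⟨0, le_rfl, fun Ψ _ => by simp⟩
  | tmul a b => exact ⟨‖a‖ * ‖b‖, by positivity, fun Ψ h => h.bound a b⟩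
  | add v w hv hw =>
    obtain ⟨C, hC0, hC⟩ := hv
    obtain ⟨C', hC0', hC'⟩ := hw
    exact ⟨C + C', by positivity, fun Ψ h => by
      rw [map_add]; exact (norm_add_le _ _).trans (add_le_add (hC Ψ h) (hC' Ψ h))⟩

/-- approximation of elements by sums of values of expressions, uniformly for all states -/
lemma exists_state_approx (g : ℕ → A) (h : ℕ → B)
    (hg : DenseRange fun t : Tm => t.eval g) (hh : DenseRange fun t : Tm => t.eval h)
    (x : A ⊗[ℂ] B) {ε : ℝ} (hε : 0 < ε) : ∃ (l : List (Tm × Tm)),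
      ∀ Ψ : A ⊗[ℂ] B →ₗ[ℂ] ℂ, IsState Ψ →
        ‖Ψ x - (l.map fun p => Ψ (p.1.eval g ⊗ₜ p.2.eval h)).sum‖ < ε := by
  induction x generalizing ε with
  | zero => exact ⟨[], fun Ψ _ => by simpa using hε⟩
  | tmul a b =>
    obtain ⟨s, hs⟩ := hg.exists_dist_lt a (show 0 < min 1 (ε / (2 * (‖b‖ + 1))) by positivity)
    obtain ⟨t, ht⟩ := hh.exists_dist_lt b (show 0 < ε / (2 * (‖a‖ + 2)) by positivity)
    rw [dist_eq_norm] at hs ht
    refine ⟨[(s, t)], fun Ψ hΨ => ?_⟩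
    simp only [List.map_cons, List.map_nil, List.sum_cons, List.sum_nil, add_zero]
    have e : Ψ (a ⊗ₜ b) - Ψ (s.eval g ⊗ₜ t.eval h) =
        Ψ ((a - s.eval g) ⊗ₜ b) + Ψ (s.eval g ⊗ₜ (b - t.eval h)) := by
      rw [TensorProduct.sub_tmul, TensorProduct.tmul_sub, map_sub, map_sub]; ring
    rw [e]
    have h1 : ‖a - s.eval g‖ < 1 := hs.trans_le (min_le_left _ _)
    have h2 : ‖a - s.eval g‖ < ε / (2 * (‖b‖ + 1)) := hs.trans_le (min_le_right _ _)
    have h3 : ‖s.eval g‖ ≤ ‖a‖ + 1 := by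
      have := norm_sub_norm_le (s.eval g) a
      rw [norm_sub_rev] at this
      linarith
    calc _ ≤ ‖a - s.eval g‖ * ‖b‖ + ‖s.eval g‖ * ‖b - t.eval h‖ :=
          (norm_add_le _ _).trans (add_le_add (hΨ.bound _ _) (hΨ.bound _ _))
      _ ≤ ε / (2 * (‖b‖ + 1)) * (‖b‖ + 1) + (‖a‖ + 1) * ‖b - t.eval h‖ := by
          gcongr
          linarith
      _ < ε / (2 * (‖b‖ + 1)) * (‖b‖ + 1) + (‖a‖ + 2) * (ε / (2 * (‖a‖ + 2))) := by
          have h5 : (‖a‖ + 1) * ‖b - t.eval h‖ < (‖a‖ + 2) * (ε / (2 * (‖a‖ + 2))) := by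
            calc (‖a‖ + 1) * ‖b - t.eval h‖ ≤ (‖a‖ + 2) * ‖b - t.eval h‖ := by
                  gcongr; linarith
              _ < _ := by gcongr
          linarith
      _ = ε := by field_simp; ring
  | add v w hv hw =>
    obtain ⟨l, hl⟩ := hv (half_pos hε)
    obtain ⟨l', hl'⟩ := hw (half_pos hε)
    refine ⟨l ++ l', fun Ψ hΨ => ?_⟩
    rw [map_add, List.map_append, List.sum_append]
    have e : Ψ v + Ψ w - ((l.map fun p => Ψ (p.1.eval g ⊗ₜ p.2.eval h)).sum +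
        (l'.map fun p => Ψ (p.1.eval g ⊗ₜ p.2.eval h)).sum) =
        (Ψ v - (l.map fun p => Ψ (p.1.eval g ⊗ₜ p.2.eval h)).sum) +
        (Ψ w - (l'.map fun p => Ψ (p.1.eval g ⊗ₜ p.2.eval h)).sum) := by ring
    rw [e]
    have := hl Ψ hΨ
    have := hl' Ψ hΨ
    exact (norm_add_le _ _).trans_lt (by linarith)

/-- The mixture of a dense sequence of states is a state whose GNS representation dominates
every state. -/
theorem exists_universal (g : ℕ → A) (h : ℕ → B)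
    (hg : DenseRange fun t : Tm => t.eval g) (hh : DenseRange fun t : Tm => t.eval h)
    (F : ℕ → Tm × Tm → ℂ)
    (hF : ∀ k, Compat (fun s => ‖s.eval g‖) (fun t => ‖t.eval h‖) (F k))
    (hd : ∀ φ, Compat (fun s => ‖s.eval g‖) (fun t => ‖t.eval h‖) φ → ∀ (S : Finset (Tm × Tm))
      (ε : ℝ), 0 < ε → ∃ k, ∀ i ∈ S, ‖F k i - φ i‖ < ε) :
    ∃ (Φ : A ⊗[ℂ] B →ₗ[ℂ] ℂ) (hΦ : IsState Φ),
      (∀ s t, Φ (s.eval g ⊗ₜ t.eval h) = ∑' k, ((1 / 2 : ℝ) ^ (k + 1) : ℂ) * F k (s, t)) ∧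
      ∀ Ψ : A ⊗[ℂ] B →ₗ[ℂ] ℂ, IsState Ψ → ∀ x y,
        (Ψ (star (x * y) * (x * y))).re ≤
          ‖gns (toBPos hΦ.isPos) x‖ ^ 2 * (Ψ (star y * y)).re := by
  classical
  have h1 : ∀ k, ∃ Φ : A ⊗[ℂ] B →ₗ[ℂ] ℂ, IsState Φ ∧
      ∀ s t, Φ (s.eval g ⊗ₜ t.eval h) = F k (s, t) := fun k =>
    (hF k).exists_functional g h hg hh
  choose Φk hΦk hΦkv using h1
  have hgeo : Summable fun k : ℕ => ((1 / 2 : ℝ)) ^ (k + 1) :=
    (summable_nat_add_iff 1).2 summable_geometric_two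
  have hsum : ∀ x, Summable fun k => ((1 / 2 : ℝ) ^ (k + 1) : ℂ) * Φk k x := by
    intro x
    obtain ⟨C, hC0, hC⟩ := exists_state_bound x
    refine Summable.of_norm_bounded (g := fun k => (1 / 2 : ℝ) ^ (k + 1) * C)
      (hgeo.mul_right C) fun k => ?_
    rw [norm_mul, norm_pow, Complex.norm_real, Real.norm_of_nonneg (by norm_num)]
    gcongr
    exact hC _ (hΦk k)
  let Φ : A ⊗[ℂ] B →ₗ[ℂ] ℂ :=
    { toFun := fun x => ∑' k, ((1 / 2 : ℝ) ^ (k + 1) : ℂ) * Φk k x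
      map_add' := fun x y => by
        rw [← (hsum x).tsum_add (hsum y)]
        congr 1; ext k; rw [map_add]; ring
      map_smul' := fun c x => by
        rw [RingHom.id_apply, smul_eq_mul, ← tsum_mul_left]
        congr 1; ext k; rw [map_smul, smul_eq_mul]; ring }
  have hΦdef : ∀ x, Φ x = ∑' k, ((1 / 2 : ℝ) ^ (k + 1) : ℂ) * Φk k x := fun x => rfl
  have hre : ∀ x, HasSum (fun k => (1 / 2 : ℝ) ^ (k + 1) * (Φk k x).re) (Φ x).re := by
    intro x
    have := Complex.hasSum_re (hsum x).hasSum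
    refine this.congr_fun ?_ |> fun h => h
    intro k
    have e : ((1 / 2 : ℝ) ^ (k + 1) : ℂ) = (((1 / 2 : ℝ) ^ (k + 1) : ℝ) : ℂ) := by push_cast; rfl
    rw [e, Complex.re_ofReal_mul]
  have him : ∀ x, HasSum (fun k => (1 / 2 : ℝ) ^ (k + 1) * (Φk k x).im) (Φ x).im := by
    intro x
    have := Complex.hasSum_im (hsum x).hasSum
    refine this.congr_fun ?_ |> fun h => h
    intro k
    have e : ((1 / 2 : ℝ) ^ (k + 1) : ℂ) = (((1 / 2 : ℝ) ^ (k + 1) : ℝ) : ℂ) := by push_cast; rfl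
    rw [e, Complex.im_ofReal_mul]
  have hpos : IsPos Φ := by
    refine ⟨fun y => ?_, fun y => ?_⟩
    · exact (hre (star y * y)).nonneg fun k => mul_nonneg (by positivity) ((hΦk k).re_nonneg y)
    · have h2 := him (star y * y)
      simp only [(hΦk _).im_eq_zero y, mul_zero] at h2
      exact (h2.unique hasSum_zero)
  have hstate : IsState Φ := by
    refine ⟨fun a b => ?_, hpos.re_nonneg, hpos.im_eq_zero⟩
    have hg1 : HasSum (fun k : ℕ => (1 / 2 : ℝ) ^ (k + 1) * (‖a‖ * ‖b‖)) (‖a‖ * ‖b‖) := by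
      have := hasSum_geometric_two' (‖a‖ * ‖b‖)
      refine this.congr_fun ?_ |> fun h => h
      intro k
      rw [div_div, ← pow_succ', div_pow, one_pow]
      ring
    refine tsum_of_norm_bounded hg1 fun k => ?_
    rw [norm_mul, norm_pow, Complex.norm_real, Real.norm_of_nonneg (by norm_num)]
    gcongr
    exact (hΦk k).bound a b
  refine ⟨Φ, hstate, fun s t => ?_, ?_⟩
  · rw [hΦdef]
    simp only [hΦkv]
  -- the estimate for the members of the sequence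
  have hk : ∀ k x y, (Φk k (star (x * y) * (x * y))).re ≤
      ‖gns (toBPos hpos) x‖ ^ 2 * (Φk k (star y * y)).re := by
    intro k x y
    refine dominated_bound (toBPos hpos) (hΦk k).isPos (2 ^ (k + 1)) (fun z => ?_) x y
    have h2 := hre (star z * z)
    have h3 : (1 / 2 : ℝ) ^ (k + 1) * (Φk k (star z * z)).re ≤ (Φ (star z * z)).re :=
      le_hasSum h2 k fun j _ => mul_nonneg (by positivity) ((hΦk j).re_nonneg z)
    have h4 : (2 : ℝ) ^ (k + 1) * ((1 / 2 : ℝ) ^ (k + 1) * (Φk k (star z * z)).re) ≤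
        2 ^ (k + 1) * (Φ (star z * z)).re := by gcongr
    have h5 : (2 : ℝ) ^ (k + 1) * (1 / 2 : ℝ) ^ (k + 1) = 1 := by
      rw [← mul_pow]; norm_num
    rw [← mul_assoc, h5, one_mul] at h4
    exact h4
  intro Ψ hΨ x y
  set M := ‖gns (toBPos hpos) x‖ ^ 2 with hM
  have hM0 : 0 ≤ M := by positivity
  refine le_of_forall_pos_le_add fun ε hε => ?_
  set z1 := star (x * y) * (x * y) with hz1
  set z2 := star y * y with hz2
  have hε' : 0 < ε / (3 * (M + 1)) := by positivity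
  obtain ⟨l1, hl1⟩ := exists_state_approx g h hg hh z1 hε'
  obtain ⟨l2, hl2⟩ := exists_state_approx g h hg hh z2 hε'
  obtain ⟨k, hkd⟩ := hd _ (hΨ.compat g h) ((l1 ++ l2).toFinset)
    (ε / (3 * (M + 1)) / ((l1.length + l2.length : ℕ) + 1)) (by positivity)
  have hclose : ∀ l : List (Tm × Tm), (∀ p ∈ l, p ∈ l1 ++ l2) → l.length ≤ l1.length + l2.length →
      ‖(l.map fun p => Φk k (p.1.eval g ⊗ₜ p.2.eval h)).sum -
        (l.map fun p => Ψ (p.1.eval g ⊗ₜ p.2.eval h)).sum‖ ≤ ε / (3 * (M + 1)) := by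
    intro l hl hlen
    have h2 : ‖(l.map fun p => Φk k (p.1.eval g ⊗ₜ p.2.eval h)).sum -
        (l.map fun p => Ψ (p.1.eval g ⊗ₜ p.2.eval h)).sum‖ ≤
        l.length * (ε / (3 * (M + 1)) / ((l1.length + l2.length : ℕ) + 1)) := by
      clear hlen
      induction l with
      | nil => simp
      | cons p l ih =>
        have h3 := ih fun q hq => hl q (List.mem_cons_of_mem _ hq)
        have h4 := hkd p (by rw [List.mem_toFinset]; exact hl p List.mem_cons_self)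
        rw [← hΦkv] at h4
        simp only [List.map_cons, List.sum_cons, List.length_cons]
        have e : Φk k (p.1.eval g ⊗ₜ p.2.eval h) +
            (l.map fun p => Φk k (p.1.eval g ⊗ₜ p.2.eval h)).sum -
            (Ψ (p.1.eval g ⊗ₜ p.2.eval h) + (l.map fun p => Ψ (p.1.eval g ⊗ₜ p.2.eval h)).sum) =
            (Φk k (p.1.eval g ⊗ₜ p.2.eval h) - Ψ (p.1.eval g ⊗ₜ p.2.eval h)) +
            ((l.map fun p => Φk k (p.1.eval g ⊗ₜ p.2.eval h)).sum -
            (l.map fun p => Ψ (p.1.eval g ⊗ₜ p.2.eval h)).sum) := by ring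
        rw [e]
        refine (norm_add_le _ _).trans ?_
        rw [Nat.cast_add l.length 1, Nat.cast_one, add_mul, one_mul, add_comm]
        exact add_le_add h3 h4.le
    refine h2.trans ?_
    rw [mul_div_assoc', div_le_iff₀ (by positivity)]
    have h6 : (l.length : ℝ) ≤ ((l1.length + l2.length : ℕ) : ℝ) := by exact_mod_cast hlen
    nlinarith
  have hd1 : |(Φk k z1).re - (Ψ z1).re| ≤ 3 * (ε / (3 * (M + 1))) := by
    rw [← Complex.sub_re]
    refine (Complex.abs_re_le_norm _).trans ?_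
    have a1 := hl1 _ (hΦk k)
    have a2 := hl1 _ hΨ
    have a3 := hclose l1 (fun p hp => List.mem_append_left _ hp) (Nat.le_add_right _ _)
    have e : Φk k z1 - Ψ z1 = (Φk k z1 - (l1.map fun p => Φk k (p.1.eval g ⊗ₜ p.2.eval h)).sum) +
        ((l1.map fun p => Φk k (p.1.eval g ⊗ₜ p.2.eval h)).sum -
          (l1.map fun p => Ψ (p.1.eval g ⊗ₜ p.2.eval h)).sum) -
        (Ψ z1 - (l1.map fun p => Ψ (p.1.eval g ⊗ₜ p.2.eval h)).sum) := by ring
    rw [e]
    refine (norm_sub_le _ _).trans ?_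
    have := norm_add_le (Φk k z1 - (l1.map fun p => Φk k (p.1.eval g ⊗ₜ p.2.eval h)).sum)
        ((l1.map fun p => Φk k (p.1.eval g ⊗ₜ p.2.eval h)).sum -
          (l1.map fun p => Ψ (p.1.eval g ⊗ₜ p.2.eval h)).sum)
    linarith
  have hd2 : |(Φk k z2).re - (Ψ z2).re| ≤ 3 * (ε / (3 * (M + 1))) := by
    rw [← Complex.sub_re]
    refine (Complex.abs_re_le_norm _).trans ?_
    have a1 := hl2 _ (hΦk k)
    have a2 := hl2 _ hΨ
    have a3 := hclose l2 (fun p hp => List.mem_append_right _ hp) (Nat.le_add_left _ _)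
    have e : Φk k z2 - Ψ z2 = (Φk k z2 - (l2.map fun p => Φk k (p.1.eval g ⊗ₜ p.2.eval h)).sum) +
        ((l2.map fun p => Φk k (p.1.eval g ⊗ₜ p.2.eval h)).sum -
          (l2.map fun p => Ψ (p.1.eval g ⊗ₜ p.2.eval h)).sum) -
        (Ψ z2 - (l2.map fun p => Ψ (p.1.eval g ⊗ₜ p.2.eval h)).sum) := by ring
    rw [e]
    refine (norm_sub_le _ _).trans ?_
    have := norm_add_le (Φk k z2 - (l2.map fun p => Φk k (p.1.eval g ⊗ₜ p.2.eval h)).sum)
        ((l2.map fun p => Φk k (p.1.eval g ⊗ₜ p.2.eval h)).sum -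
          (l2.map fun p => Ψ (p.1.eval g ⊗ₜ p.2.eval h)).sum)
    linarith
  have hkk := hk k x y
  rw [abs_le] at hd1 hd2
  have e3 : (M + 1) * (3 * (ε / (3 * (M + 1)))) = ε := by field_simp
  have e4 : M * (Φk k z2).re ≤ M * ((Ψ z2).re + 3 * (ε / (3 * (M + 1)))) := by
    gcongr
    linarith
  calc (Ψ z1).re ≤ (Φk k z1).re + 3 * (ε / (3 * (M + 1))) := by linarith
    _ ≤ M * (Φk k z2).re + 3 * (ε / (3 * (M + 1))) := by linarith
    _ ≤ M * ((Ψ z2).re + 3 * (ε / (3 * (M + 1)))) + 3 * (ε / (3 * (M + 1))) := by linarith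
    _ = M * (Ψ z2).re + (M + 1) * (3 * (ε / (3 * (M + 1)))) := by ring
    _ = M * (Ψ z2).re + ε := by rw [e3]

end Pool.Agent.helper77
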