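import Mathlib
import Pool.Agent.helper77.Defs
import Pool.Agent.helper77.Terms
import Pool.Agent.helper77.Select
import Pool.Agent.helper77.Universal
import Pool.Agent.helper77.Faithful
import Pool.Agent.helper77.Embed

set_option autoImplicit false

namespace Pool.Agent.helper77

open Set Topology Filter TopologicalSpace InnerProductSpace
open scoped TensorProduct

section Gen

variable {H : Type*} [NormedAddCommGroup H] [InnerProductSpace ℂ H] [CompleteSpace H]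

/-- the generators of `cstar γ` -/
noncomputable def gen (γ : Gam H) (n : ℕ) : cstar γ :=
  ⟨(γ n).toCLM, NonUnitalStarSubalgebra.le_topologicalClosure _
    (NonUnitalStarAlgebra.subset_adjoin ℂ _ ⟨n, rfl⟩)⟩

lemma eval_gen (γ : Gam H) (t : Tm) :
    ((t.eval (gen γ) : cstar γ) : H →L[ℂ] H) = t.eval fun n => (γ n).toCLM := by
  induction t with
  | var n => rfl
  | st t ih => simp only [Tm.eval]; rw [← ih]; rfl
  | mul s t ih1 ih2 => simp only [Tm.eval]; rw [← ih1, ← ih2]; rfl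
  | add s t ih1 ih2 => simp only [Tm.eval]; rw [← ih1, ← ih2]; rfl
  | smul c t ih => simp only [Tm.eval]; rw [← ih]; rfl

lemma norm_eval_gen (γ : Gam H) (t : Tm) :
    ‖(t.eval (gen γ) : cstar γ)‖ = ‖t.eval fun n => (γ n).toCLM‖ := by
  rw [← eval_gen]; rfl

lemma denseRange_eval_gen (γ : Gam H) : DenseRange fun t : Tm => t.eval (gen γ) := by
  rw [Metric.denseRange_iff]
  intro x r hr
  have hx : (x : H →L[ℂ] H) ∈ closure (range fun t : Tm => t.eval fun n => (γ n).toCLM) :=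
    closure_range_eval _ x.2
  obtain ⟨_, ⟨t, rfl⟩, ht⟩ := Metric.mem_closure_iff.1 hx r hr
  refine ⟨t, ?_⟩
  rw [Subtype.dist_eq, eval_gen]
  exact ht

end Gen

section Bd

variable {A B : Type*} [NonUnitalCStarAlgebra A] [NonUnitalCStarAlgebra B]

lemma norm_vec_tmul_le {Φ : A ⊗[ℂ] B →ₗ[ℂ] ℂ} (hΦ : IsState Φ) (a : A) (b : B) :
    ‖vec (toBPos hΦ.isPos) (a ⊗ₜ b)‖ ≤ ‖a‖ * ‖b‖ := by
  refine abs_le_of_sq_le_sq' ?_ (by positivity) |>.2
  rw [norm_vec_sq]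
  have h1 : star (a ⊗ₜ[ℂ] b) * (a ⊗ₜ b) = (star a * a) ⊗ₜ (star b * b) := by
    rw [TensorProduct.star_tmul, Algebra.TensorProduct.tmul_mul_tmul]
  change (Φ (star (a ⊗ₜ[ℂ] b) * (a ⊗ₜ b))).re ≤ _
  rw [h1]
  refine (Complex.re_le_norm _).trans ((hΦ.bound _ _).trans (le_of_eq ?_))
  rw [CStarRing.norm_star_mul_self, CStarRing.norm_star_mul_self]
  ring

/-- vectors of simple tensors of a dense set span a dense subspace -/
lemma span_vec_dense {Φ : A ⊗[ℂ] B →ₗ[ℂ] ℂ} (hΦ : IsState Φ) (g : ℕ → A) (h : ℕ → B)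
    (hg : DenseRange fun t : Tm => t.eval g) (hh : DenseRange fun t : Tm => t.eval h)
    (e : ℕ → Tm × Tm) (he : Function.Surjective e) :
    ⊤ ≤ (Submodule.span ℂ (range fun k => vec (toBPos hΦ.isPos)
      ((e k).1.eval g ⊗ₜ[ℂ] (e k).2.eval h))).topologicalClosure := by
  set f := toBPos hΦ.isPos with hf
  set S := Submodule.span ℂ (range fun k => vec f ((e k).1.eval g ⊗ₜ[ℂ] (e k).2.eval h)) with hS
  have h1 : ∀ (a : A) (b : B), vec f (a ⊗ₜ b) ∈ S.topologicalClosure := by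
    intro a b
    change vec f (a ⊗ₜ b) ∈ closure (S : Set (GNS f))
    rw [Metric.mem_closure_iff]
    intro ε hε
    obtain ⟨s, hs⟩ := hg.exists_dist_lt a (show 0 < min 1 (ε / (2 * (‖b‖ + 1))) by positivity)
    obtain ⟨t, ht⟩ := hh.exists_dist_lt b (show 0 < ε / (2 * (‖a‖ + 2)) by positivity)
    rw [dist_eq_norm] at hs ht
    obtain ⟨k, hk⟩ := he (s, t)
    refine ⟨vec f (s.eval g ⊗ₜ[ℂ] t.eval h), Submodule.subset_span ⟨k, by simp [hk]⟩, ?_⟩
    have h2 : vec f (a ⊗ₜ b) = vec f (s.eval g ⊗ₜ[ℂ] t.eval h) +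
        (vec f ((a - s.eval g) ⊗ₜ b) + vec f (s.eval g ⊗ₜ (b - t.eval h))) := by
      rw [← vec_add, ← vec_add, TensorProduct.sub_tmul, TensorProduct.tmul_sub]
      congr 1
      abel
    rw [dist_eq_norm, h2, add_sub_cancel_left]
    have h4 : ‖a - s.eval g‖ < 1 := hs.trans_le (min_le_left _ _)
    have h5 : ‖a - s.eval g‖ < ε / (2 * (‖b‖ + 1)) := hs.trans_le (min_le_right _ _)
    have h6 : ‖s.eval g‖ ≤ ‖a‖ + 1 := by
      have := norm_sub_norm_le (s.eval g) a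
      rw [norm_sub_rev] at this
      linarith
    calc _ ≤ ‖a - s.eval g‖ * ‖b‖ + ‖s.eval g‖ * ‖b - t.eval h‖ :=
          (norm_add_le _ _).trans (add_le_add (norm_vec_tmul_le hΦ _ _) (norm_vec_tmul_le hΦ _ _))
      _ ≤ ε / (2 * (‖b‖ + 1)) * (‖b‖ + 1) + (‖a‖ + 1) * ‖b - t.eval h‖ := by
          gcongr
          linarith
      _ < ε / (2 * (‖b‖ + 1)) * (‖b‖ + 1) + (‖a‖ + 2) * (ε / (2 * (‖a‖ + 2))) := by
          have h5 : (‖a‖ + 1) * ‖b - t.eval h‖ < (‖a‖ + 2) * (ε / (2 * (‖a‖ + 2))) := by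
            calc (‖a‖ + 1) * ‖b - t.eval h‖ ≤ (‖a‖ + 2) * ‖b - t.eval h‖ := by
                  gcongr; linarith
              _ < _ := by gcongr
          linarith
      _ = ε := by field_simp; ring
  have h2 : ∀ x : A ⊗[ℂ] B, vec f x ∈ S.topologicalClosure := by
    intro x
    induction x with
    | zero =>
      have : vec f (0 : A ⊗[ℂ] B) = 0 := by
        have := vec_smul f (0 : ℂ) (0 : A ⊗[ℂ] B)
        rwa [zero_smul, zero_smul] at this
      rw [this]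
      exact Submodule.zero_mem _
    | tmul a b => exact h1 a b
    | add v w hv hw => rw [vec_add]; exact Submodule.add_mem _ hv hw
  intro z _
  have h3 : closure (range (vec f)) ⊆ (S.topologicalClosure : Set (GNS f)) := by
    refine closure_minimal ?_ (Submodule.isClosed_topologicalClosure _)
    rintro _ ⟨x, rfl⟩
    exact h2 x
  exact h3 (dense_vec f z)

end Bd

section Main

variable {H : Type*} [NormedAddCommGroup H] [InnerProductSpace ℂ H] [CompleteSpace H]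

/-- the inclusion of `cstar γ` in the bounded operators -/
noncomputable def incl (γ : Gam H) : cstar γ →⋆ₙₐ[ℂ] (H →L[ℂ] H) :=
  NonUnitalStarSubalgebraClass.subtype (cstar γ)

lemma incl_injective (γ : Gam H) : Function.Injective (incl γ) := Subtype.val_injective

lemma isMax_intro {A B D : Type*} [NonUnitalCStarAlgebra A] [NonUnitalCStarAlgebra B]
    [NonUnitalCStarAlgebra D] (ι : (A ⊗[ℂ] B) →⋆ₙₐ[ℂ] D) (h1 : DenseRange ι)
    (h2 : IsCStarNorm (fun x => ‖ι x‖))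
    (h3 : ∀ p : A ⊗[ℂ] B → ℝ, IsCStarNorm p → ∀ x, p x ≤ ‖ι x‖) : IsMaxTensorProduct A B D :=
  ⟨ι, h1, h2, h3⟩

variable {A B : Type*} [NonUnitalCStarAlgebra A] [NonUnitalCStarAlgebra B]

lemma isMax_intro_incl (η : Gam H) (θ : (A ⊗[ℂ] B) →⋆ₙₐ[ℂ] (H →L[ℂ] H))
    (hθ : ∀ x, θ x ∈ cstar η)
    (h1 : ∀ x : cstar η, ∀ r > 0, ∃ y, dist (x : H →L[ℂ] H) (θ y) < r)
    (h2 : IsCStarNorm (fun x => ‖θ x‖))
    (h3 : ∀ p : A ⊗[ℂ] B → ℝ, IsCStarNorm p → ∀ x, p x ≤ ‖θ x‖) :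
    IsMaxTensorProduct A B (cstar η) := by
  refine isMax_intro (NonUnitalStarAlgHom.codRestrict θ (cstar η) hθ) ?_ ?_ ?_
  · rw [Metric.denseRange_iff]
    exact h1
  · exact h2
  · exact h3

lemma mem_cstar_of (g : ℕ → A) (h : ℕ → B)
    (hg : DenseRange fun t : Tm => t.eval g) (hh : DenseRange fun t : Tm => t.eval h)
    (η : Gam H) (θ : (A ⊗[ℂ] B) →⋆ₙₐ[ℂ] (H →L[ℂ] H))
    (hb : ∀ a b, ‖θ (a ⊗ₜ b)‖ ≤ ‖a‖ * ‖b‖)
    (e : ℕ → Tm × Tm) (he : Function.Surjective e)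
    (hθe : ∀ k, θ ((e k).1.eval g ⊗ₜ[ℂ] (e k).2.eval h) = (η k).toCLM) :
    ∀ x, θ x ∈ cstar η := by
  have hθt : ∀ (a : A) (b : B), θ (a ⊗ₜ b) ∈ cstar η := by
    intro a b
    change θ (a ⊗ₜ b) ∈ (cstar η : Set (H →L[ℂ] H))
    rw [← (isClosed_cstar η).closure_eq, Metric.mem_closure_iff]
    intro ε hε
    obtain ⟨s, hs⟩ := hg.exists_dist_lt a (show 0 < min 1 (ε / (2 * (‖b‖ + 1))) by positivity)
    obtain ⟨t, ht⟩ := hh.exists_dist_lt b (show 0 < ε / (2 * (‖a‖ + 2)) by positivity)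
    rw [dist_eq_norm] at hs ht
    obtain ⟨k, hk⟩ := he (s, t)
    refine ⟨θ (s.eval g ⊗ₜ[ℂ] t.eval h), ?_, ?_⟩
    · have := hθe k
      rw [hk] at this
      simp only at this
      rw [this]
      exact NonUnitalStarSubalgebra.le_topologicalClosure _
        (NonUnitalStarAlgebra.subset_adjoin ℂ _ ⟨k, rfl⟩)
    have h2 : θ (a ⊗ₜ b) = θ (s.eval g ⊗ₜ[ℂ] t.eval h) +
        (θ ((a - s.eval g) ⊗ₜ b) + θ (s.eval g ⊗ₜ (b - t.eval h))) := by
      rw [← map_add, ← map_add, TensorProduct.sub_tmul, TensorProduct.tmul_sub]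
      congr 1
      abel
    rw [dist_eq_norm, h2, add_sub_cancel_left]
    have h4 : ‖a - s.eval g‖ < 1 := hs.trans_le (min_le_left _ _)
    have h5 : ‖a - s.eval g‖ < ε / (2 * (‖b‖ + 1)) := hs.trans_le (min_le_right _ _)
    have h6 : ‖s.eval g‖ ≤ ‖a‖ + 1 := by
      have := norm_sub_norm_le (s.eval g) a
      rw [norm_sub_rev] at this
      linarith
    calc _ ≤ ‖a - s.eval g‖ * ‖b‖ + ‖s.eval g‖ * ‖b - t.eval h‖ :=
          (norm_add_le _ _).trans (add_le_add (hb _ _) (hb _ _))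
      _ ≤ ε / (2 * (‖b‖ + 1)) * (‖b‖ + 1) + (‖a‖ + 1) * ‖b - t.eval h‖ := by
          gcongr
          linarith
      _ < ε / (2 * (‖b‖ + 1)) * (‖b‖ + 1) + (‖a‖ + 2) * (ε / (2 * (‖a‖ + 2))) := by
          have h5 : (‖a‖ + 1) * ‖b - t.eval h‖ < (‖a‖ + 2) * (ε / (2 * (‖a‖ + 2))) := by
            calc (‖a‖ + 1) * ‖b - t.eval h‖ ≤ (‖a‖ + 2) * ‖b - t.eval h‖ := by
                  gcongr; linarith
              _ < _ := by gcongr
          linarith
      _ = ε := by field_simp; ring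
  intro x
  induction x with
  | zero => rw [map_zero]; exact zero_mem _
  | tmul a b => exact hθt a b
  | add v w hv hw => rw [map_add]; exact add_mem hv hw

lemma dense_of (g : ℕ → A) (h : ℕ → B) (η : Gam H) (θ : (A ⊗[ℂ] B) →⋆ₙₐ[ℂ] (H →L[ℂ] H))
    (e : ℕ → Tm × Tm)
    (hθe : ∀ k, θ ((e k).1.eval g ⊗ₜ[ℂ] (e k).2.eval h) = (η k).toCLM) :
    ∀ x : cstar η, ∀ r > 0, ∃ y, dist (x : H →L[ℂ] H) (θ y) < r := by
  intro z r hr
  have h1 : (NonUnitalStarAlgebra.adjoin ℂ (range fun n => (η n).toCLM)) ≤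
      NonUnitalStarAlgHom.range θ := by
    refine NonUnitalStarAlgebra.adjoin_le ?_
    rintro _ ⟨k, rfl⟩
    exact ⟨_, hθe k⟩
  have h2 : (z : H →L[ℂ] H) ∈ closure (NonUnitalStarAlgHom.range θ : Set (H →L[ℂ] H)) :=
    closure_mono h1 z.2
  obtain ⟨_, ⟨x, rfl⟩, hx⟩ := Metric.mem_closure_iff.1 h2 r hr
  exact ⟨x, hx⟩

lemma isCStarNorm_of (θ : (A ⊗[ℂ] B) →⋆ₙₐ[ℂ] (H →L[ℂ] H)) (h0 : ∀ x, θ x = 0 → x = 0) :
    IsCStarNorm (fun x => ‖θ x‖) := by
  refine ⟨fun x y => ?_, fun c x => ?_, fun x y => ?_, fun x => ?_, fun x hx => ?_⟩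
  · rw [map_add]; exact norm_add_le _ _
  · rw [map_smul, norm_smul]
  · rw [map_mul]; exact norm_mul_le _ _
  · rw [map_mul, map_star, CStarRing.norm_star_mul_self, sq]
  · exact h0 x (norm_eq_zero.1 hx)

/-- a sequence of conjugated simple tensors of the universal representation generates the
maximal tensor product -/
theorem isMax_of (g : ℕ → A) (h : ℕ → B)
    (hg : DenseRange fun t : Tm => t.eval g) (hh : DenseRange fun t : Tm => t.eval h)
    (ρ : A →⋆ₙₐ[ℂ] (H →L[ℂ] H)) (σ : B →⋆ₙₐ[ℂ] (H →L[ℂ] H))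
    (hρ : Function.Injective ρ) (hσ : Function.Injective σ)
    {Φ : A ⊗[ℂ] B →ₗ[ℂ] ℂ} (hΦ : IsPos Φ)
    (hall : ∀ Ψ : A ⊗[ℂ] B →ₗ[ℂ] ℂ, IsState Ψ → ∀ x y,
        (Ψ (star (x * y) * (x * y))).re ≤
          ‖gns (toBPos hΦ) x‖ ^ 2 * (Ψ (star y * y)).re)
    (e : ℕ → Tm × Tm) (he : Function.Surjective e) (U : GNS (toBPos hΦ) →ₗᵢ[ℂ] H)
    (η : Gam H)
    (hη : ∀ k, conjU U (gns (toBPos hΦ) ((e k).1.eval g ⊗ₜ[ℂ] (e k).2.eval h)) =
      (η k).toCLM) :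
    IsMaxTensorProduct A B (cstar η) := by
  have hθ : ∀ x, ‖((conjU U).comp (gns (toBPos hΦ))) x‖ = ‖gns (toBPos hΦ) x‖ :=
    fun x => norm_conjU U (gns (toBPos hΦ) x)
  refine isMax_intro_incl η ((conjU U).comp (gns (toBPos hΦ)))
    (mem_cstar_of g h hg hh η _ (fun a b => ?_) e he hη)
    (dense_of g h η _ e hη) (isCStarNorm_of _ fun x hx => ?_) fun p hp x => ?_
  · rw [hθ]
    exact norm_gns_tmul_le hΦ a b
  · refine gns_eq_zero ρ σ hρ hσ hΦ hall x (norm_eq_zero.1 ?_)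
    rw [← hθ, hx, norm_zero]
  · rw [hθ]
    exact cstarNorm_le_gns hΦ hall hp x

end Main

end Pool.Agent.helper77
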