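import Mathlib
import Pool.Agent.helper77.Assemble

set_option autoImplicit false

namespace Pool.Agent.helper77

open Set Topology Filter TopologicalSpace InnerProductSpace
open scoped TensorProduct

universe u

section Point

variable {H : Type u} [NormedAddCommGroup H] [InnerProductSpace ℂ H] [CompleteSpace H]
variable {A B : Type u} [NonUnitalCStarAlgebra A] [NonUnitalCStarAlgebra B]

/-- The value of the universal functional on a pair of expressions. -/
noncomputable def val (F : ℕ → Tm × Tm → ℂ) (p : Tm × Tm) : ℂ :=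
  ∑' k, ((1 / 2 : ℝ) ^ (k + 1) : ℂ) * F k p

/-- The construction at one pair of algebras, with explicit matrix coefficients. -/
theorem exists_point (b : HilbertBasis ℕ ℂ H) (g : ℕ → A) (h : ℕ → B)
    (hg : DenseRange fun t : Tm => t.eval g) (hh : DenseRange fun t : Tm => t.eval h)
    (ρ : A →⋆ₙₐ[ℂ] (H →L[ℂ] H)) (σ : B →⋆ₙₐ[ℂ] (H →L[ℂ] H))
    (hρ : Function.Injective ρ) (hσ : Function.Injective σ)
    (F : ℕ → Tm × Tm → ℂ)
    (hF : ∀ k, Compat (fun s => ‖s.eval g‖) (fun t => ‖t.eval h‖) (F k))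
    (hd : ∀ φ, Compat (fun s => ‖s.eval g‖) (fun t => ‖t.eval h‖) φ → ∀ (S : Finset (Tm × Tm))
      (ε : ℝ), 0 < ε → ∃ k, ∀ i ∈ S, ‖F k i - φ i‖ < ε)
    (e : ℕ → Tm × Tm) (he : Function.Surjective e) :
    ∃ (V : Type u) (_ : NormedAddCommGroup V) (_ : InnerProductSpace ℂ V)
      (v : ℕ → V) (S : ℕ → V →L[ℂ] V) (η : Gam H),
      (∀ i j, ⟪v i, v j⟫_ℂ = val F (.mul (.st (e i).1) (e j).1, .mul (.st (e i).2) (e j).2)) ∧
      (∀ k i j, ⟪v i, S k (v j)⟫_ℂ = val F (.mul (.st (e i).1) (.mul (e k).1 (e j).1),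
        .mul (.st (e i).2) (.mul (e k).2 (e j).2))) ∧
      (∀ k m n, ⟪b m, η k (b n)⟫_ℂ =
        ⟪gramSchmidtNormed ℂ v m, S k (gramSchmidtNormed ℂ v n)⟫_ℂ) ∧
      IsMaxTensorProduct A B (cstar η) := by
  obtain ⟨Φ, hΦ, hval, hall⟩ := exists_universal g h hg hh F hF hd
  obtain ⟨U, hU⟩ := exists_isometry b (fun k => vec (toBPos hΦ.isPos)
      ((e k).1.eval g ⊗ₜ[ℂ] (e k).2.eval h)) (span_vec_dense hΦ g h hg hh e he)
  refine ⟨GNS (toBPos hΦ.isPos), inferInstance, inferInstance,
    fun k => vec (toBPos hΦ.isPos) ((e k).1.eval g ⊗ₜ[ℂ] (e k).2.eval h),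
    fun k => gns (toBPos hΦ.isPos) ((e k).1.eval g ⊗ₜ[ℂ] (e k).2.eval h),
    fun k => ContinuousLinearMapWOT.ofCLM (conjU U (gns (toBPos hΦ.isPos)
      ((e k).1.eval g ⊗ₜ[ℂ] (e k).2.eval h))), fun i j => ?_, fun k i j => ?_, fun k m n => ?_,
    isMax_of g h hg hh ρ σ hρ hσ hΦ.isPos hall e he U _ fun k => rfl⟩
  · rw [inner_vec]
    change Φ _ = _
    rw [TensorProduct.star_tmul, Algebra.TensorProduct.tmul_mul_tmul]
    exact hval (.mul (.st (e i).1) (e j).1) (.mul (.st (e i).2) (e j).2)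
  · rw [gns_vec, inner_vec]
    change Φ _ = _
    rw [TensorProduct.star_tmul, Algebra.TensorProduct.tmul_mul_tmul,
      Algebra.TensorProduct.tmul_mul_tmul]
    exact hval (.mul (.st (e i).1) (.mul (e k).1 (e j).1))
      (.mul (.st (e i).2) (.mul (e k).2 (e j).2))
  · rw [← hU m, ← hU n]
    exact inner_conjU U _ _ _

end Point

section Meas

/-- the values of the universal functional are measurable -/
lemma measurable_val {Ω : Type*} [MeasurableSpace Ω] (F : ℕ → Ω → Tm × Tm → ℂ)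
    (a b : Ω → Tm → ℝ) (hF : ∀ k i, Measurable fun ω => F k ω i)
    (hc : ∀ k ω, Compat (a ω) (b ω) (F k ω)) (p : Tm × Tm) :
    Measurable fun ω => val (fun k => F k ω) p := by
  have hs : ∀ ω, Summable fun k : ℕ => ((1 / 2 : ℝ) ^ (k + 1) : ℂ) * F k ω p := by
    intro ω
    have hgeo : Summable fun k : ℕ => ((1 / 2 : ℝ)) ^ (k + 1) :=
      (summable_nat_add_iff 1).2 summable_geometric_two
    refine Summable.of_norm_bounded (g := fun k => (1 / 2 : ℝ) ^ (k + 1) * (|a ω p.1| * |b ω p.2|))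
      (hgeo.mul_right _) fun k => ?_
    rw [norm_mul, norm_pow, Complex.norm_real, Real.norm_of_nonneg (by norm_num)]
    gcongr
    exact (hc k ω).bound p.1 p.2
  refine measurable_of_tendsto_metrizable (f := fun n ω => ∑ k ∈ Finset.range n,
    ((1 / 2 : ℝ) ^ (k + 1) : ℂ) * F k ω p) (fun n => ?_) ?_
  · exact Finset.measurable_fun_sum _ fun k _ => (hF k p).const_mul _
  · rw [tendsto_pi_nhds]
    exact fun ω => (hs ω).hasSum.tendsto_sum_nat

end Meas

/-- The maximal tensor product is a Borel construction. -/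
theorem borel_max_tensor (H : Type u) [NormedAddCommGroup H] [InnerProductSpace ℂ H]
    [CompleteSpace H] [SeparableSpace H] (b : HilbertBasis ℕ ℂ H) :
    ∃ Φ : Gam H × Gam H → Gam H, Measurable Φ ∧
      ∀ γ δ, IsMaxTensorProduct (cstar γ) (cstar δ) (cstar (Φ (γ, δ))) := by
  obtain ⟨F, hFm, hFc, hFd⟩ := exists_select
  haveI : Nonempty (Tm × Tm) := ⟨(.var 0, .var 0)⟩
  obtain ⟨e, he⟩ := exists_surjective_nat (Tm × Tm)
  -- the parameters of a pair of codes
  let y : Gam H × Gam H → Par := fun ω =>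
    (fun s => ‖(s.eval (gen ω.1) : cstar ω.1)‖, fun t => ‖(t.eval (gen ω.2) : cstar ω.2)‖)
  have hy : Measurable y := by
    refine Measurable.prodMk (measurable_pi_iff.2 fun s => ?_) (measurable_pi_iff.2 fun t => ?_)
    · simp only [norm_eval_gen]
      exact measurable_norm_eval b (fun ω : Gam H × Gam H => ω.1)
        (fun n => (measurable_pi_apply n).comp measurable_fst) s
    · simp only [norm_eval_gen]
      exact measurable_norm_eval b (fun ω : Gam H × Gam H => ω.2)
        (fun n => (measurable_pi_apply n).comp measurable_snd) t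
  have key := fun ω : Gam H × Gam H => exists_point b (gen ω.1) (gen ω.2)
    (denseRange_eval_gen ω.1) (denseRange_eval_gen ω.2) (incl ω.1) (incl ω.2)
    (incl_injective ω.1) (incl_injective ω.2) (fun k => F k (y ω)) (fun k => hFc k (y ω))
    (hFd (y ω)) e he
  choose V i1 i2 v S η h1 h2 h3 h4 using key
  have hval : ∀ p, Measurable fun ω => val (fun k => F k (y ω)) p := fun p =>
    measurable_val (fun k ω => F k (y ω)) (fun ω => (y ω).1) (fun ω => (y ω).2)
      (fun k i => (hFm k i).comp hy) (fun k ω => hFc k (y ω)) p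
  have hv : ∀ i j, Measurable fun ω => ⟪v ω i, v ω j⟫_ℂ := fun i j => by
    simp only [h1]
    exact hval _
  refine ⟨η, measurable_pi_iff.2 fun k => measurable_wot_of_basis b _ fun m n => ?_,
    fun γ δ => h4 (γ, δ)⟩
  simp only [h3]
  refine MeasComb.inner_op (fun ω => S ω k) (fun i j => ?_) (MeasComb.gramSchmidtNormed hv m)
    (MeasComb.gramSchmidtNormed hv n)
  simp only [h2]
  exact hval _

end Pool.Agent.helper77
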