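import Pool.Agent.helper77.FinD

/-!
# MP_f09395 (helper93): derivatives of a quotient of a quartic by a quadratic form
-/

noncomputable section

namespace Pool.Agent.Helper93.Fin

open scoped ContDiff

section quot

variable {V : Type*} [NormedAddCommGroup V] [NormedSpace ℝ V] [FiniteDimensional ℝ V]

theorem smooth_bilin_diag (B : V →ₗ[ℝ] V →ₗ[ℝ] ℝ) : ContDiff ℝ ∞ (fun u => B u u) := by
  have h : ContDiff ℝ ∞ (fun u => B.toContinuousBilinearMap u u) :=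
    B.toContinuousBilinearMap.contDiff.clm_apply contDiff_id
  exact h

theorem smooth_bilin_left (B : V →ₗ[ℝ] V →ₗ[ℝ] ℝ) (a : V) : ContDiff ℝ ∞ (fun u => B u a) := by
  have h : ContDiff ℝ ∞ (fun u => B.toContinuousBilinearMap u a) :=
    B.toContinuousBilinearMap.contDiff.clm_apply contDiff_const
  exact h

/-- derivative along a line -/
theorem D1_of_line {f : V → ℝ} (hf : ContDiffOn ℝ ∞ f {0}ᶜ) {u w : V} (hu : u ≠ 0) {d : ℝ}
    (h : HasDerivAt (fun s : ℝ => f (u + s • w)) d 0) : D1 f u w = d := by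
  have h0 : HasDerivAt (fun s : ℝ => u + s • w) w 0 := by
    simpa using ((hasDerivAt_id (0 : ℝ)).smul_const w).const_add u
  have h1' : HasFDerivAt f (fderiv ℝ f (u + (0 : ℝ) • w)) (u + (0 : ℝ) • w) := by
    rw [zero_smul, add_zero]
    exact (differentiableAt_of_ne hf hu).hasFDerivAt
  have h1 : HasDerivAt (fun s : ℝ => f (u + s • w)) (fderiv ℝ f (u + (0 : ℝ) • w) w) 0 :=
    h1'.comp_hasDerivAt (0 : ℝ) h0
  rw [zero_smul, add_zero] at h1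
  exact h1.unique h

theorem line_diag (B : V →ₗ[ℝ] V →ₗ[ℝ] ℝ) (hB : ∀ u v, B u v = B v u) (u w : V) :
    HasDerivAt (fun s : ℝ => B (u + s • w) (u + s • w)) (2 * B u w) 0 := by
  have h1 : (fun s : ℝ => B (u + s • w) (u + s • w))
      = fun s : ℝ => B u u + s * (2 * B u w) + s ^ 2 * B w w := by
    funext s
    simp only [map_add, map_smul, LinearMap.add_apply, LinearMap.smul_apply, smul_eq_mul]
    rw [hB w u]; ring
  rw [h1]
  have h2 : HasDerivAt (fun s : ℝ => B u u + s * (2 * B u w) + s ^ 2 * B w w)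
      (0 + 1 * (2 * B u w) + ((2 : ℕ) * (0 : ℝ) ^ (2 - 1)) * B w w) 0 :=
    ((hasDerivAt_const (0 : ℝ) _).add ((hasDerivAt_id (0 : ℝ)).mul_const _)).add
      ((hasDerivAt_pow 2 (0 : ℝ)).mul_const _)
  convert h2 using 1
  simp

theorem line_left (B : V →ₗ[ℝ] V →ₗ[ℝ] ℝ) (u w a : V) :
    HasDerivAt (fun s : ℝ => B (u + s • w) a) (B w a) 0 := by
  have h1 : (fun s : ℝ => B (u + s • w) a) = fun s : ℝ => B u a + s * B w a := by
    funext s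
    simp only [map_add, map_smul, LinearMap.add_apply, LinearMap.smul_apply, smul_eq_mul]
  rw [h1]
  have h2 : HasDerivAt (fun s : ℝ => B u a + s * B w a) (0 + 1 * B w a) 0 :=
    (hasDerivAt_const (0 : ℝ) _).add ((hasDerivAt_id (0 : ℝ)).mul_const _)
  convert h2 using 1
  simp

variable (B₁ B₂ N : V →ₗ[ℝ] V →ₗ[ℝ] ℝ)

/-- quotient of a quartic `½ B₁² + ½ B₂²` by a quadratic form -/
def quo (u : V) : ℝ := ((1 / 2) * (B₁ u u) ^ 2 + (1 / 2) * (B₂ u u) ^ 2) / N u u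

structure QuoData : Prop where
  s1 : ∀ u v, B₁ u v = B₁ v u
  s2 : ∀ u v, B₂ u v = B₂ v u
  sN : ∀ u v, N u v = N v u
  pos : ∀ u, u ≠ 0 → 0 < N u u

variable {B₁ B₂ N} (h : QuoData B₁ B₂ N)
include h

theorem quo_smooth : ContDiffOn ℝ ∞ (quo B₁ B₂ N) {0}ᶜ := by
  refine ContDiffOn.div ?_ (smooth_bilin_diag N).contDiffOn fun u hu => (h.pos u hu).ne'
  exact ((contDiff_const.mul ((smooth_bilin_diag B₁).pow 2)).add
    (contDiff_const.mul ((smooth_bilin_diag B₂).pow 2))).contDiffOn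

omit [FiniteDimensional ℝ V] in
theorem quo_hom (c : ℝ) (u : V) : quo B₁ B₂ N (c • u) = c ^ 2 * quo B₁ B₂ N u := by
  by_cases hc : c = 0
  · simp [hc, quo]
  · by_cases hu : u = 0
    · simp [hu, quo]
    · have := (h.pos u hu).ne'
      simp only [quo, map_smul, LinearMap.smul_apply, smul_eq_mul]
      field_simp

theorem quo_D1 {u : V} (hu : u ≠ 0) (w : V) : D1 (quo B₁ B₂ N) u w =
    ((2 * (B₁ u u * B₁ u w + B₂ u u * B₂ u w)) * N u u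
      - ((1 / 2) * (B₁ u u) ^ 2 + (1 / 2) * (B₂ u u) ^ 2) * (2 * N u w)) / (N u u) ^ 2 := by
  apply D1_of_line (quo_smooth h) hu
  have d1 := line_diag B₁ h.s1 u w
  have d2 := line_diag B₂ h.s2 u w
  have dN := line_diag N h.sN u w
  have hN : N (u + (0 : ℝ) • w) (u + (0 : ℝ) • w) ≠ 0 := by
    rw [zero_smul, add_zero]; exact (h.pos u hu).ne'
  have := (((d1.pow 2).const_mul (1 / 2)).add ((d2.pow 2).const_mul (1 / 2))).div dN hN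
  refine HasDerivAt.congr_deriv this ?_
  simp only [Pi.add_apply, Pi.pow_apply, Pi.mul_apply, zero_smul, add_zero]
  ring

/-- the first derivative in a direction which is orthogonal to `u` -/
theorem quo_D1_perp {u : V} (hu : u ≠ 0) {w : V} (hw : N u w = 0) : D1 (quo B₁ B₂ N) u w =
    (2 * (B₁ u u * B₁ u w + B₂ u u * B₂ u w)) / N u u := by
  rw [quo_D1 h hu, hw]
  have := (h.pos u hu).ne'
  field_simp
  ring

theorem quo_D2_perp {u : V} (hu : u ≠ 0) {v w : V} (hw : N u w = 0) (hvw : N v w = 0)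
    (h1 : B₁ u u * B₁ u w + B₂ u u * B₂ u w = 0) :
    D2 (quo B₁ B₂ N) u v w = (4 * (B₁ u v * B₁ u w + B₂ u v * B₂ u w)
      + 2 * (B₁ u u * B₁ v w + B₂ u u * B₂ v w)) / N u u := by
  rw [D2_symm (quo_smooth h) hu]
  have e1 : D2 (quo B₁ B₂ N) u w v = D1 (fun z => D1 (quo B₁ B₂ N) z w) u v := rfl
  rw [e1]
  apply D1_of_line (D1_smooth (quo_smooth h) w) hu
  have hN0 : (N u u) ≠ 0 := (h.pos u hu).ne'
  have key : (fun s : ℝ => ((2 * (B₁ (u + s • v) (u + s • v) * B₁ (u + s • v) w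
        + B₂ (u + s • v) (u + s • v) * B₂ (u + s • v) w)))
        / N (u + s • v) (u + s • v))
      =ᶠ[nhds 0] fun s : ℝ => D1 (quo B₁ B₂ N) (u + s • v) w := by
    have hc : Continuous fun s : ℝ => u + s • v := by fun_prop
    have h0 : ∀ᶠ s : ℝ in nhds 0, u + s • v ≠ 0 := by
      have : ∀ᶠ z in nhds (u + (0 : ℝ) • v), z ≠ 0 := by
        rw [zero_smul, add_zero]; exact eventually_ne' hu
      exact hc.continuousAt.eventually this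
    filter_upwards [h0] with s hs
    rw [quo_D1_perp h hs]
    rw [map_add, map_smul, LinearMap.add_apply, LinearMap.smul_apply, hw, hvw]; simp
  refine HasDerivAt.congr_of_eventuallyEq ?_ key.symm
  have d1 := line_diag B₁ h.s1 u v
  have d2 := line_diag B₂ h.s2 u v
  have dN := line_diag N h.sN u v
  have f1 := line_left B₁ u v w
  have f2 := line_left B₂ u v w
  have hN : N (u + (0 : ℝ) • v) (u + (0 : ℝ) • v) ≠ 0 := by
    rw [zero_smul, add_zero]; exact hN0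
  have := (((d1.mul f1).add (d2.mul f2)).const_mul 2).div dN hN
  refine HasDerivAt.congr_deriv this ?_
  simp only [Pi.add_apply, Pi.mul_apply, zero_smul, add_zero, h1]
  field_simp
  ring

end quot

section br

variable {R : Type*} [Ring R]

theorem qbr_add_right (a b c : R) : ⁅a, b + c⁆ = ⁅a, b⁆ + ⁅a, c⁆ := by
  simp only [Ring.lie_def, mul_add, add_mul]; abel
theorem qbr_add_left (a b c : R) : ⁅a + b, c⁆ = ⁅a, c⁆ + ⁅b, c⁆ := by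
  simp only [Ring.lie_def, mul_add, add_mul]; abel
theorem qbr_self (a : R) : ⁅a, a⁆ = 0 := by simp [Ring.lie_def]
theorem qbr_skew (a b : R) : ⁅a, b⁆ = -⁅b, a⁆ := by
  simp only [Ring.lie_def]; abel

end br

section sym

variable {𝔸 : Type*} [NormedRing 𝔸] [NormedAlgebra ℝ 𝔸] [FiniteDimensional ℝ 𝔸]
variable {h k p m : Submodule ℝ 𝔸} {P : 𝔸 →L[ℝ] m} {Q B₁ B₂ : 𝔸 →ₗ[ℝ] 𝔸 →ₗ[ℝ] ℝ}
variable {Ph Pk Pp : 𝔸 →L[ℝ] 𝔸} {φ : m → ℝ}

/-- restriction of a bilinear form to `m` -/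
def res2 (m : Submodule ℝ 𝔸) (B : 𝔸 →ₗ[ℝ] 𝔸 →ₗ[ℝ] ℝ) : m →ₗ[ℝ] m →ₗ[ℝ] ℝ :=
  B.compl₁₂ m.subtype m.subtype

omit [FiniteDimensional ℝ 𝔸] in
theorem res2_apply (B : 𝔸 →ₗ[ℝ] 𝔸 →ₗ[ℝ] ℝ) (u v : m) : res2 m B u v = B u v := rfl

/-- data for the perturbation -/
structure QData (h k p m : Submodule ℝ 𝔸) (P : 𝔸 →L[ℝ] m) (Q B₁ B₂ : 𝔸 →ₗ[ℝ] 𝔸 →ₗ[ℝ] ℝ)
    (Ph Pk Pp : 𝔸 →L[ℝ] 𝔸) (φ : m → ℝ) : Prop where
  sym : SymData h k p Q Ph Pk Pp
  m_eq : m = k ⊔ p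
  P_eq : ∀ X, (P X : 𝔸) = Pk X + Pp X
  s1 : ∀ X Y, B₁ X Y = B₁ Y X
  s2 : ∀ X Y, B₂ X Y = B₂ Y X
  i1 : ∀ X ∈ h, ∀ Y ∈ m, B₁ Y ⁅X, Y⁆ = 0
  i2 : ∀ X ∈ h, ∀ Y ∈ m, B₂ Y ⁅X, Y⁆ = 0
  k1 : ∀ X ∈ k, ∀ Y, B₁ X Y = 0
  k2 : ∀ X ∈ k, ∀ Y, B₂ X Y = 0
  φ_eq : ∀ u : m, φ u = ((1 / 2) * (B₁ u u) ^ 2 + (1 / 2) * (B₂ u u) ^ 2) / Q u u

/-- the statement `NonDeg.n2` -/
def N2Prop (h k p m : Submodule ℝ 𝔸) (P : 𝔸 →L[ℝ] m) (φ : m → ℝ) : Prop :=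
  ∀ u v : m, (u : 𝔸) ∈ p → (v : 𝔸) ∈ p → LinearIndependent ℝ ![u, v] →
    ⁅(u : 𝔸), (v : 𝔸)⁆ = 0 →
    ¬ ((∀ a ∈ k, D1 φ u (P ⁅a, (u : 𝔸)⁆) = 0) ∧ (∀ a ∈ h ⊔ k, D1 φ u (P ⁅a, (v : 𝔸)⁆) = 0) ∧
      (∀ a ∈ k, D2 φ u v (P ⁅a, (u : 𝔸)⁆) = 0))

variable (D : QData h k p m P Q B₁ B₂ Ph Pk Pp φ)
include D

omit [FiniteDimensional ℝ 𝔸] in
theorem QData.φ_eq' : φ = quo (res2 m B₁) (res2 m B₂) (res2 m Q) := funext D.φ_eq

omit [FiniteDimensional ℝ 𝔸] in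
theorem QData.quoData : QuoData (res2 m B₁) (res2 m B₂) (res2 m Q) where
  s1 u v := D.s1 u v
  s2 u v := D.s2 u v
  sN u v := D.sym.Qsymm u v
  pos u hu := by
    refine D.sym.Qpos u ?_ (by simpa using hu)
    have h1 : (u : 𝔸) ∈ k ⊔ p := by rw [← D.m_eq]; exact u.2
    rw [sup_assoc]
    exact (le_sup_right : k ⊔ p ≤ h ⊔ (k ⊔ p)) h1

omit [FiniteDimensional ℝ 𝔸] in
theorem QData.lie_mem_m {Y : 𝔸} (hY : Y ∈ h) {u : 𝔸} (hu : u ∈ m) : ⁅Y, u⁆ ∈ m := by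
  rw [D.m_eq, Submodule.mem_sup] at hu
  obtain ⟨y, hy, z, hz, rfl⟩ := hu
  rw [qbr_add_right, D.sym.hk Y hY y hy, zero_add, D.m_eq]
  exact (le_sup_right : p ≤ k ⊔ p) (D.sym.hp Y hY z hz)

omit [FiniteDimensional ℝ 𝔸] in
theorem QData.P_mem {X : 𝔸} (hX : X ∈ m) : (P X : 𝔸) = X := by
  rw [D.P_eq]
  rw [D.m_eq, Submodule.mem_sup] at hX
  obtain ⟨y, hy, z, hz, rfl⟩ := hX
  rw [map_add, map_add, D.sym.Pk_k y hy, D.sym.Pk_p z hz, D.sym.Pp_k y hy, D.sym.Pp_p z hz]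
  simp

omit [FiniteDimensional ℝ 𝔸] in
theorem QData.lie_mem_p {a : 𝔸} (ha : a ∈ h ⊔ k) {u : 𝔸} (hu : u ∈ p) : ⁅a, u⁆ ∈ p := by
  rw [Submodule.mem_sup] at ha
  obtain ⟨y, hy, z, hz, rfl⟩ := ha
  rw [qbr_add_left]
  exact p.add_mem (D.sym.hp y hy u hu) (D.sym.kp z hz u hu)

omit [FiniteDimensional ℝ 𝔸] in
theorem QData.p_le : p ≤ m := by rw [D.m_eq]; exact le_sup_right

omit [FiniteDimensional ℝ 𝔸] in
/-- `Q(u, [a, v]) = 0` when `[u, v] = 0` -/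
theorem QData.Q_lie {a u v : 𝔸} (huv : ⁅u, v⁆ = 0) : Q u ⁅a, v⁆ = 0 := by
  rw [D.sym.Qsymm, D.sym.Qinv, qbr_skew v u, huv, neg_zero, map_zero]

theorem QData.phiData : PhiData h m P Pk Pp φ where
  smooth := by
    rw [D.φ_eq']
    exact quo_smooth D.quoData
  hom c u := by
    rw [D.φ_eq']
    exact quo_hom D.quoData c u
  inv Y hY u hu := by
    have hm := D.lie_mem_m hY u.2
    have hP := D.P_mem hm
    have e1 : res2 m Q u (P ⁅Y, (u : 𝔸)⁆) = 0 := by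
      rw [res2_apply, hP]; exact D.Q_lie (qbr_self _)
    rw [D.φ_eq', quo_D1_perp D.quoData hu e1, res2_apply, res2_apply, res2_apply, res2_apply,
      hP, D.i1 Y hY u u.2, D.i2 Y hY u u.2]
    simp
  even u v h1 h2 := by
    have decomp : ∀ w : m, (w : 𝔸) = Pk w + Pp w := fun w => by
      rw [← D.P_eq, D.P_mem w.2]
    have memk : ∀ w : m, Pk (w : 𝔸) ∈ k := by
      intro w
      have hw : (w : 𝔸) ∈ k ⊔ p := D.m_eq ▸ w.2
      rw [Submodule.mem_sup] at hw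
      obtain ⟨y, hy, z, hz, hyz⟩ := hw
      rw [← hyz, map_add, D.sym.Pk_k y hy, D.sym.Pk_p z hz, add_zero]
      exact hy
    have memp : ∀ w : m, Pp (w : 𝔸) ∈ p := by
      intro w
      have hw : (w : 𝔸) ∈ k ⊔ p := D.m_eq ▸ w.2
      rw [Submodule.mem_sup] at hw
      obtain ⟨y, hy, z, hz, hyz⟩ := hw
      rw [← hyz, map_add, D.sym.Pp_k y hy, D.sym.Pp_p z hz, zero_add]
      exact hz
    have b1 : ∀ w : m, B₁ w w = B₁ (Pp w) (Pp w) := by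
      intro w
      conv_lhs => rw [decomp w]
      rw [map_add, map_add, LinearMap.add_apply, LinearMap.add_apply, D.k1 _ (memk w),
        D.k1 _ (memk w), D.s1 (Pp w) (Pk w), D.k1 _ (memk w)]
      ring
    have b2 : ∀ w : m, B₂ w w = B₂ (Pp w) (Pp w) := by
      intro w
      conv_lhs => rw [decomp w]
      rw [map_add, map_add, LinearMap.add_apply, LinearMap.add_apply, D.k2 _ (memk w),
        D.k2 _ (memk w), D.s2 (Pp w) (Pk w), D.k2 _ (memk w)]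
      ring
    have bq : ∀ w : m, Q w w = Q (Pk w) (Pk w) + Q (Pp w) (Pp w) := by
      intro w
      conv_lhs => rw [decomp w]
      rw [map_add, map_add, LinearMap.add_apply, LinearMap.add_apply,
        D.sym.Qkp _ (memk w) _ (memp w), D.sym.Qsymm (Pp w) (Pk w),
        D.sym.Qkp _ (memk w) _ (memp w)]
      ring
    rw [D.φ_eq, D.φ_eq, b1 v, b2 v, bq v, b1 u, b2 u, bq u, h1, h2]
    simp

theorem QData.D1_zero {u v : m} (hu0 : u ≠ 0) (hv : (v : 𝔸) ∈ p)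
    (huv : ⁅(u : 𝔸), (v : 𝔸)⁆ = 0) {a : 𝔸} (ha : a ∈ h ⊔ k)
    (h0 : D1 φ u (P ⁅a, (v : 𝔸)⁆) = 0) :
    B₁ u u * B₁ u ⁅a, (v : 𝔸)⁆ + B₂ u u * B₂ u ⁅a, (v : 𝔸)⁆ = 0 := by
  have hm := D.p_le (D.lie_mem_p ha hv)
  have hP := D.P_mem hm
  have e1 : res2 m Q u (P ⁅a, (v : 𝔸)⁆) = 0 := by
    rw [res2_apply, hP]; exact D.Q_lie huv
  rw [D.φ_eq', quo_D1_perp D.quoData hu0 e1] at h0
  have hpos : 0 < res2 m Q u u := D.quoData.pos u hu0
  rw [div_eq_zero_iff] at h0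
  rcases h0 with h0 | h0
  · simp only [res2_apply, hP] at h0
    linarith
  · exact absurd h0 hpos.ne'

theorem QData.D2_zero {u v : m} (hu0 : u ≠ 0) (hu : (u : 𝔸) ∈ p)
    (huv : ⁅(u : 𝔸), (v : 𝔸)⁆ = 0) {a : 𝔸} (ha : a ∈ h ⊔ k)
    (h1 : D1 φ u (P ⁅a, (u : 𝔸)⁆) = 0) (h0 : D2 φ u v (P ⁅a, (u : 𝔸)⁆) = 0) :
    2 * (B₁ u v * B₁ u ⁅a, (u : 𝔸)⁆ + B₂ u v * B₂ u ⁅a, (u : 𝔸)⁆)
      + (B₁ u u * B₁ v ⁅a, (u : 𝔸)⁆ + B₂ u u * B₂ v ⁅a, (u : 𝔸)⁆) = 0 := by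
  have hm := D.p_le (D.lie_mem_p ha hu)
  have hP := D.P_mem hm
  have e1 : res2 m Q u (P ⁅a, (u : 𝔸)⁆) = 0 := by
    rw [res2_apply, hP]; exact D.Q_lie (qbr_self _)
  have e2 : res2 m Q v (P ⁅a, (u : 𝔸)⁆) = 0 := by
    rw [res2_apply, hP]
    refine D.Q_lie ?_
    rw [qbr_skew, huv, neg_zero]
  have e3 := D.D1_zero hu0 hu (qbr_self _) ha h1
  have e3' : res2 m B₁ u u * res2 m B₁ u (P ⁅a, (u : 𝔸)⁆)
      + res2 m B₂ u u * res2 m B₂ u (P ⁅a, (u : 𝔸)⁆) = 0 := by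
    simp only [res2_apply, hP]; exact e3
  rw [D.φ_eq', quo_D2_perp D.quoData hu0 e1 e2 e3'] at h0
  have hpos : 0 < res2 m Q u u := D.quoData.pos u hu0
  rw [div_eq_zero_iff] at h0
  rcases h0 with h0 | h0
  · simp only [res2_apply, hP] at h0
    linarith
  · exact absurd h0 hpos.ne'

end sym

end Pool.Agent.Helper93.Fin
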